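import Pool.Agent.Ppr2.AvDef

/-!
# Dyadic averages, part A1: the class is closed under products

`av_mul`: `Submodule.span_induction` in both arguments (or `Submodule.span_induction₂`): the
product of two generators `X^j YR^k`, `X^j' YR^k'` is the generator with `(j+j', k+k')`, a product
with a function divisible by `X^M` is divisible by `X^M`. `av_X`: multiply the generators by `X`
(`A k ≤ j ≤ j + 1`). `av_one`: `j = k = 0`. `av_prod`: induction.
-/

namespace Pool.Agent.Ppr2

open PowerSeries Pool.Agent.Ppr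

variable {A M : ℕ}

theorem av_dvd {F : (ℕ → Bool) → PowerSeries ℝ} (h : ∀ z, X ^ M ∣ F z) : F ∈ Av A M :=
  Submodule.subset_span (Or.inr h)

theorem av_gen {j k : ℕ} (h : A * k ≤ j) : (fun z => X ^ j * YR z ^ k) ∈ Av A M :=
  Submodule.subset_span (Or.inl ⟨j, k, h, rfl⟩)

theorem av_mul {F G : (ℕ → Bool) → PowerSeries ℝ} (hF : F ∈ Av A M) (hG : G ∈ Av A M) :
    F * G ∈ Av A M := by
  refine Submodule.span_induction₂ (p := fun F G _ _ => F * G ∈ Av A M) ?_ ?_ ?_ ?_ ?_ ?_ ?_
    hF hG
  · rintro f g (⟨j, k, hjk, rfl⟩ | hf) (⟨j', k', hjk', rfl⟩ | hg)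
    · have h1 : (fun z => X ^ j * YR z ^ k) * (fun z => X ^ j' * YR z ^ k') =
          fun z => (X : PowerSeries ℝ) ^ (j + j') * YR z ^ (k + k') := by
        funext z
        simp only [Pi.mul_apply, pow_add]
        ring
      rw [h1]
      apply av_gen
      rw [mul_add]
      exact add_le_add hjk hjk'
    · exact av_dvd fun z => Dvd.dvd.mul_left (hg z) _
    · exact av_dvd fun z => Dvd.dvd.mul_right (hf z) _
    · exact av_dvd fun z => Dvd.dvd.mul_left (hg z) _
  · intro y _
    rw [zero_mul]
    exact Submodule.zero_mem _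
  · intro x _
    rw [mul_zero]
    exact Submodule.zero_mem _
  · intro x y z _ _ _ h1 h2
    rw [add_mul]
    exact Submodule.add_mem _ h1 h2
  · intro x y z _ _ _ h1 h2
    rw [mul_add]
    exact Submodule.add_mem _ h1 h2
  · intro r x y _ _ h1
    rw [smul_mul_assoc]
    exact Submodule.smul_mem _ _ h1
  · intro r x y _ _ h1
    rw [mul_smul_comm]
    exact Submodule.smul_mem _ _ h1

theorem av_one : (1 : (ℕ → Bool) → PowerSeries ℝ) ∈ Av A M := by
  have h1 : (1 : (ℕ → Bool) → PowerSeries ℝ) = fun z => X ^ 0 * YR z ^ 0 := by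
    funext z
    simp
  rw [h1]
  exact av_gen (le_of_eq (mul_zero A))

theorem av_X {F : (ℕ → Bool) → PowerSeries ℝ} (hF : F ∈ Av A M) :
    (fun z => X * F z) ∈ Av A M := by
  have h1 : (fun _ => (X : PowerSeries ℝ)) ∈ Av A M := by
    have h2 : (fun _ => (X : PowerSeries ℝ)) = fun z => X ^ 1 * YR z ^ 0 := by
      funext z
      simp
    rw [h2]
    exact av_gen (by rw [mul_zero]; exact Nat.zero_le 1)
  exact av_mul h1 hF

theorem av_prod {α : Type} (s : Finset α) (F : α → (ℕ → Bool) → PowerSeries ℝ)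
    (h : ∀ a ∈ s, F a ∈ Av A M) : (fun z => ∏ a ∈ s, F a z) ∈ Av A M := by
  classical
  induction s using Finset.induction_on with
  | empty =>
    have h1 : (fun z => ∏ a ∈ (∅ : Finset α), F a z) = 1 := by
      funext z
      simp
    rw [h1]
    exact av_one
  | insert a s ha ih =>
    have h1 : (fun z => ∏ b ∈ insert a s, F b z) = F a * fun z => ∏ b ∈ s, F b z := by
      funext z
      rw [Finset.prod_insert ha]
      rfl
    rw [h1]
    exact av_mul (h a (Finset.mem_insert_self a s))
      (ih fun b hb => h b (Finset.mem_insert_of_mem hb))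

end Pool.Agent.Ppr2
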