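import Pool.Agent.Ppr2.AvA1

/-!
# Dyadic averages, part A2: `YR (x z)` is in the class `Av 1 M` for nonempty `x`

`sqrt_poly`: induction on `n`: if `X^n ∣ q^2 - (1+4X)`, `n ≥ 1`, and `c` is the coefficient of
`X^n` in `q^2 - (1+4X)`, take `q - (c/2) X^n` (as `q.coeff 0 = 1`); `n = 0, 1`: `q = 1`.
`av_cons`: let `G z = X * YR (V z)`, `G ∈ Av 1 M`. With `q` of `sqrt_poly M`:
`YR (cons c (V z)) = ± q(G z) mod X^M`: both squares are congruent modulo `X^M`
(`YR (cons c v)^2 = 1 + 4 X YR v` by `YR_sq`, `sh (cons c v) = v`; `q(G)^2 - (1 + 4G)` is divisible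
by `G^M`, hence by `X^M`), the constant terms are `sg c` and `± 1` (`q(G)` has the constant term
`q.coeff 0 = 1` as `X ∣ G`), and the sum of the two series with the right sign has the constant
term `± 2`, so it is a unit (`exists_inv`). `q(G)` is in `Av 1 M` by `av_mul` (induction on `q`,
or `Polynomial.aeval` in the Pi algebra); `C a * F` is `a • F` (`PowerSeries.smul_eq_C_mul`).
`av_app`: induction on `x`, the step is `av_cons` with `V z = app x z`; for `x = []` use
`X * YR z ∈ Av 1 M` (`j = k = 1`).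
-/

namespace Pool.Agent.Ppr2

open PowerSeries Pool.Agent.Ppr

variable {M : ℕ}

private theorem AvA2_sqrt (n : ℕ) : ∃ q : Polynomial ℝ, q.coeff 0 = 1 ∧
    Polynomial.X ^ (n + 1) ∣ q ^ 2 - (1 + 4 * Polynomial.X) := by
  induction n with
  | zero =>
    refine ⟨1, by simp, -4, ?_⟩
    ring
  | succ n ih =>
    obtain ⟨q, hq, r, hr⟩ := ih
    set c : ℝ := r.coeff 0 with hc
    refine ⟨q - Polynomial.C (c / 2) * Polynomial.X ^ (n + 1), ?_, ?_⟩
    · simp [hq]
    · have h1 : (Polynomial.X : Polynomial ℝ) ∣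
          r - Polynomial.C c * q + Polynomial.C (c ^ 2 / 4) * Polynomial.X ^ (n + 1) := by
        rw [Polynomial.X_dvd_iff]
        simp [hq, ← hc]
      obtain ⟨t, ht⟩ := h1
      refine ⟨t, ?_⟩
      have h2 : Polynomial.C c = 2 * Polynomial.C (c / 2) := by
        rw [← map_ofNat Polynomial.C 2, ← Polynomial.C_mul]
        congr 1
        ring
      have h3 : Polynomial.C (c ^ 2 / 4) = Polynomial.C (c / 2) ^ 2 := by
        rw [← Polynomial.C_pow]
        congr 1
        ring
      rw [h2, h3] at ht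
      have h4 : (q - Polynomial.C (c / 2) * Polynomial.X ^ (n + 1)) ^ 2 -
          (1 + 4 * Polynomial.X) = (q ^ 2 - (1 + 4 * Polynomial.X)) +
          Polynomial.X ^ (n + 1) * (- (2 * Polynomial.C (c / 2) * q) +
            Polynomial.C (c / 2) ^ 2 * Polynomial.X ^ (n + 1)) := by ring
      rw [h4, hr]
      have h5 : Polynomial.X ^ (n + 1 + 1) * t = Polynomial.X ^ (n + 1) * (Polynomial.X * t) := by
        ring
      rw [h5, ← ht]
      ring

theorem sqrt_poly (n : ℕ) : ∃ q : Polynomial ℝ, q.coeff 0 = 1 ∧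
    Polynomial.X ^ n ∣ q ^ 2 - (1 + 4 * Polynomial.X) := by
  obtain ⟨q, h1, h2⟩ := AvA2_sqrt n
  exact ⟨q, h1, (pow_dvd_pow _ (Nat.le_succ n)).trans h2⟩

private theorem AvA2_pow {G : (ℕ → Bool) → PowerSeries ℝ} (hG : G ∈ Av 1 M) (n : ℕ) :
    G ^ n ∈ Av 1 M := by
  induction n with
  | zero =>
    rw [pow_zero]
    exact av_one
  | succ n ih =>
    rw [pow_succ]
    exact av_mul ih hG

private theorem AvA2_sh (c : Bool) (v : ℕ → Bool) : sh (cons c v) = v := by
  funext k
  simp [sh, cons]

theorem av_cons (c : Bool) (V : (ℕ → Bool) → (ℕ → Bool))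
    (hV : (fun z => X * YR (V z)) ∈ Av 1 M) : (fun z => YR (cons c (V z))) ∈ Av 1 M := by
  obtain ⟨q, hq, r, hr⟩ := sqrt_poly M
  set G : (ℕ → Bool) → PowerSeries ℝ := fun z => X * YR (V z) with hG
  set Q : (ℕ → Bool) → PowerSeries ℝ :=
    ∑ i ∈ Finset.range (q.natDegree + 1), q.coeff i • G ^ i with hQ
  have hQm : Q ∈ Av 1 M :=
    Submodule.sum_mem _ fun i _ => Submodule.smul_mem _ _ (AvA2_pow hV i)
  have hQz : ∀ z, Q z = Polynomial.aeval (G z) q := by
    intro z
    rw [Polynomial.aeval_eq_sum_range, hQ, Finset.sum_apply]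
    rfl
  set s : ℝ := ((sg c : ℤ) : ℝ) with hs
  have hs2 : s ^ 2 = 1 := by
    rw [hs]
    cases c <;> simp [sg]
  have hs0 : s ≠ 0 := by
    intro h
    rw [h] at hs2
    norm_num at hs2
  have hG0 : ∀ z, constantCoeff (G z) = 0 := by
    intro z
    simp [hG]
  have hQ0 : ∀ z, constantCoeff (Q z) = 1 := by
    intro z
    have h1 : constantCoeff (Polynomial.aeval (G z) q) = Polynomial.eval 0 q := by
      rw [Polynomial.aeval_def, Polynomial.hom_eval₂, hG0]
      have h2 : (constantCoeff (R := ℝ)).comp (algebraMap ℝ (PowerSeries ℝ)) = RingHom.id ℝ := by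
        ext a
        simp
      rw [h2]
      rfl
    rw [hQz, h1, ← Polynomial.coeff_zero_eq_eval_zero, hq]
  have hdiv : ∀ z, X ^ M ∣ YR (cons c (V z)) - C s * Q z := by
    intro z
    have h1 : YR (cons c (V z)) ^ 2 = 1 + 4 * G z := by
      rw [YR_sq, AvA2_sh, hG]
      ring
    have h2 : X ^ M ∣ Q z ^ 2 - (1 + 4 * G z) := by
      have h3 := congrArg (Polynomial.aeval (G z)) hr
      simp only [map_sub, map_pow, map_add, map_mul, map_one, map_ofNat,
        Polynomial.aeval_X] at h3
      rw [hQz, h3]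
      refine Dvd.dvd.mul_right ?_ _
      exact pow_dvd_pow_of_dvd (Dvd.intro _ rfl) M
    have hC : (C s : PowerSeries ℝ) ^ 2 = 1 := by
      rw [← map_pow, hs2, map_one]
    have h3 : X ^ M ∣ (YR (cons c (V z)) - C s * Q z) * (YR (cons c (V z)) + C s * Q z) := by
      have h4 : (YR (cons c (V z)) - C s * Q z) * (YR (cons c (V z)) + C s * Q z) =
          - (Q z ^ 2 - (1 + 4 * G z)) := by
        have h5 : (YR (cons c (V z)) - C s * Q z) * (YR (cons c (V z)) + C s * Q z) =
          YR (cons c (V z)) ^ 2 - C s ^ 2 * Q z ^ 2 := by ring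
        rw [h5, h1, hC]
        ring
      rw [h4]
      exact h2.neg_right
    have h4 : constantCoeff (YR (cons c (V z)) + C s * Q z) ≠ 0 := by
      rw [map_add, map_mul, hQ0, YR_const, constantCoeff_C]
      have h5 : (cons c (V z)) 0 = c := rfl
      rw [h5, ← hs]
      intro h6
      apply hs0
      linarith
    obtain ⟨g, hg⟩ := exists_inv h4
    have h5 := h3.mul_right g
    rwa [mul_assoc, hg, mul_one] at h5
  have hfun : (fun z => YR (cons c (V z))) =
      s • Q + fun z => YR (cons c (V z)) - C s * Q z := by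
    funext z
    rw [Pi.add_apply, Pi.smul_apply, PowerSeries.smul_eq_C_mul]
    ring
  rw [hfun]
  exact Submodule.add_mem _ (Submodule.smul_mem _ _ hQm) (av_dvd hdiv)

theorem av_app {x : List Bool} (hx : x ≠ []) : (fun z => YR (app x z)) ∈ Av 1 M := by
  induction x with
  | nil => exact absurd rfl hx
  | cons c x ih =>
    refine av_cons c (fun z => app x z) ?_
    rcases x with _ | ⟨d, x⟩
    · have h := av_gen (A := 1) (M := M) (j := 1) (k := 1) (by norm_num)
      simp only [pow_one] at h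
      exact h
    · exact av_X (ih (by simp))

end Pool.Agent.Ppr2
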