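import Pool.Agent.Ppr2.AvDef

/-!
# Dyadic averages, part B: averaging one letter doubles the class

`av_avg`: `F ↦ (z ↦ F (true z) + F (false z))` is linear, so it is enough to treat the generators
(`Submodule.span_induction`). `X^M ∣ F`: clear. `F z = X^j YR(z)^k`, `A k ≤ j`:
`YR (cons false z) = - YR (cons true z)` (`YR_neg`-type statement: both squares are
`1 + 4 X YR z` by `YR_sq`, the constant terms are opposite; or `Y_neg` of `Ppr/SerB.lean`).
`k` odd: the sum is `0`. `k = 2 i`: the sum is `2 X^j (1 + 4 X YR z)^i =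
∑_l 2 binom(i,l) 4^l X^(j+l) (YR z)^l`, and `(2A+1) l = 2 A l + l ≤ 2 A i + l ≤ j + l`.
`av_sum`: induction on `L` with the letter in front: `appF (Fin.cons c ξ) z = cons c (appF ξ z)`,
`(Fin.consEquiv _)` / `Fin.consEquiv` or `Fintype.sum_equiv` splits
`∑ ξ : Fin (L+1) → Bool, F (appF ξ z) = ∑ ξ : Fin L → Bool, (F (cons true (appF ξ z)) +
F (cons false (appF ξ z)))`: apply the induction hypothesis with the class parameter general:
statement for all `A`: the result is in `Av (2^L A + 2^L - 1) M`.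
`av_indep`: generators with `k ≥ 1` have `j ≥ A k ≥ M`, so they are divisible by `X^M`; for `k = 0`
the function is constant.
-/

namespace Pool.Agent.Ppr2

open PowerSeries Pool.Agent.Ppr

variable {A M : ℕ}

private theorem AvB_sh_cons (c : Bool) (z : ℕ → Bool) : sh (cons c z) = z := by
  funext k
  simp [sh, cons]

private theorem AvB_neg (z : ℕ → Bool) : YR (cons false z) = -YR (cons true z) := by
  have h1 : Y (cons false z) = -Y (cons true z) :=
    Y_neg (by simp [cons]) (by rw [AvB_sh_cons, AvB_sh_cons])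
  unfold YR
  rw [h1, map_neg]

private theorem AvB_sq (z : ℕ → Bool) : YR (cons true z) ^ 2 = 1 + 4 * X * YR z := by
  rw [YR_sq, AvB_sh_cons]

private noncomputable def AvB_T :
    ((ℕ → Bool) → PowerSeries ℝ) →ₗ[ℝ] ((ℕ → Bool) → PowerSeries ℝ) where
  toFun F := fun z => F (cons true z) + F (cons false z)
  map_add' F G := by
    funext z
    simp only [Pi.add_apply]
    ring
  map_smul' c F := by
    funext z
    simp only [Pi.smul_apply, smul_add, RingHom.id_apply]

private theorem AvB_gen {j k : ℕ} (h : A * k ≤ j) :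
    (fun z => X ^ j * YR (cons true z) ^ k + X ^ j * YR (cons false z) ^ k) ∈
      Av (2 * A + 1) M := by
  rcases Nat.even_or_odd k with hk | hk
  · obtain ⟨i, rfl⟩ := hk
    have h1 : (fun z => X ^ j * YR (cons true z) ^ (i + i) +
        X ^ j * YR (cons false z) ^ (i + i)) =
        ∑ l ∈ Finset.range (i + 1), (2 * 4 ^ l * (i.choose l : ℝ)) •
          (fun z : ℕ → Bool => X ^ (j + l) * YR z ^ l) := by
      funext z
      rw [Finset.sum_apply]
      have h2 : YR (cons false z) ^ (i + i) = YR (cons true z) ^ (i + i) := by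
        rw [AvB_neg, Even.neg_pow ⟨i, rfl⟩]
      have h3 : YR (cons true z) ^ (i + i) = (4 * X * YR z + 1) ^ i := by
        rw [← two_mul, pow_mul, AvB_sq, add_comm]
      rw [h2, h3, add_pow, ← two_mul, Finset.mul_sum, Finset.mul_sum]
      refine Finset.sum_congr rfl fun l _ => ?_
      rw [Pi.smul_apply, PowerSeries.smul_eq_C_mul, map_mul, map_mul, map_pow, map_natCast,
        map_ofNat, map_ofNat, one_pow]
      ring
    rw [h1]
    refine Submodule.sum_mem _ fun l hl => Submodule.smul_mem _ _ (Submodule.subset_span ?_)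
    left
    refine ⟨j + l, l, ?_, rfl⟩
    have h4 : l ≤ i := Nat.lt_succ_iff.1 (Finset.mem_range.1 hl)
    have h5 : A * l ≤ A * i := Nat.mul_le_mul_left _ h4
    nlinarith [h, h5]
  · have h1 : (fun z => X ^ j * YR (cons true z) ^ k + X ^ j * YR (cons false z) ^ k) = 0 := by
      funext z
      rw [AvB_neg, Odd.neg_pow hk, Pi.zero_apply]
      ring
    rw [h1]
    exact Submodule.zero_mem _

theorem av_avg {F : (ℕ → Bool) → PowerSeries ℝ} (hF : F ∈ Av A M) :
    (fun z => F (cons true z) + F (cons false z)) ∈ Av (2 * A + 1) M := by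
  have h1 : Av A M ≤ (Av (2 * A + 1) M).comap AvB_T := by
    unfold Av
    rw [Submodule.span_le]
    rintro G (⟨j, k, hjk, rfl⟩ | hG)
    · exact AvB_gen (M := M) hjk
    · refine Submodule.subset_span (Or.inr fun z => ?_)
      exact dvd_add (hG _) (hG _)
  exact h1 hF

theorem appF_cons {n : ℕ} (c : Bool) (ξ : Fin n → Bool) (z : ℕ → Bool) :
    appF (Fin.cons c ξ : Fin (n + 1) → Bool) z = cons c (appF ξ z) := by
  funext k
  cases k with
  | zero =>
    unfold appF cons
    rw [dif_pos (Nat.succ_pos n), if_pos rfl]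
    rfl
  | succ k =>
    unfold appF cons
    rw [if_neg (Nat.succ_ne_zero k), Nat.add_sub_cancel]
    show (if h : k + 1 < n + 1 then (Fin.cons c ξ : Fin (n + 1) → Bool) ⟨k + 1, h⟩ else
      z (k + 1 - (n + 1))) = if h : k < n then ξ ⟨k, h⟩ else z (k - n)
    by_cases h : k < n
    · rw [dif_pos h, dif_pos (Nat.succ_lt_succ h)]
      rfl
    · rw [dif_neg h, dif_neg (fun h' => h (Nat.lt_of_succ_lt_succ h')), Nat.add_sub_add_right]

private theorem AvB_split (L : ℕ) (F : (ℕ → Bool) → PowerSeries ℝ) (z : ℕ → Bool) :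
    ∑ ξ : Fin (L + 1) → Bool, F (appF ξ z) =
      ∑ ξ : Fin L → Bool, (F (cons true (appF ξ z)) + F (cons false (appF ξ z))) := by
  rw [← (Fin.consEquiv (fun _ : Fin (L + 1) => Bool)).sum_comp, Fintype.sum_prod_type,
    Fintype.sum_bool, ← Finset.sum_add_distrib]
  refine Finset.sum_congr rfl fun ξ _ => ?_
  rw [← appF_cons, ← appF_cons]
  rfl

theorem av_sum (L : ℕ) : ∀ {A : ℕ} {F : (ℕ → Bool) → PowerSeries ℝ}, F ∈ Av A M →
    (fun z => ∑ ξ : Fin L → Bool, F (appF ξ z)) ∈ Av (2 ^ L * A + (2 ^ L - 1)) M := by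
  induction L with
  | zero =>
    intro A F hF
    have h1 : (fun z => ∑ ξ : Fin 0 → Bool, F (appF ξ z)) = F := by
      funext z
      rw [Fintype.sum_unique]
      congr 1
    have h2 : 2 ^ 0 * A + (2 ^ 0 - 1) = A := by simp
    rw [h1, h2]
    exact hF
  | succ L ih =>
    intro A F hF
    have h1 : (fun z => ∑ ξ : Fin (L + 1) → Bool, F (appF ξ z)) =
        fun z => ∑ ξ : Fin L → Bool,
          (fun y => F (cons true y) + F (cons false y)) (appF ξ z) := by
      funext z
      exact AvB_split L F z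
    have h2 : 2 ^ (L + 1) * A + (2 ^ (L + 1) - 1) = 2 ^ L * (2 * A + 1) + (2 ^ L - 1) := by
      have h3 : 0 < 2 ^ L := Nat.two_pow_pos L
      have h4 : 2 ^ (L + 1) = 2 * 2 ^ L := by rw [pow_succ, mul_comm]
      have h5 : 2 ^ L * (2 * A + 1) = 2 * 2 ^ L * A + 2 ^ L := by ring
      rw [h4, h5]
      omega
    rw [h1, h2]
    exact ih (av_avg hF)

theorem av_indep {F : (ℕ → Bool) → PowerSeries ℝ} (hF : F ∈ Av A M) (hM : M ≤ A)
    (z z' : ℕ → Bool) : X ^ M ∣ F z - F z' := by
  unfold Av at hF
  induction hF using Submodule.span_induction with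
  | mem G hG =>
    rcases hG with ⟨j, k, hjk, rfl⟩ | hG
    · rcases Nat.eq_zero_or_pos k with rfl | hk
      · simp
      · have h1 : M ≤ j := hM.trans ((Nat.le_mul_of_pos_right A hk).trans hjk)
        exact dvd_sub (Dvd.dvd.mul_right (pow_dvd_pow X h1) _)
          (Dvd.dvd.mul_right (pow_dvd_pow X h1) _)
    · exact dvd_sub (hG z) (hG z')
  | zero => simp
  | add G H _ _ hG hH =>
    have h1 : (G + H) z - (G + H) z' = (G z - G z') + (H z - H z') := by
      simp only [Pi.add_apply]
      ring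
    rw [h1]
    exact dvd_add hG hH
  | smul c G _ hG =>
    have h1 : (c • G) z - (c • G) z' = PowerSeries.C c * (G z - G z') := by
      rw [Pi.smul_apply, Pi.smul_apply, ← smul_sub, PowerSeries.smul_eq_C_mul]
    rw [h1]
    exact Dvd.dvd.mul_left hG _

end Pool.Agent.Ppr2
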