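import Pool.Agent.Ppr2.Defs

/-!
# Dyadic averages: the class `Av A M`

`Av A M` = the span of the functions `z ↦ X^j (YR z)^k` with `A k ≤ j` and of the functions which
are divisible by `X^M`.
-/

namespace Pool.Agent.Ppr2

open PowerSeries Pool.Agent.Ppr

/-- the class of functions of a word -/
noncomputable def Av (A M : ℕ) : Submodule ℝ ((ℕ → Bool) → PowerSeries ℝ) :=
  Submodule.span ℝ ({F | ∃ j k : ℕ, A * k ≤ j ∧ F = fun z => X ^ j * YR z ^ k} ∪
    {F | ∀ z, X ^ M ∣ F z})

end Pool.Agent.Ppr2
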