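import Pool.Agent.Ppr.Defs

/-!
# Measures on the cube with vanishing moments

If `τ ≠ 0` and all moments of degree `≤ d` vanish then the support has at least `2^(d+1)` points.
Induction on `d` (and the number of coordinates where the support is not constant): `d = 0`: the
sum of `τ` is `0`, so at least two points. Step: the support has two points which differ at some
coordinate `i0`; `τ_± v = τ v (1 ± sg (v i0)) / 2` are both nonzero, with disjoint supports, and
all their moments of degree `≤ d - 1` vanish (multiply by `sg (v i0)`: the product over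
`P ∆ {i0}`), so `2^d + 2^d`.
-/

namespace Pool.Agent.Ppr2

open Pool.Agent.Ppr

open Classical in
private theorem cube_two {α : Type} [Fintype α] (τ : (α → Bool) → ℝ) (v0 : α → Bool)
    (h0 : τ v0 ≠ 0) (hs : ∑ v, τ v = 0) : ∃ v1, v1 ≠ v0 ∧ τ v1 ≠ 0 := by
  by_contra hcon
  push Not at hcon
  apply h0
  rw [← hs]
  symm
  apply Finset.sum_eq_single_of_mem v0 (Finset.mem_univ _)
  intro v _ hv
  exact hcon v hv

private theorem cube_sgsq (b : Bool) : (sg b : ℝ) * (sg b : ℝ) = 1 := by
  cases b <;> simp [sg]

private theorem cube_ite (b c : Bool) (t : ℝ) :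
    (if c = b then t else 0) = (1 / 2) * t + ((sg b : ℝ) / 2) * (t * (sg c : ℝ)) := by
  cases b <;> cases c <;> simp [sg] <;> ring

open Classical in
private theorem cube_mul {α : Type} (v : α → Bool) (i0 : α) (P : Finset α) :
    (sg (v i0) : ℝ) * ∏ i ∈ P, (sg (v i) : ℝ) =
      ∏ i ∈ (if i0 ∈ P then P.erase i0 else insert i0 P), (sg (v i) : ℝ) := by
  by_cases h : i0 ∈ P
  · rw [if_pos h, ← Finset.mul_prod_erase P (fun i => (sg (v i) : ℝ)) h, ← mul_assoc,
      cube_sgsq, one_mul]
  · rw [if_neg h, Finset.prod_insert h]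

open Classical in
private theorem cube_card {α : Type} (i0 : α) (P : Finset α) (d : ℕ) (hP : P.card ≤ d) :
    (if i0 ∈ P then P.erase i0 else insert i0 P).card ≤ d + 1 := by
  by_cases h : i0 ∈ P
  · rw [if_pos h]
    have := Finset.card_erase_le (s := P) (a := i0)
    omega
  · rw [if_neg h, Finset.card_insert_of_notMem h]
    omega

open Classical in
theorem cube {α : Type} [Fintype α] (d : ℕ) : ∀ (τ : (α → Bool) → ℝ), (∃ v, τ v ≠ 0) →
    (∀ P : Finset α, P.card ≤ d → ∑ v, τ v * ∏ i ∈ P, (sg (v i) : ℝ) = 0) →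
    2 ^ (d + 1) ≤ (Finset.univ.filter (fun v => τ v ≠ 0)).card := by
  induction d with
  | zero =>
    rintro τ ⟨v0, h0⟩ hm
    have hs : ∑ v, τ v = 0 := by
      have := hm ∅ (by simp)
      simpa using this
    obtain ⟨v1, h1, h2⟩ := cube_two τ v0 h0 hs
    have : 1 < (Finset.univ.filter (fun v => τ v ≠ 0)).card := by
      apply Finset.one_lt_card.mpr
      exact ⟨v1, by simp [h2], v0, by simp [h0], h1⟩
    calc 2 ^ (0 + 1) = 1 + 1 := by norm_num
      _ ≤ _ := this
  | succ d ih =>
    rintro τ ⟨v0, h0⟩ hm
    have hs : ∑ v, τ v = 0 := by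
      have := hm ∅ (by simp)
      simpa using this
    obtain ⟨v1, h1, h2⟩ := cube_two τ v0 h0 hs
    obtain ⟨i0, hi0⟩ : ∃ i0, v1 i0 ≠ v0 i0 := by
      by_contra hcon
      push Not at hcon
      exact h1 (funext hcon)
    have key : ∀ b : Bool, (∃ v, v i0 = b ∧ τ v ≠ 0) →
        2 ^ (d + 1) ≤ (Finset.univ.filter (fun v => (if v i0 = b then τ v else 0) ≠ 0)).card := by
      rintro b ⟨v, hv, hv0⟩
      apply ih (fun v => if v i0 = b then τ v else 0)
      · exact ⟨v, by simp only [hv, if_true]; exact hv0⟩
      · intro P hP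
        have e1 : ∀ v : α → Bool, (if v i0 = b then τ v else 0) * ∏ i ∈ P, (sg (v i) : ℝ) =
            (1 / 2) * (τ v * ∏ i ∈ P, (sg (v i) : ℝ)) + ((sg b : ℝ) / 2) * (τ v *
              ∏ i ∈ (if i0 ∈ P then P.erase i0 else insert i0 P), (sg (v i) : ℝ)) := by
          intro v
          rw [cube_ite, ← cube_mul]
          ring
        rw [Finset.sum_congr rfl (fun v _ => e1 v), Finset.sum_add_distrib, ← Finset.mul_sum,
          ← Finset.mul_sum, hm P (by omega), hm _ (cube_card i0 P d hP)]
        simp
    have hb : ∀ b : Bool, ∃ v, v i0 = b ∧ τ v ≠ 0 := by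
      intro b
      by_cases hb : v0 i0 = b
      · exact ⟨v0, hb, h0⟩
      · refine ⟨v1, ?_, h2⟩
        revert hb hi0
        cases v0 i0 <;> cases v1 i0 <;> cases b <;> simp
    have hT := key true (hb true)
    have hF := key false (hb false)
    have hdis : Disjoint (Finset.univ.filter (fun v => (if v i0 = true then τ v else 0) ≠ 0))
        (Finset.univ.filter (fun v => (if v i0 = false then τ v else 0) ≠ 0)) := by
      rw [Finset.disjoint_left]
      intro v hv hv'
      simp only [Finset.mem_filter, Finset.mem_univ, true_and] at hv hv'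
      cases hvi : v i0
      · rw [hvi] at hv
        simp at hv
      · rw [hvi] at hv'
        simp at hv'
    have hsub : (Finset.univ.filter (fun v => (if v i0 = true then τ v else 0) ≠ 0)) ∪
        (Finset.univ.filter (fun v => (if v i0 = false then τ v else 0) ≠ 0)) ⊆
        Finset.univ.filter (fun v => τ v ≠ 0) := by
      intro v hv
      simp only [Finset.mem_union, Finset.mem_filter, Finset.mem_univ, true_and] at hv ⊢
      intro h
      rcases hv with hv | hv
      · exact hv (by rw [h]; simp)
      · exact hv (by rw [h]; simp)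
    have hcard := Finset.card_le_card hsub
    rw [Finset.card_union_of_disjoint hdis] at hcard
    calc 2 ^ (d + 1 + 1) = 2 ^ (d + 1) + 2 ^ (d + 1) := by ring
      _ ≤ _ := by omega

end Pool.Agent.Ppr2
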