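import Pool.Agent.Ppr.Sep
import Pool.Agent.Ppr.Lin

/-!
# Second version: definitions

`nrmr r M`: the weighted `ℓ¹` norm `∑_{j<M} |f_j| r^j` with a free parameter `r`; `lamr` the
corresponding correlation. `cons c v`: the word `c v`. `app x z`: the word `x z` for a finite word
`x`. `appF ξ z`: the same for `ξ : Fin n → Bool`. `pos p z = x (σ^h z)` for the position
`p = (x, h)`. `nx p`: the next position (one shift). `Del`: the difference of the averages over
`ξ : Fin n → Bool` of the products of the image letters `φ (pos p (ξ u))` and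
`φ (pos p (ξ u'))`.
-/

namespace Pool.Agent.Ppr2

open PowerSeries Pool.Agent.Ppr

/-- weighted norm of the jets of order `< M` -/
noncomputable def nrmr (r : ℝ) (M : ℕ) (f : PowerSeries ℝ) : ℝ :=
  ∑ j ∈ Finset.range M, |PowerSeries.coeff j f| * r ^ j

/-- the correlation of `w0` with the jets of `w` in the norm `nrmr` -/
noncomputable def lamr {ι : Type} [Fintype ι] (r : ℝ) (σ : ι → ι) (w : ι → Bool) (M : ℕ)
    (w0 : ι → Bool) : ℝ := nrmr r M (eps σ w (lf w0))

/-- the word `c v` -/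
def cons (c : Bool) (v : ℕ → Bool) : ℕ → Bool := fun k => if k = 0 then c else v (k - 1)

/-- the word `x z` -/
def app : List Bool → (ℕ → Bool) → (ℕ → Bool)
  | [], z => z
  | c :: x, z => cons c (app x z)

/-- the word `ξ z` -/
def appF {n : ℕ} (ξ : Fin n → Bool) (z : ℕ → Bool) : ℕ → Bool :=
  fun k => if h : k < n then ξ ⟨k, h⟩ else z (k - n)

/-- the word at the position `(x, h)`: `x` followed by the `h`-th shift of `z` -/
def pos (p : List Bool × ℕ) (z : ℕ → Bool) : ℕ → Bool := app p.1 (sh^[p.2] z)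

/-- the next position -/
def nx : List Bool × ℕ → List Bool × ℕ
  | ([], h) => ([], h + 1)
  | (_ :: x, h) => (x, h)

/-- the image letter at the position `p` -/
def phi {m : ℕ} (ψ : (Fin m → Bool) → Bool) (p : List Bool × ℕ) (z : ℕ → Bool) : Bool :=
  img ψ (pos p z) 0

/-- the difference of the averages of the products of image letters -/
noncomputable def Del {m : ℕ} (ψ : (Fin m → Bool) → Bool) (n : ℕ) (P : Finset (List Bool × ℕ))
    (u u' : ℕ → Bool) : ℝ :=
  (1 / 2 ^ n) * ∑ ξ : Fin n → Bool, (∏ p ∈ P, (sg (phi ψ p (appF ξ u)) : ℝ) -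
    ∏ p ∈ P, (sg (phi ψ p (appF ξ u')) : ℝ))

/-- `G` is a separator of `w0` from `w'` of degree `g` and cost `κ` -/
def IsSepr {ι : Type} (r : ℝ) (σ : ι → ι) (M : ℕ) (w0 w' : ι → Bool) (g κ : ℕ)
    (G : MvPolynomial ι ℝ) : Prop :=
  G.IsHomogeneous g ∧ g ≤ κ ∧ X ^ M ∣ eps σ w' G ∧
    (∃ inv : PowerSeries ℝ, eps σ w0 G * inv = 1 ∧ nrmr r M inv ≤ 4 ^ κ) ∧
    ∀ w : ι → Bool, nrmr r M (eps σ w G) ≤ 5 ^ κ

end Pool.Agent.Ppr2
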