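import Pool.Agent.Ppr2.AvA2
import Pool.Agent.Ppr2.AvB

/-!
# The gap: products at fixed positions, averaged over `H + 1 + L` letters

`gap_prod`: split `ξ : Fin (H+1+L) → Bool` as `(ζ, ξ')`, `ζ : Fin (H+1) → Bool` the first letters
(`Fin.appendEquiv`, `Fin.append`): `appF ξ u = appF ζ (appF ξ' u)`. For fixed `ζ` and
`p = (x, h)`, `h ≤ H`: `pos p (appF ζ z) = app (x ++ [ζ h, …, ζ H]) z`, a nonempty word in front of
`z`; so `z ↦ ∏_{p ∈ P} YR (pos p (appF ζ z))` is in `Av 1 (2^L)` (`av_app`, `av_prod`). By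
`av_sum` its sum over `ξ' : Fin L → Bool` is in `Av (2^L + 2^L - 1) (2^L)`, and `av_indep`
(`2^L ≤ 2^L + 2^L - 1`) gives the divisibility for every `ζ`; sum over `ζ`.
-/

namespace Pool.Agent.Ppr2

open PowerSeries Pool.Agent.Ppr

private theorem Gap_sh_cons (c : Bool) (z : ℕ → Bool) : sh (cons c z) = z := by
  funext k
  simp [sh, cons]

private theorem Gap_app_append (x y : List Bool) (z : ℕ → Bool) :
    app x (app y z) = app (x ++ y) z := by
  induction x with
  | nil => rfl
  | cons c x ih =>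
    rw [List.cons_append]
    show cons c (app x (app y z)) = cons c (app (x ++ y) z)
    rw [ih]

private theorem Gap_sh_iter (z : ℕ → Bool) : ∀ (h : ℕ) (l : List Bool), h ≤ l.length →
    sh^[h] (app l z) = app (l.drop h) z := by
  intro h
  induction h with
  | zero =>
    intro l _
    rfl
  | succ h ih =>
    intro l hl
    cases l with
    | nil => simp at hl
    | cons c l =>
      rw [Function.iterate_succ_apply]
      have h1 : sh (app (c :: l) z) = app l z := Gap_sh_cons c (app l z)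
      rw [h1, ih l (by simpa using hl), List.drop_succ_cons]

private theorem Gap_appF (z : ℕ → Bool) : ∀ (n : ℕ) (ζ : Fin n → Bool),
    appF ζ z = app (List.ofFn ζ) z := by
  intro n
  induction n with
  | zero =>
    intro ζ
    funext k
    simp [appF, app]
  | succ n ih =>
    intro ζ
    rw [List.ofFn_succ]
    show appF ζ z = cons (ζ 0) (app (List.ofFn fun i => ζ i.succ) z)
    rw [← ih, ← appF_cons]
    congr 1
    exact (Fin.cons_self_tail ζ).symm

private theorem Gap_append {m n : ℕ} (ζ : Fin m → Bool) (ξ : Fin n → Bool) (z : ℕ → Bool) :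
    appF (Fin.append ζ ξ) z = appF ζ (appF ξ z) := by
  funext k
  unfold appF
  by_cases h1 : k < m
  · have h2 : k < m + n := by omega
    rw [dif_pos h1, dif_pos h2]
    exact Fin.append_left ζ ξ ⟨k, h1⟩
  · rw [dif_neg h1]
    by_cases h3 : k < m + n
    · have h4 : k - m < n := by omega
      rw [dif_pos h3, dif_pos h4]
      have h5 : (⟨k, h3⟩ : Fin (m + n)) = Fin.natAdd m ⟨k - m, h4⟩ := by
        ext
        simp only [Fin.val_natAdd]
        omega
      rw [h5]
      exact Fin.append_right ζ ξ ⟨k - m, h4⟩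
    · have h4 : ¬ k - m < n := by omega
      rw [dif_neg h3, dif_neg h4]
      congr 1
      omega

private theorem Gap_mem (H L : ℕ) (P : Finset (List Bool × ℕ)) (hP : ∀ p ∈ P, p.2 ≤ H)
    (ζ : Fin (H + 1) → Bool) :
    (fun z => ∏ p ∈ P, YR (pos p (appF ζ z))) ∈ Av 1 (2 ^ L) := by
  apply av_prod P (fun p z => YR (pos p (appF ζ z)))
  intro p hp
  have h1 : (fun z => YR (pos p (appF ζ z))) =
      fun z => YR (app (p.1 ++ (List.ofFn ζ).drop p.2) z) := by
    funext z
    unfold pos
    rw [Gap_appF, Gap_sh_iter z p.2 (List.ofFn ζ) (by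
      rw [List.length_ofFn]
      have := hP p hp
      omega), Gap_app_append]
  rw [h1]
  apply av_app
  intro h2
  have h3 := (List.append_eq_nil_iff.1 h2).2
  have h4 := congrArg List.length h3
  rw [List.length_drop, List.length_ofFn, List.length_nil] at h4
  have := hP p hp
  omega

theorem gap_prod (H L : ℕ) (P : Finset (List Bool × ℕ)) (hP : ∀ p ∈ P, p.2 ≤ H)
    (u u' : ℕ → Bool) :
    X ^ (2 ^ L) ∣ ∑ ξ : Fin (H + 1 + L) → Bool, (∏ p ∈ P, YR (pos p (appF ξ u)) -
      ∏ p ∈ P, YR (pos p (appF ξ u'))) := by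
  rw [← (Fin.appendEquiv (α := Bool) (H + 1) L).sum_comp, Fintype.sum_prod_type]
  refine Finset.dvd_sum fun ζ _ => ?_
  have h1 := av_indep (av_sum L (Gap_mem H L P hP ζ)) (by
    have := Nat.two_pow_pos L
    omega) u u'
  have h2 : ∑ ξ : Fin L → Bool,
      (∏ p ∈ P, YR (pos p (appF ((Fin.appendEquiv (α := Bool) (H + 1) L) (ζ, ξ)) u)) -
        ∏ p ∈ P, YR (pos p (appF ((Fin.appendEquiv (α := Bool) (H + 1) L) (ζ, ξ)) u'))) =
      (∑ ξ : Fin L → Bool, ∏ p ∈ P, YR (pos p (appF ζ (appF ξ u)))) -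
        ∑ ξ : Fin L → Bool, ∏ p ∈ P, YR (pos p (appF ζ (appF ξ u'))) := by
    rw [← Finset.sum_sub_distrib]
    refine Finset.sum_congr rfl fun ξ _ => ?_
    show (∏ p ∈ P, YR (pos p (appF (Fin.append ζ ξ) u)) -
      ∏ p ∈ P, YR (pos p (appF (Fin.append ζ ξ) u'))) = _
    simp only [Gap_append]
  rw [h2]
  exact h1

end Pool.Agent.Ppr2
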