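import Pool.Agent.Ppr2.Defs

/-!
# The optimal set of positions

`Del` of a finite set `P` with `Del ≠ 0`: the sum over `ξ` is an even integer (each term is a
difference of two signs), so `|Del| ≥ 2 / 2^L1` (`del_ge`). `|Del| ≤ 2` (`del_le`), and
`Del ∅ = 0`.
`exists_opt`: let `Adm` be the finite set of the positions `(x, h)` with `|x| ≤ m`, `h ≤ H`
(`List.finite_length_le`). Among all nonempty `P ⊆ Adm` and all `t, t'` (finite set:
`Finset.powerset`, `Finset.exists_max_image` on a product) maximise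
`W = |Del| / (2^|P| A^(h P))`, `h P = P.sup snd`. By `hne`: `W ≥ (2/2^L1) / 2^(L1+1) = 4^(-L1)`.
For the maximum: `|Del| = W 2^|P| A^(h P) ≥ 4^(-L1) 2^|P|`, so `|Del| ≥ 2 · 4^(-L1)` as `|P| ≥ 1`,
and `2^|P| ≤ 2 · 4^L1`, `|P| ≤ 2 L1 + 1`. Take `h = h P`. For `P'` with depths `≤ h + j`:
`P' = ∅`: `Del = 0`. All depths `≤ H`: `W(P') ≤ W(P)` and `A^(h P') ≤ A^(h + j)`. Otherwise
`H + 1 ≤ h + j`, `|Del P'| ≤ 2 ≤ 2^|P'|`, and
`A^j |Del P| = W 2^|P| A^(h+j) ≥ 4^(-L1) 2^|P| A^(H+1) ≥ 2^|P|`.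
-/

namespace Pool.Agent.Ppr2

open PowerSeries Pool.Agent.Ppr

/-- the word of a window, continued by `false` -/
def ext {m : ℕ} (t : Fin m → Bool) : ℕ → Bool := fun k => if h : k < m then t ⟨k, h⟩ else false

variable {m : ℕ} (ψ : (Fin m → Bool) → Bool)

private theorem prod_sg_Opt (P : Finset (List Bool × ℕ)) (f : List Bool × ℕ → Bool) :
    ∏ p ∈ P, sg (f p) = 1 ∨ ∏ p ∈ P, sg (f p) = -1 := by
  classical
  induction P using Finset.induction_on with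
  | empty => left; rw [Finset.prod_empty]
  | insert a s ha ih =>
    rw [Finset.prod_insert ha]
    cases f a <;> rcases ih with h | h <;> rw [h] <;> simp [sg]

/-- `Del` is an even integer divided by `2 ^ n` -/
private theorem int_Opt (n : ℕ) (P : Finset (List Bool × ℕ)) (u u' : ℕ → Bool) :
    ∃ k : ℤ, Del ψ n P u u' = (1 / 2 ^ n) * (2 * (k : ℝ)) ∧ |(k : ℝ)| ≤ 2 ^ n := by
  have h1 : ∀ ξ : Fin n → Bool, ∃ c : ℤ,
      (∏ p ∈ P, sg (phi ψ p (appF ξ u)) - ∏ p ∈ P, sg (phi ψ p (appF ξ u'))) = 2 * c ∧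
        |c| ≤ 1 := by
    intro ξ
    rcases prod_sg_Opt P fun p => phi ψ p (appF ξ u) with h | h <;>
    rcases prod_sg_Opt P fun p => phi ψ p (appF ξ u') with h' | h' <;> rw [h, h']
    · exact ⟨0, by norm_num, by norm_num⟩
    · exact ⟨1, by norm_num, by norm_num⟩
    · exact ⟨-1, by norm_num, by norm_num⟩
    · exact ⟨0, by norm_num, by norm_num⟩
  choose c hc hc1 using h1
  refine ⟨∑ ξ, c ξ, ?_, ?_⟩
  · unfold Del
    congr 1
    rw [Int.cast_sum, Finset.mul_sum]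
    refine Finset.sum_congr rfl fun ξ _ => ?_
    have h2 := hc ξ
    exact_mod_cast h2
  · have h2 : |∑ ξ, c ξ| ≤ (2 : ℤ) ^ n := by
      refine (Finset.abs_sum_le_sum_abs _ _).trans ?_
      refine (Finset.sum_le_sum fun ξ _ => hc1 ξ).trans ?_
      rw [Finset.sum_const, Finset.card_univ, Fintype.card_fun, Fintype.card_bool,
        Fintype.card_fin, nsmul_eq_mul, mul_one]
      push_cast
      exact le_rfl
    exact_mod_cast h2

theorem del_le (n : ℕ) (P : Finset (List Bool × ℕ)) (u u' : ℕ → Bool) :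
    |Del ψ n P u u'| ≤ 2 := by
  obtain ⟨k, hk, hk1⟩ := int_Opt ψ n P u u'
  have h2 : (0 : ℝ) < 2 ^ n := by positivity
  rw [hk, abs_mul, abs_mul, abs_of_pos (by positivity : (0 : ℝ) < 1 / 2 ^ n), abs_two]
  calc 1 / 2 ^ n * (2 * |(k : ℝ)|) ≤ 1 / 2 ^ n * (2 * 2 ^ n) := by gcongr
    _ = 2 := by field_simp

theorem del_empty (n : ℕ) (u u' : ℕ → Bool) : Del ψ n ∅ u u' = 0 := by
  unfold Del
  simp

theorem del_ge (n : ℕ) (P : Finset (List Bool × ℕ)) (u u' : ℕ → Bool)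
    (h : Del ψ n P u u' ≠ 0) : 2 / 2 ^ n ≤ |Del ψ n P u u'| := by
  obtain ⟨k, hk, hk1⟩ := int_Opt ψ n P u u'
  have hk0 : k ≠ 0 := by
    rintro rfl
    exact h (by rw [hk]; simp)
  have h1 : (1 : ℝ) ≤ |(k : ℝ)| := by exact_mod_cast Int.one_le_abs hk0
  rw [hk, abs_mul, abs_mul, abs_of_pos (by positivity : (0 : ℝ) < 1 / 2 ^ n), abs_two]
  calc (2 : ℝ) / 2 ^ n = 1 / 2 ^ n * (2 * 1) := by ring
    _ ≤ 1 / 2 ^ n * (2 * |(k : ℝ)|) := by gcongr

theorem exists_opt (H n : ℕ) (A : ℝ) (hA0 : 1 ≤ A) (hA : 4 ^ n ≤ A ^ (H + 1))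
    (hne : ∃ (P : Finset (List Bool × ℕ)) (t t' : Fin m → Bool),
      (∀ p ∈ P, p.1.length ≤ m ∧ p.2 = 0) ∧ P.card ≤ n + 1 ∧
      Del ψ n P (ext t) (ext t') ≠ 0) :
    ∃ (h : ℕ) (P : Finset (List Bool × ℕ)) (t t' : Fin m → Bool), h ≤ H ∧
      (∀ p ∈ P, p.1.length ≤ m ∧ p.2 ≤ h) ∧ P.Nonempty ∧ P.card ≤ 2 * n + 1 ∧
      2 * (1 / 4) ^ n ≤ |Del ψ n P (ext t) (ext t')| ∧
      ∀ (j : ℕ) (P' : Finset (List Bool × ℕ)),
        (∀ p ∈ P', p.1.length ≤ m ∧ p.2 ≤ h + j) →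
        |Del ψ n P' (ext t) (ext t')| * 2 ^ P.card ≤
          2 ^ P'.card * (A ^ j * |Del ψ n P (ext t) (ext t')|) := by
  classical
  have hfin : {p : List Bool × ℕ | p.1.length ≤ m ∧ p.2 ≤ H}.Finite := by
    refine ((List.finite_length_le Bool m).prod (Set.finite_Iic H)).subset ?_
    rintro ⟨x, h⟩ hp
    exact ⟨hp.1, hp.2⟩
  have hAp : ∀ k : ℕ, (1 : ℝ) ≤ A ^ k := fun k => one_le_pow₀ hA0
  have hA1 : (0 : ℝ) < A := by linarith
  obtain ⟨W, hW⟩ : ∃ W : Finset (List Bool × ℕ) × ((Fin m → Bool) × (Fin m → Bool)) → ℝ,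
      ∀ q, W q = |Del ψ n q.1 (ext q.2.1) (ext q.2.2)| / (2 ^ q.1.card * A ^ (q.1.sup Prod.snd)) :=
    ⟨_, fun _ => rfl⟩
  obtain ⟨P₁, t₁, t₁', hP₁, hc₁, hd₁⟩ := hne
  have hn₁ : P₁.Nonempty := by
    rw [Finset.nonempty_iff_ne_empty]
    rintro rfl
    exact hd₁ (del_empty ψ n _ _)
  obtain ⟨Z, hZ⟩ : ∃ Z : Finset (Finset (List Bool × ℕ) × ((Fin m → Bool) × (Fin m → Bool))),
      ∀ q, q ∈ Z ↔ q.1.Nonempty ∧ ∀ p ∈ q.1, p.1.length ≤ m ∧ p.2 ≤ H := by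
    refine ⟨(hfin.toFinset.powerset.filter Finset.Nonempty) ×ˢ Finset.univ, fun q => ?_⟩
    rw [Finset.mem_product, Finset.mem_filter, Finset.mem_powerset]
    constructor
    · rintro ⟨⟨h1, h2⟩, _⟩
      exact ⟨h2, fun p hp => hfin.mem_toFinset.1 (h1 hp)⟩
    · rintro ⟨h1, h2⟩
      exact ⟨⟨fun p hp => hfin.mem_toFinset.2 (h2 p hp), h1⟩, Finset.mem_univ _⟩
  have hZ₁ : (P₁, (t₁, t₁')) ∈ Z :=
    (hZ _).2 ⟨hn₁, fun p hp => ⟨(hP₁ p hp).1, by rw [(hP₁ p hp).2]; exact Nat.zero_le _⟩⟩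
  obtain ⟨⟨P, t, t'⟩, hq, hmax⟩ := Finset.exists_max_image Z W ⟨_, hZ₁⟩
  obtain ⟨hPn, hPa⟩ := (hZ _).1 hq
  simp only at hPn hPa
  obtain ⟨w, hw⟩ : ∃ w, w = W (P, t, t') := ⟨_, rfl⟩
  have hDel : |Del ψ n P (ext t) (ext t')| = w * (2 ^ P.card * A ^ (P.sup Prod.snd)) := by
    rw [hw, hW, div_mul_cancel₀]
    positivity
  have hw1 : (1 / 4 : ℝ) ^ n ≤ w := by
    rw [hw]
    refine le_trans ?_ (hmax _ hZ₁)
    rw [hW]
    have h1 : P₁.sup Prod.snd = 0 := by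
      refine Nat.le_zero.1 (Finset.sup_le fun p hp => ?_)
      rw [(hP₁ p hp).2]
    have h2 := del_ge ψ n P₁ (ext t₁) (ext t₁') hd₁
    simp only
    rw [h1, pow_zero, mul_one, le_div_iff₀ (by positivity)]
    have h3 : (2 : ℝ) ^ P₁.card ≤ 2 ^ (n + 1) := pow_le_pow_right₀ (by norm_num) hc₁
    calc (1 / 4 : ℝ) ^ n * 2 ^ P₁.card ≤ (1 / 4) ^ n * 2 ^ (n + 1) := by gcongr
      _ = 2 / 2 ^ n := by
        rw [show (1 / 4 : ℝ) = (1 / 2) * (1 / 2) by norm_num, mul_pow, pow_succ, one_div_pow]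
        field_simp
      _ ≤ _ := h2
  have hw0 : 0 < w := lt_of_lt_of_le (by positivity) hw1
  have hcard : 1 ≤ P.card := Finset.card_pos.2 hPn
  have hlow : (1 / 4 : ℝ) ^ n * 2 ^ P.card ≤ |Del ψ n P (ext t) (ext t')| := by
    rw [hDel]
    calc (1 / 4 : ℝ) ^ n * 2 ^ P.card ≤ w * 2 ^ P.card := by gcongr
      _ = w * (2 ^ P.card * 1) := by ring
      _ ≤ w * (2 ^ P.card * A ^ (P.sup Prod.snd)) := by
        have := hAp (P.sup Prod.snd)
        gcongr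
  refine ⟨P.sup Prod.snd, P, t, t', Finset.sup_le fun p hp => (hPa p hp).2,
    fun p hp => ⟨(hPa p hp).1, Finset.le_sup (f := Prod.snd) hp⟩, hPn, ?_, ?_, ?_⟩
  · by_contra hlt
    push Not at hlt
    have h1 : (2 : ℝ) ^ (2 * n + 2) ≤ 2 ^ P.card := pow_le_pow_right₀ (by norm_num) (by omega)
    have h2 := hlow.trans (del_le ψ n P (ext t) (ext t'))
    have h3 : (1 / 4 : ℝ) ^ n * 2 ^ (2 * n + 2) ≤ (1 / 4) ^ n * 2 ^ P.card := by gcongr
    have h4 : (1 / 4 : ℝ) ^ n * 2 ^ (2 * n + 2) = 4 := by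
      rw [pow_add, pow_mul, ← mul_assoc, ← mul_pow]
      norm_num
    linarith
  · refine le_trans ?_ hlow
    have h1 : (2 : ℝ) ^ 1 ≤ 2 ^ P.card := pow_le_pow_right₀ (by norm_num) hcard
    calc 2 * (1 / 4 : ℝ) ^ n = (1 / 4) ^ n * 2 ^ 1 := by ring
      _ ≤ _ := by gcongr
  · intro j P' hP'
    rcases P'.eq_empty_or_nonempty with hE | hN
    · rw [hE, del_empty, abs_zero, zero_mul]
      positivity
    have hkey : A ^ j * |Del ψ n P (ext t) (ext t')| =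
        w * (2 ^ P.card * A ^ (P.sup Prod.snd + j)) := by
      rw [hDel, pow_add]
      ring
    rw [hkey]
    by_cases hH : ∀ p ∈ P', p.2 ≤ H
    · have h1 : W (P', t, t') ≤ w := by
        rw [hw]
        exact hmax _ ((hZ _).2 ⟨hN, fun p hp => ⟨(hP' p hp).1, hH p hp⟩⟩)
      rw [hW, div_le_iff₀ (by positivity)] at h1
      simp only at h1
      have h2 : A ^ (P'.sup Prod.snd) ≤ A ^ (P.sup Prod.snd + j) :=
        pow_le_pow_right₀ hA0 (Finset.sup_le fun p hp => (hP' p hp).2)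
      calc |Del ψ n P' (ext t) (ext t')| * 2 ^ P.card
          ≤ (w * (2 ^ P'.card * A ^ (P'.sup Prod.snd))) * 2 ^ P.card := by gcongr
        _ ≤ (w * (2 ^ P'.card * A ^ (P.sup Prod.snd + j))) * 2 ^ P.card := by gcongr
        _ = _ := by ring
    · push Not at hH
      obtain ⟨p, hp, hpH⟩ := hH
      have h1 : H + 1 ≤ P.sup Prod.snd + j := le_trans hpH (hP' p hp).2
      have h2 : A ^ (H + 1) ≤ A ^ (P.sup Prod.snd + j) := pow_le_pow_right₀ hA0 h1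
      have h3 : (2 : ℝ) ^ 1 ≤ 2 ^ P'.card :=
        pow_le_pow_right₀ (by norm_num) (Finset.card_pos.2 hN)
      have h4 := del_le ψ n P' (ext t) (ext t')
      have h5 : 1 ≤ w * A ^ (P.sup Prod.snd + j) := by
        calc (1 : ℝ) = (1 / 4) ^ n * 4 ^ n := by rw [← mul_pow]; norm_num
          _ ≤ w * A ^ (P.sup Prod.snd + j) := by
            have h6 := hA.trans h2
            gcongr
      calc |Del ψ n P' (ext t) (ext t')| * 2 ^ P.card ≤ 2 ^ P'.card * 2 ^ P.card := by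
            have h6 : |Del ψ n P' (ext t) (ext t')| ≤ 2 ^ P'.card := by linarith
            gcongr
        _ = 2 ^ P'.card * (2 ^ P.card * 1) := by ring
        _ ≤ 2 ^ P'.card * (2 ^ P.card * (w * A ^ (P.sup Prod.snd + j))) := by gcongr
        _ = _ := by ring

end Pool.Agent.Ppr2
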