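import Pool.Agent.Ppr2.GapSepC
import Pool.Agent.Ppr2.Opt

/-!
# The separator from a test of small degree

`exists_opt` with `n = H + 1 + L` gives `h, P, t, t'`; `exists_pt`; `G1 pt n P (ext t) (ext t')`:
`G1_hom`, `G1_van` (`h ≤ H`), `G1_nrm`, `G1_unit` (`|P| ≤ 2 n + 1`, so
`r A (90 |P|) ≤ 1`). With `Δ = Del …`, `|Δ| ≥ 2 (1/4)^n`: `eps σ w0 G1` has an inverse of norm
`≤ 1/(|Δ| - |Δ|/10) ≤ 4^n` (`constr_ne_zero`, `exists_inv`, `nrmr_inv_le`).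
`G = G1^K`: degree `|P| K ≤ K (2n+1)`; `X^M ∣ X^(2^L K)`; inverse `inv^K` of norm
`≤ 4^(n K) ≤ 4^(K (2n+1))`; norm `≤ 5^(|P| K) ≤ 5^(K (2n+1))`.
-/

namespace Pool.Agent.Ppr2

open PowerSeries Pool.Agent.Ppr

variable {ι : Type} {σ : ι → ι} {w0 w' : ι → Bool} {m : ℕ} {ψ : (Fin m → Bool) → Bool}

theorem gap_sep {r A : ℝ} (hr : 0 < r) (hr2 : r ≤ 1 / 64) {M M2 : ℕ} (hM : 0 < M)
    (hM2 : M + m ≤ M2) (hfull : full σ w' M2)
    (hψ : ∀ i, w0 i = xor (w' i) (ψ fun l : Fin m => w' (σ^[l.1 + 1] i)))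
    (H L K : ℕ) (hL : 2 ^ L ≤ M2) (hK : M ≤ K * 2 ^ L) (hA0 : 1 ≤ A)
    (hA : 4 ^ (H + 1 + L) ≤ A ^ (H + 1)) (hrA : r * A * (90 * (2 * (H + 1 + L) + 1 : ℕ)) ≤ 1)
    (hne : ∃ (P : Finset (List Bool × ℕ)) (t t' : Fin m → Bool),
      (∀ p ∈ P, p.1.length ≤ m ∧ p.2 = 0) ∧ P.card ≤ H + 1 + L + 1 ∧
      Del ψ (H + 1 + L) P (ext t) (ext t') ≠ 0) :
    ∃ g G, IsSepr r σ M w0 w' g (K * (2 * (H + 1 + L) + 1)) G := by
  obtain ⟨n, hn⟩ : ∃ n, n = H + 1 + L := ⟨_, rfl⟩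
  rw [← hn] at hA hrA hne
  rw [← hn]
  obtain ⟨h, P, t, t', hh, hP, hPn, hPc, hlow, hbd⟩ := exists_opt ψ H n A hA0 hA hne
  obtain ⟨pt, hpt⟩ := exists_pt hfull
  obtain ⟨Δ, hΔ⟩ : ∃ Δ, Δ = Del ψ n P (ext t) (ext t') := ⟨_, rfl⟩
  rw [← hΔ] at hlow hbd
  obtain ⟨G, hG⟩ : ∃ G, G = G1 pt n P (ext t) (ext t') := ⟨_, rfl⟩
  have hcard : 1 ≤ P.card := Finset.card_pos.2 hPn
  have h4 : (0 : ℝ) < (1 / 4) ^ n := by positivity
  have hΔ0 : 0 < |Δ| := by linarith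
  have hhom : G.IsHomogeneous P.card := by
    rw [hG]
    exact G1_hom pt n P _ _
  have hvan : X ^ (2 ^ L) ∣ eps σ w' G := by
    rw [hG, hn]
    exact G1_van hpt hL P (fun p hp => (hP p hp).2.trans hh) _ _
  have hnrm : ∀ w : ι → Bool, nrmr r M (eps σ w G) ≤ 5 ^ P.card := by
    intro w
    rw [hG]
    exact G1_nrm hr.le hr2 pt n P hPn _ _ M w
  have hrA' : r * A * (90 * P.card) ≤ 1 := by
    refine le_trans ?_ hrA
    have h1 : (P.card : ℝ) ≤ ((2 * n + 1 : ℕ) : ℝ) := by exact_mod_cast hPc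
    have h2 : 0 ≤ r * A := mul_nonneg hr.le (by linarith)
    refine mul_le_mul_of_nonneg_left ?_ h2
    exact mul_le_mul_of_nonneg_left h1 (by norm_num)
  have hunit : nrmr r M (eps σ w0 G - C Δ) ≤ |Δ| / 10 := by
    rw [hG, hΔ]
    refine G1_unit hr.le hM2 hpt hψ n h P hPn hP _ _ (by linarith) hrA' ?_
    rw [← hΔ]
    exact hbd
  have hc : constantCoeff (eps σ w0 G) ≠ 0 :=
    constr_ne_zero hr.le hM hunit (by linarith)
  obtain ⟨inv, hinv⟩ := exists_inv hc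
  have hinvn : nrmr r M inv ≤ 4 ^ n := by
    refine (nrmr_inv_le hr.le hunit (by linarith) hinv).trans ?_
    rw [div_le_iff₀ (by linarith)]
    have h5 : (4 : ℝ) ^ n * (1 / 4) ^ n = 1 := by
      rw [← mul_pow]
      norm_num
    have h6 : (0 : ℝ) < 4 ^ n := by positivity
    have h7 : (4 : ℝ) ^ n * (2 * (1 / 4) ^ n) ≤ 4 ^ n * |Δ| :=
      mul_le_mul_of_nonneg_left hlow h6.le
    nlinarith
  refine ⟨P.card * K, G ^ K, hhom.pow K, ?_, ?_, ⟨inv ^ K, ?_, ?_⟩, ?_⟩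
  · rw [mul_comm K]
    exact Nat.mul_le_mul_right K hPc
  · rw [map_pow]
    have h1 : X ^ M ∣ (X ^ (2 ^ L) : PowerSeries ℝ) ^ K := by
      rw [← pow_mul]
      exact pow_dvd_pow _ (by rw [mul_comm]; exact hK)
    exact h1.trans (pow_dvd_pow_of_dvd hvan K)
  · rw [map_pow, ← mul_pow, hinv, one_pow]
  · refine (nrmr_pow_le hr.le M K inv).trans ?_
    calc nrmr r M inv ^ K ≤ (4 ^ n) ^ K := pow_le_pow_left₀ (nrmr_nonneg hr.le M inv) hinvn K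
      _ = 4 ^ (n * K) := by rw [← pow_mul]
      _ ≤ 4 ^ (K * (2 * n + 1)) := by
        refine pow_le_pow_right₀ (by norm_num) ?_
        rw [mul_comm n K]
        exact Nat.mul_le_mul_left K (by omega)
  · intro w
    rw [map_pow]
    refine (nrmr_pow_le hr.le M K _).trans ?_
    calc nrmr r M (eps σ w G) ^ K ≤ (5 ^ P.card) ^ K :=
          pow_le_pow_left₀ (nrmr_nonneg hr.le M _) (hnrm w) K
      _ = 5 ^ (P.card * K) := by rw [← pow_mul]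
      _ ≤ 5 ^ (K * (2 * n + 1)) := by
        refine pow_le_pow_right₀ (by norm_num) ?_
        rw [mul_comm K]
        exact Nat.mul_le_mul_right K hPc

end Pool.Agent.Ppr2
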