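import Pool.Agent.Ppr2.Defs

/-!
# The points with prescribed words

`sh_pos`, `img_pos`: `sh (cons c v) = v`, `sh^[k+1]`; `img ψ v (k+1) = img ψ (sh v) k`.
`exists_pt`: `hfull` for the window of `v`. `eps_pt'`: `ow σ w' (pt v)` and `v` agree below `M2`,
`YR_dvd_sub`, `eps σ w (X i) = YR (ow σ w i)`. `eps_pt0`: `ow σ w0 (pt v) k = img ψ v k` for `k < M`
(`hψ` at the point `σ^[k] (pt v)`, the letters `k, …, k+m < M2`).
-/

namespace Pool.Agent.Ppr2

open PowerSeries Pool.Agent.Ppr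

variable {ι : Type} {σ : ι → ι} {w0 w' : ι → Bool} {m : ℕ} {ψ : (Fin m → Bool) → Bool}

theorem sh_pos (p : List Bool × ℕ) (z : ℕ → Bool) : sh (pos p z) = pos (nx p) z := by
  obtain ⟨l, h⟩ := p
  cases l with
  | nil =>
    change sh (sh^[h] z) = sh^[h + 1] z
    exact (Function.iterate_succ_apply' sh h z).symm
  | cons c x =>
    change sh (cons c (app x (sh^[h] z))) = app x (sh^[h] z)
    funext k
    simp [sh, cons]

private theorem GapSepA_img_sh (v : ℕ → Bool) (k : ℕ) :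
    img ψ v (k + 1) = img ψ (sh v) k := by
  unfold img
  have h : (fun i : Fin m => v (k + 1 + 1 + i.1)) = fun i : Fin m => sh v (k + 1 + i.1) := by
    funext i
    unfold sh
    congr 1
    omega
  rw [h]
  rfl

theorem img_pos (p : List Bool × ℕ) (z : ℕ → Bool) (k : ℕ) :
    img ψ (pos p z) k = phi ψ (nx^[k] p) z := by
  induction k generalizing p with
  | zero => rfl
  | succ k ih =>
    rw [GapSepA_img_sh, sh_pos, ih (nx p), Function.iterate_succ_apply]

theorem exists_pt {M2 : ℕ} (hfull : full σ w' M2) :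
    ∃ pt : (ℕ → Bool) → ι, ∀ v, ∀ k < M2, w' (σ^[k] (pt v)) = v k := by
  choose f hf using hfull
  refine ⟨fun v => f (fun k => v k.1), fun v k hk => ?_⟩
  exact congrFun (hf (fun k => v k.1)) ⟨k, hk⟩

theorem eps_pt' {M2 : ℕ} {pt : (ℕ → Bool) → ι} (hpt : ∀ v, ∀ k < M2, w' (σ^[k] (pt v)) = v k)
    (v : ℕ → Bool) : X ^ M2 ∣ eps σ w' (MvPolynomial.X (pt v)) - YR v := by
  have h : eps σ w' (MvPolynomial.X (pt v)) = YR (ow σ w' (pt v)) := by
    unfold eps
    exact MvPolynomial.aeval_X _ _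
  rw [h]
  exact YR_dvd_sub fun k hk => hpt v k hk

theorem eps_pt0 {M M2 : ℕ} (hM2 : M + m ≤ M2) {pt : (ℕ → Bool) → ι}
    (hpt : ∀ v, ∀ k < M2, w' (σ^[k] (pt v)) = v k)
    (hψ : ∀ i, w0 i = xor (w' i) (ψ fun l : Fin m => w' (σ^[l.1 + 1] i)))
    (v : ℕ → Bool) :
    X ^ M ∣ eps σ w0 (MvPolynomial.X (pt v)) - YR (fun k => img ψ v k) := by
  have h : eps σ w0 (MvPolynomial.X (pt v)) = YR (ow σ w0 (pt v)) := by
    unfold eps
    exact MvPolynomial.aeval_X _ _
  rw [h]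
  refine YR_dvd_sub fun k hk => ?_
  change w0 (σ^[k] (pt v)) = xor (v k) (ψ fun i => v (k + 1 + i.1))
  rw [hψ, hpt v k (by omega)]
  have h2 : (fun l : Fin m => w' (σ^[l.1 + 1] (σ^[k] (pt v)))) =
      fun i : Fin m => v (k + 1 + i.1) := by
    funext l
    rw [← Function.iterate_add_apply, hpt v _ (by have := l.2; omega)]
    congr 1
    omega
  rw [h2]

end Pool.Agent.Ppr2
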