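import Pool.Agent.Ppr2.Defs

/-!
# The norm `nrmr r M f = ∑_{j<M} |f_j| r^j`, part C

The same proofs as in `Pool/Agent/Ppr/NrmA.lean` (there `r = 1/64`), for every `r ≥ 0`.
-/

namespace Pool.Agent.Ppr2

open PowerSeries Pool.Agent.Ppr

variable {r : ℝ}

theorem nrmr_nonneg (hr : 0 ≤ r) (M : ℕ) (f : PowerSeries ℝ) : 0 ≤ nrmr r M f :=
  Finset.sum_nonneg fun _ _ => by positivity

theorem nrmr_zero (r : ℝ) (M : ℕ) : nrmr r M 0 = 0 := by
  simp [nrmr]

theorem nrmr_neg (r : ℝ) (M : ℕ) (f : PowerSeries ℝ) : nrmr r M (-f) = nrmr r M f := by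
  simp [nrmr]

theorem nrmr_add_le (hr : 0 ≤ r) (M : ℕ) (f g : PowerSeries ℝ) :
    nrmr r M (f + g) ≤ nrmr r M f + nrmr r M g := by
  unfold nrmr
  rw [← Finset.sum_add_distrib]
  refine Finset.sum_le_sum fun j _ => ?_
  rw [map_add, ← add_mul]
  exact mul_le_mul_of_nonneg_right (abs_add_le _ _) (by positivity)

theorem nrmr_sub_le (hr : 0 ≤ r) (M : ℕ) (f g : PowerSeries ℝ) :
    nrmr r M (f - g) ≤ nrmr r M f + nrmr r M g := by
  rw [sub_eq_add_neg, ← nrmr_neg r M g]
  exact nrmr_add_le hr M f (-g)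

theorem nrmr_sum_le {α : Type} (hr : 0 ≤ r) (M : ℕ) (s : Finset α) (f : α → PowerSeries ℝ) :
    nrmr r M (∑ a ∈ s, f a) ≤ ∑ a ∈ s, nrmr r M (f a) := by
  classical
  induction s using Finset.induction_on with
  | empty => simp [nrmr_zero]
  | insert a s ha ih =>
    rw [Finset.sum_insert ha, Finset.sum_insert ha]
    exact (nrmr_add_le hr M _ _).trans (add_le_add le_rfl ih)

theorem nrmr_mul_le (hr : 0 ≤ r) (M : ℕ) (f g : PowerSeries ℝ) :
    nrmr r M (f * g) ≤ nrmr r M f * nrmr r M g := by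
  classical
  let F : ℕ × ℕ → ℝ := fun p => (|coeff p.1 f| * r ^ p.1) * (|coeff p.2 g| * r ^ p.2)
  have hF : ∀ p, 0 ≤ F p := fun p => by positivity
  have h1 : nrmr r M (f * g) ≤
      ∑ j ∈ Finset.range M, ∑ p ∈ Finset.HasAntidiagonal.antidiagonal j, F p := by
    refine Finset.sum_le_sum fun j _ => ?_
    rw [coeff_mul]
    calc |∑ p ∈ Finset.HasAntidiagonal.antidiagonal j, coeff p.1 f * coeff p.2 g| * r ^ j
        ≤ (∑ p ∈ Finset.HasAntidiagonal.antidiagonal j, |coeff p.1 f * coeff p.2 g|) * r ^ j :=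
          mul_le_mul_of_nonneg_right (Finset.abs_sum_le_sum_abs _ _) (by positivity)
      _ = ∑ p ∈ Finset.HasAntidiagonal.antidiagonal j, F p := by
          rw [Finset.sum_mul]
          refine Finset.sum_congr rfl fun p hp => ?_
          rw [Finset.HasAntidiagonal.mem_antidiagonal] at hp
          rw [← hp, pow_add, abs_mul]
          ring
  have h2 : ∑ j ∈ Finset.range M, ∑ p ∈ Finset.HasAntidiagonal.antidiagonal j, F p =
      ∑ p ∈ (Finset.range M ×ˢ Finset.range M).filter (fun p => p.1 + p.2 < M), F p := by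
    rw [← Finset.sum_fiberwise_of_maps_to (t := Finset.range M)
      (g := fun p : ℕ × ℕ => p.1 + p.2)]
    · refine Finset.sum_congr rfl fun j hj => Finset.sum_congr ?_ fun _ _ => rfl
      rw [Finset.mem_range] at hj
      ext p
      simp only [Finset.HasAntidiagonal.mem_antidiagonal, Finset.mem_filter, Finset.mem_product,
        Finset.mem_range]
      constructor
      · intro h; omega
      · intro h; exact h.2
    · intro p hp
      simp only [Finset.mem_filter] at hp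
      exact Finset.mem_range.mpr hp.2
  calc nrmr r M (f * g) ≤ _ := h1
    _ = _ := h2
    _ ≤ ∑ p ∈ Finset.range M ×ˢ Finset.range M, F p :=
        Finset.sum_le_sum_of_subset_of_nonneg (Finset.filter_subset _ _) fun p _ _ => hF p
    _ = nrmr r M f * nrmr r M g := by
        unfold nrmr
        rw [Finset.sum_mul_sum, Finset.sum_product]

theorem nrmr_C_le (r : ℝ) (M : ℕ) (a : ℝ) : nrmr r M (C a) ≤ |a| := by
  unfold nrmr
  have h : ∀ j ∈ Finset.range M, |coeff j (C a : PowerSeries ℝ)| * r ^ j =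
      if j = 0 then |a| else 0 := by
    intro j _
    rw [coeff_C]
    split_ifs with h
    · rw [h]; simp
    · simp
  rw [Finset.sum_congr rfl h, Finset.sum_ite_eq']
  split_ifs
  · exact le_rfl
  · exact abs_nonneg a

theorem nrmr_C_mul (r : ℝ) (M : ℕ) (a : ℝ) (f : PowerSeries ℝ) :
    nrmr r M (C a * f) = |a| * nrmr r M f := by
  unfold nrmr
  rw [Finset.mul_sum]
  refine Finset.sum_congr rfl fun j _ => ?_
  rw [coeff_C_mul, abs_mul, mul_assoc]

theorem nrmr_one_le (r : ℝ) (M : ℕ) : nrmr r M 1 ≤ 1 := by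
  have := nrmr_C_le r M 1
  rwa [map_one, abs_one] at this

theorem nrmr_X_pow_le (hr : 0 ≤ r) (M j : ℕ) : nrmr r M (X ^ j : PowerSeries ℝ) ≤ r ^ j := by
  unfold nrmr
  have h : ∀ k ∈ Finset.range M, |coeff k (X ^ j : PowerSeries ℝ)| * r ^ k =
      if k = j then r ^ j else 0 := by
    intro k _
    rw [coeff_X_pow]
    split_ifs with h
    · rw [h]; simp
    · simp
  rw [Finset.sum_congr rfl h, Finset.sum_ite_eq']
  split_ifs
  · exact le_rfl
  · positivity

theorem nrmr_pow_le (hr : 0 ≤ r) (M n : ℕ) (f : PowerSeries ℝ) :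
    nrmr r M (f ^ n) ≤ nrmr r M f ^ n := by
  induction n with
  | zero => simpa using nrmr_one_le r M
  | succ n ih =>
    rw [pow_succ, pow_succ]
    exact (nrmr_mul_le hr M _ _).trans (mul_le_mul_of_nonneg_right ih (nrmr_nonneg hr M f))

theorem nrmr_prod_le {α : Type} (hr : 0 ≤ r) (M : ℕ) (s : Finset α) (f : α → PowerSeries ℝ) :
    nrmr r M (∏ a ∈ s, f a) ≤ ∏ a ∈ s, nrmr r M (f a) := by
  classical
  induction s using Finset.induction_on with
  | empty => simpa using nrmr_one_le r M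
  | insert a s ha ih =>
    rw [Finset.prod_insert ha, Finset.prod_insert ha]
    exact (nrmr_mul_le hr M _ _).trans (mul_le_mul_of_nonneg_left ih (nrmr_nonneg hr M _))

theorem nrmr_congr {M : ℕ} {f g : PowerSeries ℝ} (h : X ^ M ∣ f - g) :
    nrmr r M f = nrmr r M g := by
  rw [X_pow_dvd_iff] at h
  refine Finset.sum_congr rfl fun j hj => ?_
  have := h j (Finset.mem_range.mp hj)
  rw [map_sub, sub_eq_zero] at this
  rw [this]

theorem nrmr_eq_zero {M : ℕ} {f : PowerSeries ℝ} (h : X ^ M ∣ f) : nrmr r M f = 0 := by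
  rw [nrmr_congr (g := 0) (by simpa using h), nrmr_zero]

theorem abs_const_ler {M : ℕ} (hr : 0 ≤ r) (hM : 0 < M) (f : PowerSeries ℝ) :
    |constantCoeff f| ≤ nrmr r M f := by
  have h : |coeff 0 f| * r ^ 0 ≤ nrmr r M f :=
    Finset.single_le_sum (f := fun j => |coeff j f| * r ^ j)
      (fun _ _ => by positivity) (Finset.mem_range.mpr hM)
  rwa [pow_zero, mul_one, coeff_zero_eq_constantCoeff_apply] at h

/-- the norm of an inverse -/
theorem nrmr_inv_le (hr : 0 ≤ r) {M : ℕ} {f g : PowerSeries ℝ} {a δ : ℝ}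
    (hδ : nrmr r M (f - C a) ≤ δ) (ha : δ < |a|) (hfg : f * g = 1) :
    nrmr r M g ≤ 1 / (|a| - δ) := by
  have h1 : C a * g = 1 - (f - C a) * g := by
    rw [sub_mul, hfg]; ring
  have h2 : |a| * nrmr r M g ≤ 1 + δ * nrmr r M g := by
    rw [← nrmr_C_mul, h1]
    refine (nrmr_sub_le hr M _ _).trans (add_le_add (nrmr_one_le r M) ?_)
    exact (nrmr_mul_le hr M _ _).trans (mul_le_mul_of_nonneg_right hδ (nrmr_nonneg hr M g))
  rw [le_div_iff₀ (by linarith)]
  linarith

theorem constr_ne_zero (hr : 0 ≤ r) {M : ℕ} (hM : 0 < M) {f : PowerSeries ℝ} {a δ : ℝ}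
    (hδ : nrmr r M (f - C a) ≤ δ) (ha : δ < |a|) : constantCoeff f ≠ 0 := by
  intro h
  have h1 := (abs_const_ler hr hM (f - C a)).trans hδ
  rw [map_sub, h, constantCoeff_C, zero_sub, abs_neg] at h1
  linarith

/-- comparison with `r = 1/64` -/
theorem nrmr_le_nrm (hr : 0 ≤ r) (hr2 : r ≤ 1 / 64) (M : ℕ) (f : PowerSeries ℝ) :
    nrmr r M f ≤ nrm M f := by
  refine Finset.sum_le_sum fun j _ => mul_le_mul_of_nonneg_left ?_ (abs_nonneg _)
  exact pow_le_pow_left₀ hr hr2 j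

theorem nrm_le_nrmr (hr : 0 < r) (hr2 : r ≤ 1 / 64) (M : ℕ) (f : PowerSeries ℝ) :
    nrm M f ≤ (1 / (64 * r)) ^ M * nrmr r M f := by
  unfold nrm nrmr
  rw [Finset.mul_sum]
  refine Finset.sum_le_sum fun j hj => ?_
  have h1 : (1 / 64 : ℝ) ^ j = (1 / (64 * r)) ^ j * r ^ j := by
    rw [← mul_pow]
    congr 1
    field_simp
  have h2 : (1 : ℝ) ≤ 1 / (64 * r) := by
    rw [le_div_iff₀ (by positivity)]
    linarith
  have h3 : (1 / (64 * r)) ^ j ≤ (1 / (64 * r)) ^ M :=
    pow_le_pow_right₀ h2 (Finset.mem_range.mp hj).le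
  rw [h1]
  calc |coeff j f| * ((1 / (64 * r)) ^ j * r ^ j) = (1 / (64 * r)) ^ j * (|coeff j f| * r ^ j) := by
        ring
    _ ≤ (1 / (64 * r)) ^ M * (|coeff j f| * r ^ j) :=
        mul_le_mul_of_nonneg_right h3 (by positivity)

/-- linear forms with a prescribed jet -/
theorem linformr (hr : 0 < r) (hr2 : r ≤ 1 / 64) {ι : Type} [Fintype ι] [DecidableEq ι]
    {σ : ι → ι} {M : ℕ} {w : ι → Bool} (hfull : full σ w M) (f : PowerSeries ℝ) :
    ∃ μ : ι → ℝ, X ^ M ∣ eps σ w (∑ i, MvPolynomial.C (μ i) * MvPolynomial.X i) - f ∧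
      ∑ i, |μ i| ≤ 2 * (2 / r) ^ M * nrmr r M f := by
  obtain ⟨μ, h1, h2⟩ := linform hfull f
  refine ⟨μ, h1, h2.trans ?_⟩
  have h3 := nrm_le_nrmr hr hr2 M f
  have h4 : (100 : ℝ) ^ M * (1 / (64 * r)) ^ M ≤ (2 / r) ^ M := by
    rw [← mul_pow]
    refine pow_le_pow_left₀ (by positivity) ?_ M
    rw [mul_one_div, div_le_div_iff₀ (by positivity) hr]
    nlinarith
  have h5 := nrmr_nonneg hr.le M f
  calc 2 * 100 ^ M * nrm M f ≤ 2 * 100 ^ M * ((1 / (64 * r)) ^ M * nrmr r M f) :=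
        mul_le_mul_of_nonneg_left h3 (by positivity)
    _ = 2 * (100 ^ M * (1 / (64 * r)) ^ M) * nrmr r M f := by ring
    _ ≤ 2 * (2 / r) ^ M * nrmr r M f := by
        refine mul_le_mul_of_nonneg_right ?_ h5
        linarith

end Pool.Agent.Ppr2
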