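import Pool.Agent.Ppr2.GapSepA
import Pool.Agent.Ppr2.Gap
import Pool.Agent.Ppr2.NrmC

/-!
# The averaged form: degree, vanishing at `w'`, norm at every word

`G1 = C (1/2^n) * ∑_ξ (∏_{p∈P} X (pt (pos p (appF ξ u))) - ∏ … u')`. `G1_hom`: sum of products of
`|P|` variables. `G1_van`: modulo `X^(2^L)` (`2^L ≤ M2`) every variable may be replaced by
`YR (pos p (appF ξ u))` (`eps_pt'`; products of congruent series are congruent, induction on the
finite set), then `gap_prod`. `G1_nrm`: each product has norm `≤ (31/30)^|P|` (`nrmr_prod_le`,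
`nrmr_le_nrm`, `nrm_YR_le`), the `2^n` differences `≤ 2 (31/30)^|P|` each, the factor `1/2^n`;
`2 (31/30)^g ≤ 5^g` for `g ≥ 1`.
-/

namespace Pool.Agent.Ppr2

open PowerSeries Pool.Agent.Ppr

variable {ι : Type} {σ : ι → ι} {w' : ι → Bool}

/-- the averaged form -/
noncomputable def G1 (pt : (ℕ → Bool) → ι) (n : ℕ) (P : Finset (List Bool × ℕ))
    (u u' : ℕ → Bool) : MvPolynomial ι ℝ :=
  MvPolynomial.C (1 / 2 ^ n) * ∑ ξ : Fin n → Bool,
    (∏ p ∈ P, MvPolynomial.X (pt (pos p (appF ξ u))) -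
      ∏ p ∈ P, MvPolynomial.X (pt (pos p (appF ξ u'))))

private theorem prod_hom_GapSepB (pt : (ℕ → Bool) → ι) (P : Finset (List Bool × ℕ))
    (z : ℕ → Bool) :
    (∏ p ∈ P, (MvPolynomial.X (pt (pos p z)) : MvPolynomial ι ℝ)).IsHomogeneous P.card := by
  have h := MvPolynomial.IsHomogeneous.prod P
    (fun p => (MvPolynomial.X (pt (pos p z)) : MvPolynomial ι ℝ)) (fun _ => 1)
    (fun p _ => MvPolynomial.isHomogeneous_X ℝ _)
  simpa using h

theorem G1_hom (pt : (ℕ → Bool) → ι) (n : ℕ) (P : Finset (List Bool × ℕ)) (u u' : ℕ → Bool) :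
    (G1 pt n P u u').IsHomogeneous P.card := by
  unfold G1
  have h2 : (∑ ξ : Fin n → Bool,
      (∏ p ∈ P, (MvPolynomial.X (pt (pos p (appF ξ u))) : MvPolynomial ι ℝ) -
        ∏ p ∈ P, MvPolynomial.X (pt (pos p (appF ξ u'))))).IsHomogeneous P.card :=
    MvPolynomial.IsHomogeneous.sum _ _ _ fun ξ _ =>
      (prod_hom_GapSepB pt P (appF ξ u)).sub (prod_hom_GapSepB pt P (appF ξ u'))
  have h3 := (MvPolynomial.isHomogeneous_C ι (1 / 2 ^ n : ℝ)).mul h2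
  rwa [zero_add] at h3

private theorem prod_dvd_GapSepB {α : Type} {a : PowerSeries ℝ} (s : Finset α)
    (f g : α → PowerSeries ℝ) (h : ∀ x ∈ s, a ∣ f x - g x) :
    a ∣ ∏ x ∈ s, f x - ∏ x ∈ s, g x := by
  have h1 : Ideal.Quotient.mk (Ideal.span {a}) (∏ x ∈ s, f x) =
      Ideal.Quotient.mk (Ideal.span {a}) (∏ x ∈ s, g x) := by
    rw [map_prod, map_prod]
    exact Finset.prod_congr rfl fun x hx =>
      Ideal.Quotient.eq.2 (Ideal.mem_span_singleton.2 (h x hx))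
  exact Ideal.mem_span_singleton.1 (Ideal.Quotient.eq.1 h1)

private theorem eps_G1_GapSepB (w : ι → Bool) (pt : (ℕ → Bool) → ι) (n : ℕ)
    (P : Finset (List Bool × ℕ)) (u u' : ℕ → Bool) :
    eps σ w (G1 pt n P u u') = C (1 / 2 ^ n : ℝ) * ∑ ξ : Fin n → Bool,
      (∏ p ∈ P, eps σ w (MvPolynomial.X (pt (pos p (appF ξ u)))) -
        ∏ p ∈ P, eps σ w (MvPolynomial.X (pt (pos p (appF ξ u'))))) := by
  unfold G1
  rw [map_mul, map_sum]
  congr 1
  · exact MvPolynomial.aeval_C _ _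
  · refine Finset.sum_congr rfl fun ξ _ => ?_
    rw [map_sub, map_prod, map_prod]

theorem G1_van {M2 H L : ℕ} {pt : (ℕ → Bool) → ι}
    (hpt : ∀ v, ∀ k < M2, w' (σ^[k] (pt v)) = v k) (hL : 2 ^ L ≤ M2)
    (P : Finset (List Bool × ℕ)) (hP : ∀ p ∈ P, p.2 ≤ H) (u u' : ℕ → Bool) :
    X ^ (2 ^ L) ∣ eps σ w' (G1 pt (H + 1 + L) P u u') := by
  rw [eps_G1_GapSepB]
  refine Dvd.dvd.mul_left ?_ _
  have hv : ∀ v, (X : PowerSeries ℝ) ^ (2 ^ L) ∣ eps σ w' (MvPolynomial.X (pt v)) - YR v :=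
    fun v => (pow_dvd_pow _ hL).trans (eps_pt' hpt v)
  have h1 : ∀ z : ℕ → Bool, (X : PowerSeries ℝ) ^ (2 ^ L) ∣
      ∏ p ∈ P, eps σ w' (MvPolynomial.X (pt (pos p z))) - ∏ p ∈ P, YR (pos p z) :=
    fun z => prod_dvd_GapSepB P _ _ fun p _ => hv _
  have h2 := gap_prod H L P hP u u'
  have h3 : (X : PowerSeries ℝ) ^ (2 ^ L) ∣ ∑ ξ : Fin (H + 1 + L) → Bool,
      ((∏ p ∈ P, eps σ w' (MvPolynomial.X (pt (pos p (appF ξ u)))) -
        ∏ p ∈ P, eps σ w' (MvPolynomial.X (pt (pos p (appF ξ u'))))) -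
      (∏ p ∈ P, YR (pos p (appF ξ u)) - ∏ p ∈ P, YR (pos p (appF ξ u')))) := by
    refine Finset.dvd_sum fun ξ _ => ?_
    have h4 := dvd_sub (h1 (appF ξ u)) (h1 (appF ξ u'))
    refine h4.trans (dvd_of_eq ?_)
    ring
  rw [Finset.sum_sub_distrib] at h3
  have h5 := dvd_add h3 h2
  rwa [sub_add_cancel] at h5

theorem G1_nrm {r : ℝ} (hr : 0 ≤ r) (hr2 : r ≤ 1 / 64) (pt : (ℕ → Bool) → ι) (n : ℕ)
    (P : Finset (List Bool × ℕ)) (hP : P.Nonempty) (u u' : ℕ → Bool) (M : ℕ) (w : ι → Bool) :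
    nrmr r M (eps σ w (G1 pt n P u u')) ≤ 5 ^ P.card := by
  have h0 : ∀ i : ι, nrmr r M (eps σ w (MvPolynomial.X i)) ≤ 31 / 30 := by
    intro i
    have h1 : eps σ w (MvPolynomial.X i) = YR (ow σ w i) := MvPolynomial.aeval_X _ _
    rw [h1]
    exact (nrmr_le_nrm hr hr2 M _).trans (nrm_YR_le M _)
  have h1 : ∀ z : ℕ → Bool,
      nrmr r M (∏ p ∈ P, eps σ w (MvPolynomial.X (pt (pos p z)))) ≤ (31 / 30) ^ P.card := by
    intro z
    refine (nrmr_prod_le hr M P _).trans ?_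
    refine (Finset.prod_le_prod (fun p _ => nrmr_nonneg hr M _) fun p _ => h0 _).trans ?_
    rw [Finset.prod_const]
  have h2 : nrmr r M (∑ ξ : Fin n → Bool,
      (∏ p ∈ P, eps σ w (MvPolynomial.X (pt (pos p (appF ξ u)))) -
        ∏ p ∈ P, eps σ w (MvPolynomial.X (pt (pos p (appF ξ u')))))) ≤
      2 ^ n * (2 * (31 / 30) ^ P.card) := by
    refine (nrmr_sum_le hr M _ _).trans ?_
    refine (Finset.sum_le_card_nsmul _ _ (2 * (31 / 30) ^ P.card) fun ξ _ => ?_).trans ?_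
    · refine (nrmr_sub_le hr M _ _).trans ?_
      have h3 := h1 (appF ξ u)
      have h4 := h1 (appF ξ u')
      linarith
    · rw [nsmul_eq_mul]
      simp
  have h5 : (0 : ℝ) < 2 ^ n := by positivity
  have h6 : 2 * (31 / 30 : ℝ) ^ P.card ≤ 5 ^ P.card := by
    obtain ⟨k, hk⟩ : ∃ k, P.card = k + 1 := ⟨P.card - 1, by
      have := hP.card_pos
      omega⟩
    rw [hk, pow_succ, pow_succ]
    have h7 : (31 / 30 : ℝ) ^ k ≤ 5 ^ k := pow_le_pow_left₀ (by norm_num) (by norm_num) k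
    have h8 : (0 : ℝ) ≤ (31 / 30) ^ k := by positivity
    nlinarith
  rw [eps_G1_GapSepB, nrmr_C_mul, abs_of_pos (by positivity)]
  calc 1 / 2 ^ n * nrmr r M (∑ ξ : Fin n → Bool,
      (∏ p ∈ P, eps σ w (MvPolynomial.X (pt (pos p (appF ξ u)))) -
        ∏ p ∈ P, eps σ w (MvPolynomial.X (pt (pos p (appF ξ u'))))))
      ≤ 1 / 2 ^ n * (2 ^ n * (2 * (31 / 30) ^ P.card)) :=
        mul_le_mul_of_nonneg_left h2 (by positivity)
    _ = 2 * (31 / 30) ^ P.card := by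
        rw [← mul_assoc, one_div, inv_mul_cancel₀ h5.ne', one_mul]
    _ ≤ 5 ^ P.card := h6

end Pool.Agent.Ppr2
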