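import Pool.Agent.Ppr2.GapSepB
import Pool.Agent.Ppr2.MajC

/-!
# The averaged form is almost constant at the cusp `w0`

`eps σ w0 (G1 …)` is congruent modulo `X^M` to
`∑_ω C (κ ω) * ∏_{p∈P} YR (fun k => ε (nx^[k] p) ω)`, `Ω = (Fin n → Bool) × Bool`,
`κ (ξ, true) = 1/2^n`, `κ (ξ, false) = -1/2^n`,
`ε p (ξ, true) = phi ψ p (appF ξ u)`, `ε p (ξ, false) = phi ψ p (appF ξ u')` (`eps_pt0`,
`img_pos`; `Fintype.sum_prod_type`, `Fintype.sum_bool`). `SW κ ε P' = Del ψ n P' u u'`. Apply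
`maj` with `nxt = nx`, `good p = (p.1.length ≤ m)`, `dep = Prod.snd`, `δ = |Del ψ n P u u'|`, and
`nrmr_congr`.
-/

namespace Pool.Agent.Ppr2

open PowerSeries Pool.Agent.Ppr

variable {ι : Type} {σ : ι → ι} {w0 w' : ι → Bool} {m : ℕ} {ψ : (Fin m → Bool) → Bool}

private theorem prod_congr_GapSepC {α : Type} (d : PowerSeries ℝ) (s : Finset α)
    (f g : α → PowerSeries ℝ) (h : ∀ a ∈ s, d ∣ f a - g a) :
    d ∣ ∏ a ∈ s, f a - ∏ a ∈ s, g a := by
  classical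
  induction s using Finset.induction_on with
  | empty => simp
  | insert a s ha ih =>
    rw [Finset.prod_insert ha, Finset.prod_insert ha]
    have h1 := h a (Finset.mem_insert_self a s)
    have h2 := ih fun b hb => h b (Finset.mem_insert_of_mem hb)
    have e : f a * ∏ b ∈ s, f b - g a * ∏ b ∈ s, g b =
        f a * (∏ b ∈ s, f b - ∏ b ∈ s, g b) + (f a - g a) * ∏ b ∈ s, g b := by ring
    rw [e]
    exact dvd_add (Dvd.dvd.mul_left h2 _) (Dvd.dvd.mul_right h1 _)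

private theorem sum_GapSepC {R : Type} [CommRing R] {n : ℕ} (a : R)
    (F : (Fin n → Bool) × Bool → R) :
    ∑ ω : (Fin n → Bool) × Bool, (if ω.2 then a else -a) * F ω =
      a * ∑ ξ : Fin n → Bool, (F (ξ, true) - F (ξ, false)) := by
  rw [Fintype.sum_prod_type, Finset.mul_sum]
  refine Finset.sum_congr rfl fun ξ _ => ?_
  rw [Fintype.sum_bool]
  simp only [if_true, Bool.false_eq_true, if_false]
  ring

theorem G1_unit {r A : ℝ} (hr : 0 ≤ r) {M M2 : ℕ} (hM2 : M + m ≤ M2) {pt : (ℕ → Bool) → ι}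
    (hpt : ∀ v, ∀ k < M2, w' (σ^[k] (pt v)) = v k)
    (hψ : ∀ i, w0 i = xor (w' i) (ψ fun l : Fin m => w' (σ^[l.1 + 1] i)))
    (n h : ℕ) (P : Finset (List Bool × ℕ)) (hne : P.Nonempty)
    (hP : ∀ p ∈ P, p.1.length ≤ m ∧ p.2 ≤ h) (u u' : ℕ → Bool) (hA : 0 ≤ A)
    (hrA : r * A * (90 * P.card) ≤ 1)
    (hbd : ∀ (j : ℕ) (P' : Finset (List Bool × ℕ)),
      (∀ p ∈ P', p.1.length ≤ m ∧ p.2 ≤ h + j) →
      |Del ψ n P' u u'| * 2 ^ P.card ≤ 2 ^ P'.card * (A ^ j * |Del ψ n P u u'|)) :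
    nrmr r M (eps σ w0 (G1 pt n P u u') - C (Del ψ n P u u')) ≤ |Del ψ n P u u'| / 10 := by
  classical
  let κ : (Fin n → Bool) × Bool → ℝ := fun ω => if ω.2 then 1 / 2 ^ n else -(1 / 2 ^ n)
  let ε : List Bool × ℕ → (Fin n → Bool) × Bool → Bool := fun p ω =>
    phi ψ p (appF ω.1 (if ω.2 then u else u'))
  have hSW : ∀ P' : Finset (List Bool × ℕ), SW κ ε P' = Del ψ n P' u u' := by
    intro P'
    have h1 := sum_GapSepC (n := n) (1 / 2 ^ n : ℝ)
      (fun ω => ∏ p ∈ P', (sg (ε p ω) : ℝ))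
    rw [SW, Del]
    exact h1
  have hmaj := maj (nxt := nx) (good := fun p : List Bool × ℕ => p.1.length ≤ m)
    (dep := Prod.snd) (ε := ε) (by
      rintro ⟨x, k⟩ hx
      cases x with
      | nil => exact hx
      | cons c x => exact (Nat.le_succ _).trans hx) (by
      rintro ⟨x, k⟩
      cases x with
      | nil => exact le_rfl
      | cons c x => exact Nat.le_succ _) κ P hne h hP hA (abs_nonneg (Del ψ n P u u')) hr hrA (by
      intro j P' hP'
      rw [hSW]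
      exact hbd j P' hP') M
  rw [hSW] at hmaj
  refine le_trans (le_of_eq ?_) hmaj
  refine nrmr_congr ?_
  have hkey : ∀ (p : List Bool × ℕ) (z : ℕ → Bool),
      X ^ M ∣ eps σ w0 (MvPolynomial.X (pt (pos p z))) - YR (fun k => phi ψ (nx^[k] p) z) := by
    intro p z
    have h1 := eps_pt0 hM2 hpt hψ (pos p z)
    have h2 : (fun k => img ψ (pos p z) k) = fun k => phi ψ (nx^[k] p) z :=
      funext fun k => img_pos p z k
    rwa [h2] at h1
  have hG : eps σ w0 (G1 pt n P u u') = C (1 / 2 ^ n) * ∑ ξ : Fin n → Bool,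
      (∏ p ∈ P, eps σ w0 (MvPolynomial.X (pt (pos p (appF ξ u)))) -
        ∏ p ∈ P, eps σ w0 (MvPolynomial.X (pt (pos p (appF ξ u'))))) := by
    rw [G1, map_mul, map_sum]
    congr 1
    · have := (eps σ w0).commutes (1 / 2 ^ n : ℝ)
      exact this
    · refine Finset.sum_congr rfl fun ξ _ => ?_
      rw [map_sub, map_prod, map_prod]
  have hS : (∑ ω : (Fin n → Bool) × Bool, C (κ ω) * ∏ p ∈ P, YR (fun k => ε (nx^[k] p) ω)) =
      C (1 / 2 ^ n) * ∑ ξ : Fin n → Bool,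
      (∏ p ∈ P, YR (fun k => phi ψ (nx^[k] p) (appF ξ u)) -
        ∏ p ∈ P, YR (fun k => phi ψ (nx^[k] p) (appF ξ u'))) := by
    have h1 := sum_GapSepC (n := n) (C (1 / 2 ^ n : ℝ) : PowerSeries ℝ)
      (fun ω => ∏ p ∈ P, YR (fun k => ε (nx^[k] p) ω))
    have h2 : ∀ ω : (Fin n → Bool) × Bool,
        (C (κ ω) : PowerSeries ℝ) = if ω.2 then C (1 / 2 ^ n : ℝ) else -C (1 / 2 ^ n : ℝ) := by
      rintro ⟨ξ, b⟩
      cases b
      · show (C (-(1 / 2 ^ n : ℝ)) : PowerSeries ℝ) = -C (1 / 2 ^ n : ℝ)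
        rw [map_neg]
      · rfl
    refine Eq.trans (Finset.sum_congr rfl fun ω _ => ?_) h1
    rw [h2]
  rw [hG, hS, sub_sub_sub_cancel_right, ← mul_sub, ← Finset.sum_sub_distrib]
  refine Dvd.dvd.mul_left (Finset.dvd_sum fun ξ _ => ?_) _
  have e : ∀ a b c d : PowerSeries ℝ, a - b - (c - d) = (a - c) - (b - d) := fun a b c d => by ring
  rw [e]
  exact dvd_sub (prod_congr_GapSepC _ _ _ _ fun p _ => hkey p _)
    (prod_congr_GapSepC _ _ _ _ fun p _ => hkey p _)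

end Pool.Agent.Ppr2
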