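import Pool.Agent.Ppr2.NrmC

/-!
# Independence of the jets, second version, part A: the test form

The proof of `test_form` in `Ppr/OntoA.lean` with the norm `nrmr r M` and the separators `IsSepr`.
`Str = {w ∈ Ws : w ≠ w0, lamr > η}`, `η = (r/100)^8`, `|Str| ≤ Q/η^2`. The sum of the costs over
`Str` is `Dt ≤ (Q/η^2) D ≤ M/12`; the degrees are at most the costs; `e = M/3 - 1 - (sum of the
degrees) ≥ M/3 - 1 - Dt`. `gf = (lf w0)^e ∏ G`, inverse of norm `≤ (30/29)^e 4^Dt`;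
`F` from `linformr` with `f = X^j gi`: `∑ |μ| ≤ 2 (2/r)^M r^j (30/29)^e 4^Dt`. For the other words:
`nrmr (eps σ w (F gf)) ≤ (31/30) 2 (2/r)^M r^j (30/29)^e 4^Dt lamr^e 5^Dt`. Numerics:
`(30/29)^e ≤ 2^M`, `4^Dt 5^Dt ≤ 20^(M/12) ≤ 2^M`, `Q ≤ 2^M/8`,
`η^(e-2) = (r/100)^(8(e-2)) ≤ (r/100)^(2M-30)`, `(16/r)^M (r/100)^(2M-30) ≤ 1`
(`(16/r) (r/100) ≤ 1`, `(r/100)^(M-30) ≤ 1`): total `≤ r^j (31/120) ≤ r^j/2`.
(`lamr` of `w0` itself: `nrmr (eps σ w0 (lf w0) - C 1) ≤ 1/30` from `lf_self`-type lemma of the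
first version and `nrmr_le_nrm`.)
-/

namespace Pool.Agent.Ppr2

open PowerSeries Pool.Agent.Ppr

/-- the threshold of the correlations -/
noncomputable def etar (r : ℝ) : ℝ := (r / 100) ^ 8

variable {ι : Type} [Fintype ι] [DecidableEq ι]

set_option linter.unusedSectionVars false

private theorem abs_sg_OB (b : Bool) : |((sg b : ℤ) : ℝ)| = 1 := by
  cases b <;> simp [sg]

private theorem eps_X_OB (σ : ι → ι) (w : ι → Bool) (i : ι) :
    eps σ w (MvPolynomial.X i) = YR (ow σ w i) := by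
  simp [eps]

private theorem eps_C_OB (σ : ι → ι) (w : ι → Bool) (a : ℝ) :
    eps σ w (MvPolynomial.C a) = C a := by
  rw [eps, MvPolynomial.aeval_C]
  rfl

private theorem lf_hom_OB (w0 : ι → Bool) : (lf w0).IsHomogeneous 1 := by
  unfold lf
  refine MvPolynomial.IsHomogeneous.sum _ _ _ fun i _ => ?_
  simpa using (MvPolynomial.isHomogeneous_C ι _).mul (MvPolynomial.isHomogeneous_X ℝ i)

private theorem lin_hom_OB (μ : ι → ℝ) :
    (∑ i, MvPolynomial.C (μ i) * MvPolynomial.X i : MvPolynomial ι ℝ).IsHomogeneous 1 := by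
  refine MvPolynomial.IsHomogeneous.sum _ _ _ fun i _ => ?_
  simpa using (MvPolynomial.isHomogeneous_C ι _).mul (MvPolynomial.isHomogeneous_X ℝ i)

private theorem lf_self_OB [Nonempty ι] (σ : ι → ι) (w0 : ι → Bool) (M : ℕ) :
    nrm M (eps σ w0 (lf w0) - C 1) ≤ 1 / 30 := by
  have hN : (0 : ℝ) < Fintype.card ι := by exact_mod_cast Fintype.card_pos
  have h1 : eps σ w0 (lf w0) - C 1 = ∑ i, C ((sg (w0 i) : ℝ) / (Fintype.card ι : ℝ)) *
      (YR (ow σ w0 i) - C ((sg (w0 i) : ℤ) : ℝ)) := by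
    have h2 : (C (1 : ℝ) : PowerSeries ℝ) = ∑ i : ι, C ((sg (w0 i) : ℝ) / (Fintype.card ι : ℝ)) *
        C ((sg (w0 i) : ℤ) : ℝ) := by
      have h3 : ∀ i : ι, C ((sg (w0 i) : ℝ) / (Fintype.card ι : ℝ)) *
          C ((sg (w0 i) : ℤ) : ℝ) = (C (1 / (Fintype.card ι : ℝ)) : PowerSeries ℝ) := by
        intro i
        rw [← map_mul]
        congr 1
        have : ((sg (w0 i) : ℤ) : ℝ) * ((sg (w0 i) : ℤ) : ℝ) = 1 := by
          cases w0 i <;> simp [sg]
        rw [div_mul_eq_mul_div, this]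
      rw [Finset.sum_congr rfl fun i _ => h3 i, Finset.sum_const, Finset.card_univ,
        nsmul_eq_mul, ← map_natCast (C (R := ℝ)), ← map_mul]
      congr 1
      field_simp
    rw [h2, lf, map_sum, ← Finset.sum_sub_distrib]
    refine Finset.sum_congr rfl fun i _ => ?_
    rw [map_mul, eps_X_OB, eps_C_OB, mul_sub]
  rw [h1]
  refine (nrm_sum_le M _ _).trans ?_
  have h4 : ∀ i ∈ (Finset.univ : Finset ι), nrm M (C ((sg (w0 i) : ℝ) / (Fintype.card ι : ℝ)) *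
      (YR (ow σ w0 i) - C ((sg (w0 i) : ℤ) : ℝ))) ≤ 1 / (Fintype.card ι : ℝ) * (1 / 30) := by
    intro i _
    rw [nrm_C_mul, abs_div, abs_sg_OB, abs_of_pos hN]
    refine mul_le_mul_of_nonneg_left ?_ (by positivity)
    have := nrm_YR_sub M (ow σ w0 i)
    exact this
  refine (Finset.sum_le_sum h4).trans (le_of_eq ?_)
  rw [Finset.sum_const, Finset.card_univ, nsmul_eq_mul]
  field_simp

private theorem nrm_lin_OB {r : ℝ} (hr : 0 ≤ r) (hr2 : r ≤ 1 / 64) (σ : ι → ι) (w : ι → Bool)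
    (M : ℕ) (μ : ι → ℝ) :
    nrmr r M (eps σ w (∑ i, MvPolynomial.C (μ i) * MvPolynomial.X i)) ≤
      31 / 30 * ∑ i, |μ i| := by
  rw [map_sum, Finset.mul_sum]
  refine (nrmr_sum_le hr M _ _).trans (Finset.sum_le_sum fun i _ => ?_)
  rw [map_mul, eps_X_OB, eps_C_OB, nrmr_C_mul, mul_comm]
  exact mul_le_mul_of_nonneg_right ((nrmr_le_nrm hr hr2 M _).trans (nrm_YR_le M _))
    (abs_nonneg _)

private theorem num_OB {r : ℝ} (hr : 0 < r) (hr2 : r ≤ 1 / 64) {M e D : ℕ} {Q : ℝ}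
    (hM : 240 ≤ M) (he : e ≤ M) (hD : D ≤ M / 12) (he2 : 2 * M ≤ 8 * (e - 2) + 30)
    (hQ0 : 0 ≤ Q) (hQM : 8 * Q ≤ 2 ^ M) :
    31 / 30 * (2 * (2 / r) ^ M * ((30 / 29) ^ e * 4 ^ D)) * 5 ^ D * (etar r ^ (e - 2) * Q) ≤
      1 / 2 := by
  have h1 : ((30 : ℝ) / 29) ^ e ≤ 2 ^ M :=
    (pow_le_pow_right₀ (by norm_num) he).trans
      (pow_le_pow_left₀ (by norm_num) (by norm_num) M)
  have h2 : (4 : ℝ) ^ D * 5 ^ D ≤ 2 ^ M := by
    rw [← mul_pow]
    norm_num
    calc (20 : ℝ) ^ D ≤ (2 ^ 12) ^ D := pow_le_pow_left₀ (by norm_num) (by norm_num) D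
      _ = 2 ^ (12 * D) := by rw [← pow_mul]
      _ ≤ 2 ^ M := pow_le_pow_right₀ (by norm_num) (by omega)
  have h3 : Q ≤ 2 ^ M / 8 := by linarith
  have hr1 : r / 100 ≤ 1 := by linarith
  have h4 : etar r ^ (e - 2) ≤ (r / 100) ^ (2 * M - 30) := by
    unfold etar
    rw [← pow_mul]
    exact pow_le_pow_of_le_one (by positivity) hr1 (by omega)
  have h7 : (16 / r) ^ M * (r / 100) ^ (2 * M - 30) ≤ 1 := by
    have h8 : 2 * M - 30 = M + (M - 30) := by omega
    rw [h8, pow_add, ← mul_assoc, ← mul_pow]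
    have h9 : 16 / r * (r / 100) = 4 / 25 := by field_simp; norm_num
    rw [h9]
    exact mul_le_one₀ (pow_le_one₀ (by norm_num) (by norm_num)) (by positivity)
      (pow_le_one₀ (by positivity) hr1)
  have he0 : 0 ≤ etar r ^ (e - 2) := by
    unfold etar; positivity
  calc 31 / 30 * (2 * (2 / r) ^ M * ((30 / 29) ^ e * 4 ^ D)) * 5 ^ D * (etar r ^ (e - 2) * Q)
      = 31 / 15 * (2 / r) ^ M * (30 / 29) ^ e * (4 ^ D * 5 ^ D) * (etar r ^ (e - 2) * Q) := by
        ring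
    _ ≤ 31 / 15 * (2 / r) ^ M * 2 ^ M * 2 ^ M *
        ((r / 100) ^ (2 * M - 30) * (2 ^ M / 8)) := by
        gcongr
    _ = 31 / 120 * ((16 / r) ^ M * (r / 100) ^ (2 * M - 30)) := by
        have : (16 / r) ^ M = (2 / r) ^ M * 2 ^ M * 2 ^ M * 2 ^ M := by
          rw [← mul_pow, ← mul_pow, ← mul_pow]
          congr 1
          ring
        rw [this]; ring
    _ ≤ 31 / 120 * 1 := mul_le_mul_of_nonneg_left h7 (by norm_num)
    _ ≤ 1 / 2 := by norm_num

theorem test_formr {r : ℝ} (hr : 0 < r) (hr2 : r ≤ 1 / 64) (σ : ι → ι)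
    (Ws : Finset (ι → Bool)) (M D : ℕ) (Q : ℝ) (hfull : ∀ w ∈ Ws, full σ w M)
    (hsep : ∀ w ∈ Ws, ∀ w' ∈ Ws, w ≠ w' → ∃ g κ G, κ ≤ D ∧ IsSepr r σ M w w' g κ G)
    (hQ : ∀ w0 ∈ Ws, ∑ w ∈ Ws, (lamr r σ w M w0) ^ 2 ≤ Q)
    (hq : Q / etar r ^ 2 * D ≤ M / 12) (hM : 240 ≤ M)
    (hQM : 8 * Q ≤ 2 ^ M) (w0 : ι → Bool) (hw0 : w0 ∈ Ws) (j : ℕ) :
    ∃ G : MvPolynomial ι ℝ, G.IsHomogeneous (M / 3) ∧ X ^ M ∣ eps σ w0 G - X ^ j ∧
      ∑ w ∈ Ws.erase w0, nrmr r M (eps σ w G) ≤ r ^ j / 2 := by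
  classical
  have heta : 0 < etar r := by unfold etar; positivity
  obtain ⟨i0, _⟩ := hfull w0 hw0 (fun _ => true)
  have : Nonempty ι := ⟨i0⟩
  have hQ0 : 0 ≤ Q := le_trans (Finset.sum_nonneg fun w _ => sq_nonneg _) (hQ w0 hw0)
  set Str : Finset (ι → Bool) := Ws.filter (fun w => w ≠ w0 ∧ etar r < lamr r σ w M w0) with hStr
  have hcard : (Str.card : ℝ) ≤ Q / etar r ^ 2 := by
    rw [le_div_iff₀ (by positivity)]
    calc (Str.card : ℝ) * etar r ^ 2 = ∑ w ∈ Str, etar r ^ 2 := by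
          rw [Finset.sum_const, nsmul_eq_mul]
      _ ≤ ∑ w ∈ Str, (lamr r σ w M w0) ^ 2 := by
          refine Finset.sum_le_sum fun w hw => ?_
          rw [hStr, Finset.mem_filter] at hw
          exact pow_le_pow_left₀ heta.le hw.2.2.le 2
      _ ≤ ∑ w ∈ Ws, (lamr r σ w M w0) ^ 2 :=
          Finset.sum_le_sum_of_subset_of_nonneg (Finset.filter_subset _ _)
            fun _ _ _ => sq_nonneg _
      _ ≤ Q := hQ w0 hw0
  have hsep2 : ∀ w : ι → Bool, ∃ g κ G, w ∈ Str → κ ≤ D ∧ IsSepr r σ M w0 w g κ G := by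
    intro w
    by_cases hw : w ∈ Str
    · have hw' := hw
      rw [hStr, Finset.mem_filter] at hw'
      obtain ⟨g, κ, G, h⟩ := hsep w0 hw0 w hw'.1 (Ne.symm hw'.2.1)
      exact ⟨g, κ, G, fun _ => h⟩
    · exact ⟨0, 0, 0, fun h => absurd h hw⟩
  choose g κ G hgG using hsep2
  set K : ℕ := ∑ w ∈ Str, κ w with hKdef
  set D1 : ℕ := ∑ w ∈ Str, g w with hD1
  have hDK : D1 ≤ K := Finset.sum_le_sum fun w hw => (hgG w hw).2.2.1
  have hK12 : K ≤ M / 12 := by
    have h1 : (K : ℝ) ≤ Str.card * D := by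
      rw [hKdef]
      push_cast
      calc ∑ w ∈ Str, (κ w : ℝ) ≤ ∑ w ∈ Str, (D : ℝ) := by
            refine Finset.sum_le_sum fun w hw => ?_
            exact_mod_cast (hgG w hw).1
        _ = Str.card * D := by
            rw [Finset.sum_const, nsmul_eq_mul]
    have h2 : (K : ℝ) ≤ M / 12 := by
      refine h1.trans (le_trans ?_ hq)
      exact mul_le_mul_of_nonneg_right hcard (by positivity)
    rw [Nat.le_div_iff_mul_le (by norm_num)]
    have h3 : (K : ℝ) * 12 ≤ M := by linarith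
    exact_mod_cast h3
  set e : ℕ := M / 3 - 1 - D1 with he
  have heM : e ≤ M := by omega
  have he2 : 2 * M ≤ 8 * (e - 2) + 30 := by omega
  have he3 : 2 ≤ e := by omega
  set gf : MvPolynomial ι ℝ := (lf w0) ^ e * ∏ w ∈ Str, G w with hgf
  have hgfhom : gf.IsHomogeneous (M / 3 - 1) := by
    have h1 := ((lf_hom_OB w0).pow e).mul
      (MvPolynomial.IsHomogeneous.prod Str G g fun w hw => (hgG w hw).2.1)
    have h2 : 1 * e + ∑ w ∈ Str, g w = M / 3 - 1 := by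
      rw [← hD1]; omega
    rwa [h2] at h1
  have hself : nrmr r M (eps σ w0 (lf w0) - C 1) ≤ 1 / 30 :=
    (nrmr_le_nrm hr.le hr2 M _).trans (lf_self_OB σ w0 M)
  obtain ⟨li, hli⟩ := exists_inv (f := eps σ w0 (lf w0))
    (constr_ne_zero hr.le (M := M) (by omega) hself (by norm_num))
  have hlin : nrmr r M li ≤ 30 / 29 := by
    refine (nrmr_inv_le hr.le hself (by norm_num) hli).trans ?_
    norm_num
  have hinv : ∀ w : ι → Bool, ∃ v : PowerSeries ℝ, w ∈ Str → eps σ w0 (G w) * v = 1 ∧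
      nrmr r M v ≤ 4 ^ κ w := by
    intro w
    by_cases hw : w ∈ Str
    · obtain ⟨v, hv⟩ := (hgG w hw).2.2.2.2.1
      exact ⟨v, fun _ => hv⟩
    · exact ⟨0, fun h => absurd h hw⟩
  choose v hv using hinv
  set gi : PowerSeries ℝ := li ^ e * ∏ w ∈ Str, v w with hgi
  have hgigf : eps σ w0 gf * gi = 1 := by
    rw [hgf, hgi, map_mul, map_pow, map_prod]
    have h1 : (∏ w ∈ Str, eps σ w0 (G w)) * ∏ w ∈ Str, v w = 1 := by
      rw [← Finset.prod_mul_distrib]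
      exact Finset.prod_eq_one fun w hw => (hv w hw).1
    calc eps σ w0 (lf w0) ^ e * (∏ w ∈ Str, eps σ w0 (G w)) * (li ^ e * ∏ w ∈ Str, v w)
        = (eps σ w0 (lf w0) * li) ^ e * ((∏ w ∈ Str, eps σ w0 (G w)) * ∏ w ∈ Str, v w) := by
          rw [mul_pow]; ring
      _ = 1 := by rw [hli, h1, one_pow, one_mul]
  have hgin : nrmr r M gi ≤ (30 / 29) ^ e * 4 ^ K := by
    rw [hgi]
    refine (nrmr_mul_le hr.le M _ _).trans ?_
    have h1 : nrmr r M (li ^ e) ≤ (30 / 29) ^ e :=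
      (nrmr_pow_le hr.le M e li).trans (pow_le_pow_left₀ (nrmr_nonneg hr.le M li) hlin e)
    have h2 : nrmr r M (∏ w ∈ Str, v w) ≤ 4 ^ K := by
      refine (nrmr_prod_le hr.le M Str v).trans ?_
      rw [hKdef, ← Finset.prod_pow_eq_pow_sum]
      exact Finset.prod_le_prod (fun w _ => nrmr_nonneg hr.le M _) fun w hw => (hv w hw).2
    exact mul_le_mul h1 h2 (nrmr_nonneg hr.le M _) (by positivity)
  obtain ⟨μ, hμ, hμs⟩ := linformr hr hr2 (σ := σ) (M := M) (w := w0) (hfull w0 hw0) (X ^ j * gi)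
  set F : MvPolynomial ι ℝ := ∑ i, MvPolynomial.C (μ i) * MvPolynomial.X i with hF
  have hμs2 : ∑ i, |μ i| ≤ 2 * (2 / r) ^ M * (r ^ j * ((30 / 29) ^ e * 4 ^ K)) := by
    refine hμs.trans (mul_le_mul_of_nonneg_left ?_ (by positivity))
    refine (nrmr_mul_le hr.le M _ _).trans ?_
    exact mul_le_mul (nrmr_X_pow_le hr.le M j) hgin (nrmr_nonneg hr.le M _) (by positivity)
  refine ⟨F * gf, ?_, ?_, ?_⟩
  · have h1 := (lin_hom_OB μ).mul hgfhom
    have h2 : 1 + (M / 3 - 1) = M / 3 := by omega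
    rwa [h2] at h1
  · rw [map_mul]
    have h1 : eps σ w0 F * eps σ w0 gf - X ^ j =
        (eps σ w0 F - X ^ j * gi) * eps σ w0 gf + X ^ j * (eps σ w0 gf * gi - 1) := by ring
    rw [h1, hgigf, sub_self, mul_zero, add_zero]
    exact Dvd.dvd.mul_right hμ _
  · have hbound : ∀ w ∈ Ws.erase w0, nrmr r M (eps σ w (F * gf)) ≤
        31 / 30 * (2 * (2 / r) ^ M * (r ^ j * ((30 / 29) ^ e * 4 ^ K))) * 5 ^ K *
          (etar r ^ (e - 2) * (lamr r σ w M w0) ^ 2) := by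
      intro w hw
      rw [Finset.mem_erase] at hw
      by_cases hs : w ∈ Str
      · have h0 : nrmr r M (eps σ w (F * gf)) = 0 := by
          apply nrmr_eq_zero
          rw [map_mul, hgf, map_mul, map_prod]
          refine Dvd.dvd.mul_left (Dvd.dvd.mul_left ?_ _) _
          exact (hgG w hs).2.2.2.1.trans (Finset.dvd_prod_of_mem _ hs)
        rw [h0]
        positivity
      · have hle : lamr r σ w M w0 ≤ etar r := by
          by_contra hcon
          exact hs (by rw [hStr, Finset.mem_filter]; exact ⟨hw.2, hw.1, not_le.1 hcon⟩)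
        have hl0 : 0 ≤ lamr r σ w M w0 := nrmr_nonneg hr.le M _
        have h1 : nrmr r M (eps σ w F) ≤
            31 / 30 * (2 * (2 / r) ^ M * (r ^ j * ((30 / 29) ^ e * 4 ^ K))) :=
          (nrm_lin_OB hr.le hr2 σ w M μ).trans (mul_le_mul_of_nonneg_left hμs2 (by norm_num))
        have h2 : nrmr r M (∏ x ∈ Str, eps σ w (G x)) ≤ 5 ^ K := by
          refine (nrmr_prod_le hr.le M Str _).trans ?_
          rw [hKdef, ← Finset.prod_pow_eq_pow_sum]
          exact Finset.prod_le_prod (fun x _ => nrmr_nonneg hr.le M _)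
            fun x hx => (hgG x hx).2.2.2.2.2 w
        have h3 : nrmr r M ((eps σ w (lf w0)) ^ e) ≤
            etar r ^ (e - 2) * (lamr r σ w M w0) ^ 2 := by
          refine (nrmr_pow_le hr.le M e _).trans ?_
          have h4 : nrmr r M (eps σ w (lf w0)) ^ e =
              (lamr r σ w M w0) ^ (e - 2) * (lamr r σ w M w0) ^ 2 := by
            rw [← pow_add, Nat.sub_add_cancel he3]
            rfl
          rw [h4]
          exact mul_le_mul_of_nonneg_right (pow_le_pow_left₀ hl0 hle _) (sq_nonneg _)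
        rw [map_mul, hgf, map_mul, map_pow, map_prod]
        calc nrmr r M (eps σ w F * (eps σ w (lf w0) ^ e * ∏ x ∈ Str, eps σ w (G x)))
            ≤ nrmr r M (eps σ w F) * (nrmr r M (eps σ w (lf w0) ^ e) *
                nrmr r M (∏ x ∈ Str, eps σ w (G x))) :=
              (nrmr_mul_le hr.le M _ _).trans (mul_le_mul_of_nonneg_left
                (nrmr_mul_le hr.le M _ _) (nrmr_nonneg hr.le M _))
          _ ≤ (31 / 30 * (2 * (2 / r) ^ M * (r ^ j * ((30 / 29) ^ e * 4 ^ K)))) *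
                ((etar r ^ (e - 2) * (lamr r σ w M w0) ^ 2) * 5 ^ K) := by
              refine mul_le_mul h1 (mul_le_mul h3 h2 (nrmr_nonneg hr.le M _) (by positivity))
                (mul_nonneg (nrmr_nonneg hr.le M _) (nrmr_nonneg hr.le M _)) (by positivity)
          _ = _ := by ring
    refine (Finset.sum_le_sum hbound).trans ?_
    rw [← Finset.mul_sum, ← Finset.mul_sum]
    have hsum : ∑ w ∈ Ws.erase w0, (lamr r σ w M w0) ^ 2 ≤ Q :=
      (Finset.sum_le_sum_of_subset_of_nonneg (Finset.erase_subset _ _)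
        fun _ _ _ => sq_nonneg _).trans (hQ w0 hw0)
    calc 31 / 30 * (2 * (2 / r) ^ M * (r ^ j * ((30 / 29) ^ e * 4 ^ K))) * 5 ^ K *
          (etar r ^ (e - 2) * ∑ w ∈ Ws.erase w0, (lamr r σ w M w0) ^ 2)
        ≤ 31 / 30 * (2 * (2 / r) ^ M * (r ^ j * ((30 / 29) ^ e * 4 ^ K))) * 5 ^ K *
          (etar r ^ (e - 2) * Q) := by
          refine mul_le_mul_of_nonneg_left ?_ (by positivity)
          exact mul_le_mul_of_nonneg_left hsum (by positivity)
      _ = r ^ j * (31 / 30 * (2 * (2 / r) ^ M * ((30 / 29) ^ e * 4 ^ K)) * 5 ^ K *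
          (etar r ^ (e - 2) * Q)) := by ring
      _ ≤ r ^ j * (1 / 2) := by
          refine mul_le_mul_of_nonneg_left ?_ (by positivity)
          exact num_OB hr hr2 hM heM hK12 he2 hQ0 hQM
      _ = r ^ j / 2 := by ring

end Pool.Agent.Ppr2
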