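import Pool.Agent.Ppr2.StSeq

/-!
# Fixed points and collisions

`col_of_fix`: `seq_fix` for `q`, `q'` gives sequences of states with `b = bz z`, `st_lift` words
`u, u'` with the image `bz z`; they are periodic by the formula for `u k` and `bz_period`, and
different since the states at the place `0` are.

`fix_unique`: two fixed points give a collision by `col_of_fix`. Existence: on the finite set of
functions `Fin l → Bool`, `l = z.length`, let `Φ x j = img ψ (fun k => x (k % l)) j`
(`fun k => x ⟨k % l, _⟩`). The image of an `l`-periodic word is `l`-periodic. `Φ` is injective: if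
`Φ x = Φ x'` then the periodic words `u, u'` of `x, x'` have the same image, so `u = u'` by `hno`
and `x = x'`. So `Φ` is surjective (`Finite.injective_iff_surjective`), there is an `l`-periodic
`u` with `img ψ u = bz z`. The states `q k` of its windows satisfy `q k = fb ψ res (bz z k)
(q (k + 1))` (`res_seq`) and are `l`-periodic; `Fw_wd` with `k = 0`, `L = l` and `wd_bz`:
`Fw (fb ψ res) z (q l) = q 0 = q l`.
-/

namespace Pool.Agent.Ppr2

open Pool.Agent.Ppr

theorem col_of_fix {m : ℕ} (ψ : (Fin m → Bool) → Bool) {R : Type} (res : (Fin m → Bool) → R)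
    (h1 : ∀ X X', res X = res X' → ψ X = ψ X')
    (h2 : ∀ c X X', res X = res X' → res (cw c X) = res (cw c X'))
    (z : List Bool) (hz : 1 ≤ z.length) (q q' : R) (hne : q ≠ q')
    (hq : Fw (fb ψ res) z q = q) (hq' : Fw (fb ψ res) z q' = q') :
    ∃ u u' : ℕ → Bool, (∀ k, u (k + z.length) = u k) ∧ (∀ k, u' (k + z.length) = u' k) ∧
      u ≠ u' ∧ ∀ k, img ψ u k = img ψ u' k := by
  obtain ⟨s, hs0, hs1, hs2⟩ := seq_fix (fb ψ res) z hz q hq
  obtain ⟨s', hs0', hs1', hs2'⟩ := seq_fix (fb ψ res) z hz q' hq'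
  obtain ⟨u, hu1, hu2, hu3⟩ := st_lift ψ res h1 h2 (bz z) s hs1
  obtain ⟨u', hu1', hu2', hu3'⟩ := st_lift ψ res h1 h2 (bz z) s' hs1'
  refine ⟨u, u', fun k => ?_, fun k => ?_, fun he => hne ?_, fun k => ?_⟩
  · rw [hu1, hu1 k, bz_period, show k + z.length + 1 = k + 1 + z.length by omega, hs2]
  · rw [hu1', hu1' k, bz_period, show k + z.length + 1 = k + 1 + z.length by omega, hs2']
  · rw [← hs0, ← hs0', ← hu2, ← hu2', he]
  · rw [hu3, hu3']

private theorem StFix_img_period {m : ℕ} (ψ : (Fin m → Bool) → Bool) (l : ℕ) (u : ℕ → Bool)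
    (hu : ∀ k, u (k + l) = u k) (k : ℕ) : img ψ u (k + l) = img ψ u k := by
  unfold img
  rw [hu]
  congr 2
  funext i
  rw [show k + l + 1 + i.1 = (k + 1 + i.1) + l by omega, hu]

private theorem StFix_mod {l : ℕ} (b : ℕ → Bool) (hb : ∀ k, b (k + l) = b k) (k : ℕ) :
    b (k % l) = b k := by
  have h : Function.Periodic b l := hb
  exact h.map_mod_nat k

theorem fix_unique {m : ℕ} (ψ : (Fin m → Bool) → Bool) {R : Type} (res : (Fin m → Bool) → R)
    (h1 : ∀ X X', res X = res X' → ψ X = ψ X')
    (h2 : ∀ c X X', res X = res X' → res (cw c X) = res (cw c X'))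
    (z : List Bool) (hz : 1 ≤ z.length)
    (hno : ¬ ∃ u u' : ℕ → Bool, (∀ k, u (k + z.length) = u k) ∧
      (∀ k, u' (k + z.length) = u' k) ∧ u ≠ u' ∧ ∀ k, img ψ u k = img ψ u' k) :
    ∃! q, Fw (fb ψ res) z q = q := by
  have hl : 0 < z.length := hz
  let per : (Fin z.length → Bool) → ℕ → Bool := fun x k => x ⟨k % z.length, Nat.mod_lt _ hl⟩
  have hper : ∀ x k, per x (k + z.length) = per x k := by
    intro x k
    show x ⟨(k + z.length) % z.length, _⟩ = x ⟨k % z.length, _⟩
    congr 1
    apply Fin.ext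
    exact Nat.add_mod_right k z.length
  let Φ : (Fin z.length → Bool) → (Fin z.length → Bool) := fun x j => img ψ (per x) j.1
  have hΦ : ∀ x k, img ψ (per x) k = Φ x ⟨k % z.length, Nat.mod_lt _ hl⟩ := by
    intro x k
    show img ψ (per x) k = img ψ (per x) (k % z.length)
    exact (StFix_mod (fun k => img ψ (per x) k)
      (StFix_img_period ψ z.length (per x) (hper x)) k).symm
  have hinj : Function.Injective Φ := by
    intro x x' he
    by_contra hne
    apply hno
    refine ⟨per x, per x', hper x, hper x', fun h => hne ?_, fun k => ?_⟩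
    · funext j
      have h3 := congrFun h j.1
      have e : (⟨j.1 % z.length, Nat.mod_lt _ hl⟩ : Fin z.length) = j :=
        Fin.ext (Nat.mod_eq_of_lt j.2)
      show x j = x' j
      have h4 : x ⟨j.1 % z.length, Nat.mod_lt _ hl⟩ = x' ⟨j.1 % z.length, Nat.mod_lt _ hl⟩ := h3
      rwa [e] at h4
    · rw [hΦ, hΦ, he]
  have hsur : Function.Surjective Φ := Finite.injective_iff_surjective.1 hinj
  obtain ⟨x, hx⟩ := hsur (fun j => bz z j.1)
  have hb : ∀ k, img ψ (per x) k = bz z k := by
    intro k
    rw [hΦ, hx]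
    exact StFix_mod (bz z) (bz_period z) k
  have hq : ∀ k, res (fun i => per x (k + i.1)) =
      fb ψ res (bz z k) (res (fun i => per x (k + 1 + i.1))) := by
    intro k
    rw [res_seq ψ res h1 h2 (per x) k, hb]
  have hF := Fw_wd (fb ψ res) (bz z) (fun k => res (fun i => per x (k + i.1))) hq 0 z.length
  rw [wd_bz z hz] at hF
  have hp : res (fun i => per x (0 + z.length + i.1)) = res (fun i => per x (0 + i.1)) := by
    congr 1
    funext i
    rw [show 0 + z.length + i.1 = (0 + i.1) + z.length by omega, hper]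
  rw [hp] at hF
  refine ⟨_, hF, fun q hq' => ?_⟩
  by_contra hne
  exact hno (col_of_fix ψ res h1 h2 z hz _ _ hne hq' hF)

end Pool.Agent.Ppr2
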