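import Pool.Agent.Ppr2.StSeq
import Pool.Agent.Ppr.Hed

/-!
# The operators of the states: traces and nilpotency

`opw_Ab`: induction on the list; `A_b (A_z g) q = (A_z g) (f b q) - (A_z g) (f b r0)`, the constants
cancel.
`trace_Ab`: the trace is the sum over `q` of `(A_z e_q) q = [F q = q] - [F r0 = q]`
(`LinearMap.trace_eq_matrix_trace` with `Pi.basisFun`, `LinearMap.toMatrix'`…), which is `1 - 1`.
`nonnil`: let `n, u, u'` be a collision (`Pool.Agent.Ppr.collision`), `b = img ψ u = img ψ u'`,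
`q k`, `q' k` the states of the windows of `u`, `u'` at `k` (`res_seq`). If `q k = q' k` for all `k`
then `ψ` of the windows agree (`h1`) and `u k = u' k` for all `k` (definition of `img`), impossible.
So `q k0 ≠ q' k0`. For `j` let `z = wd b k0 (j n)`: by `Fw_wd` and periodicity (`q (k0 + j n) =
q k0`) `Fw z (q k0) = q k0`, `Fw z (q' k0) = q' k0`. For `j ≥ 1` and `g = Pi.single (q k0) 1` by
`opw_Ab`: `A_z g (q k0) - A_z g (q' k0) = g (q k0) - g (q' k0) = 1`, so `A_z ≠ 0`; take
`j = k + 1`.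
-/

namespace Pool.Agent.Ppr2

open Pool.Agent.Ppr

theorem opw_Ab {R : Type} (f : Bool → R → R) (r0 : R) (z : List Bool) (hz : 1 ≤ z.length)
    (g : R → ℚ) (q : R) : opw (Ab f r0) z g q = g (Fw f z q) - g (Fw f z r0) := by
  have key : ∀ (z : List Bool) (b : Bool) (q : R),
      opw (Ab f r0) (b :: z) g q = g (Fw f (b :: z) q) - g (Fw f (b :: z) r0) := by
    intro z
    induction z with
    | nil =>
      intro b q
      rw [opw_cons, opw_nil, mul_one]
      rfl
    | cons c z ih =>
      intro b q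
      rw [opw_cons]
      show Ab f r0 b (opw (Ab f r0) (c :: z) g) q = _
      rw [Ab_apply, ih, ih]
      show g (Fw f (c :: z) (f b q)) - g (Fw f (c :: z) r0) -
        (g (Fw f (c :: z) (f b r0)) - g (Fw f (c :: z) r0)) =
          g (Fw f (c :: z) (f b q)) - g (Fw f (c :: z) (f b r0))
      ring
  rcases z with _ | ⟨b, z⟩
  · exact absurd hz (by simp)
  · exact key z b q

theorem trace_Ab {R : Type} [Fintype R] (f : Bool → R → R) (r0 : R) (z : List Bool)
    (hz : 1 ≤ z.length) (hu : ∃! q, Fw f z q = q) :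
    LinearMap.trace ℚ (R → ℚ) (opw (Ab f r0) z) = 0 := by
  classical
  rw [LinearMap.trace_eq_matrix_trace ℚ (Pi.basisFun ℚ R)]
  unfold Matrix.trace
  have h1 : ∀ q, Matrix.diag (LinearMap.toMatrix (Pi.basisFun ℚ R) (Pi.basisFun ℚ R)
      (opw (Ab f r0) z)) q =
        (if Fw f z q = q then (1 : ℚ) else 0) - (if Fw f z r0 = q then 1 else 0) := by
    intro q
    rw [Matrix.diag_apply, LinearMap.toMatrix_apply, Pi.basisFun_apply, Pi.basisFun_repr,
      opw_Ab f r0 z hz, Pi.single_apply, Pi.single_apply]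
  rw [Finset.sum_congr rfl fun q _ => h1 q, Finset.sum_sub_distrib]
  obtain ⟨q0, hq0, hun⟩ := hu
  have h2 : ∑ q, (if Fw f z q = q then (1 : ℚ) else 0) = 1 := by
    rw [Finset.sum_eq_single q0]
    · rw [if_pos hq0]
    · intro q _ hq
      rw [if_neg]
      exact fun h => hq (hun q h)
    · intro h
      exact absurd (Finset.mem_univ _) h
  have h3 : ∑ q, (if Fw f z r0 = q then (1 : ℚ) else 0) = 1 := by
    rw [Finset.sum_ite_eq]
    simp
  rw [h2, h3, sub_self]

theorem nonnil {m : ℕ} (ψ : (Fin m → Bool) → Bool) (hψ : ∃ x y, ψ x ≠ ψ y) {R : Type}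
    (res : (Fin m → Bool) → R)
    (h1 : ∀ X X', res X = res X' → ψ X = ψ X')
    (h2 : ∀ c X X', res X = res X' → res (cw c X) = res (cw c X')) (r0 : R) (k : ℕ) :
    ∃ z : List Bool, k ≤ z.length ∧ opw (Ab (fb ψ res) r0) z ≠ 0 := by
  classical
  obtain ⟨n, hn, -, u, u', hu, hu', huu, himg⟩ := collision ψ hψ
  have hs := res_seq ψ res h1 h2 u
  have hs' : ∀ k, res (fun i => u' (k + i.1)) =
      fb ψ res (img ψ u k) (res (fun i => u' (k + 1 + i.1))) := by
    intro k
    rw [himg k]
    exact res_seq ψ res h1 h2 u' k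
  have hex : ∃ k0, res (fun i => u (k0 + i.1)) ≠ res (fun i => u' (k0 + i.1)) := by
    by_contra hcon
    push Not at hcon
    refine huu (funext fun k => ?_)
    have e1 := h1 _ _ (hcon (k + 1))
    have e2 := himg k
    unfold img at e2
    rw [e1] at e2
    revert e2
    cases u k <;> cases u' k <;> cases ψ (fun i => u' (k + 1 + i.1)) <;> simp
  obtain ⟨k0, hk0⟩ := hex
  have hper : ∀ (v : ℕ → Bool), (∀ k, v (k + n) = v k) → ∀ j : ℕ,
      res (fun i => v (k0 + j * n + i.1)) = res (fun i => v (k0 + i.1)) := by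
    intro v hv j
    congr 1
    funext i
    induction j with
    | zero => rw [zero_mul, add_zero]
    | succ j ih =>
      rw [← ih, ← hv (k0 + j * n + i.1)]
      congr 1
      ring
  have hz1 : 1 ≤ (k + 1) * n := Nat.mul_pos (Nat.succ_pos k) hn
  have hz2 : k ≤ (k + 1) * n := (Nat.le_succ k).trans (Nat.le_mul_of_pos_right _ hn)
  refine ⟨wd (img ψ u) k0 ((k + 1) * n), ?_, fun h0 => ?_⟩
  · rw [wd_length]
    exact hz2
  have f1 := Fw_wd (fb ψ res) (img ψ u) (fun k => res (fun i => u (k + i.1))) hs k0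
    ((k + 1) * n)
  have f2 := Fw_wd (fb ψ res) (img ψ u) (fun k => res (fun i => u' (k + i.1))) hs' k0
    ((k + 1) * n)
  simp only [hper u hu] at f1
  simp only [hper u' hu'] at f2
  have g1 := opw_Ab (fb ψ res) r0 (wd (img ψ u) k0 ((k + 1) * n))
    (by rw [wd_length]; exact hz1) (Pi.single (res (fun i => u (k0 + i.1))) 1)
    (res (fun i => u (k0 + i.1)))
  have g2 := opw_Ab (fb ψ res) r0 (wd (img ψ u) k0 ((k + 1) * n))
    (by rw [wd_length]; exact hz1) (Pi.single (res (fun i => u (k0 + i.1))) 1)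
    (res (fun i => u' (k0 + i.1)))
  rw [h0, f1] at g1
  rw [h0, f2] at g2
  have g3 := g1.symm.trans g2
  rw [Pi.single_eq_same, Pi.single_eq_of_ne (fun h => hk0 h.symm)] at g3
  linarith

end Pool.Agent.Ppr2
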