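import Pool.Agent.Ppr2.TrStep

/-!
# The trace lemma for semisimple words

`d = finrank V`, `c = d (2 log2 d + 3)`. Suppose that no word with `1 ≤ |z| < c` has a nonzero
trace. Let `b` be a letter with `A_b ≠ 0` (`hne`). INDUCTION on `j ≤ log2 d + 1`: there is a word
`x` with `A_x ≠ 0`, `|x| ≥ 1`, `2^j rk x ≤ d`, `|x| rk x ≤ d (1 + 2 j)`: `j = 0`: `x = [b]`.
`j → j + 1` for `j ≤ log2 d`: `step`, as `d (1 + 2 j) + 2 d ≤ c`. For `j = log2 d + 1`:
`2^j > d` (`Nat.lt_pow_succ_log_self`), so `rk x = 0`, `A_x = 0`: contradiction. (`d = 0` is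
impossible as `A_b ≠ 0`.)
-/

namespace Pool.Agent.Ppr2

theorem trace_ss {V : Type} [AddCommGroup V] [Module ℚ V] [FiniteDimensional ℚ V]
    (A : Bool → Module.End ℚ V) (hSS : SS A) (hne : ∃ b, A b ≠ 0) :
    ∃ z : List Bool, 1 ≤ z.length ∧
      z.length < Module.finrank ℚ V * (2 * Nat.log 2 (Module.finrank ℚ V) + 3) ∧
      LinearMap.trace ℚ V (opw A z) ≠ 0 := by
  by_contra hcon
  have htr : ∀ z : List Bool, 1 ≤ z.length →
      z.length < Module.finrank ℚ V * (2 * Nat.log 2 (Module.finrank ℚ V) + 3) →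
      LinearMap.trace ℚ V (opw A z) = 0 := by
    intro z h1 h2
    by_contra h3
    exact hcon ⟨z, h1, h2, h3⟩
  obtain ⟨b, hb⟩ := hne
  have key : ∀ j : ℕ, j ≤ Nat.log 2 (Module.finrank ℚ V) + 1 →
      ∃ x : List Bool, opw A x ≠ 0 ∧ 1 ≤ x.length ∧
        2 ^ j * Module.finrank ℚ (LinearMap.range (opw A x)) ≤ Module.finrank ℚ V ∧
        x.length * Module.finrank ℚ (LinearMap.range (opw A x)) ≤
          Module.finrank ℚ V * (1 + 2 * j) := by
    intro j
    induction j with
    | zero =>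
      intro _
      have h1 : opw A [b] = A b := by
        rw [opw_cons, opw_nil, mul_one]
      have h2 : Module.finrank ℚ (LinearMap.range (opw A [b])) ≤ Module.finrank ℚ V :=
        Submodule.finrank_le _
      refine ⟨[b], by rw [h1]; exact hb, by simp, by simpa using h2, by simpa using h2⟩
    | succ j ih =>
      intro hj
      obtain ⟨x, hx0, hx1, hx2, hx3⟩ := ih (by omega)
      have hj' : j ≤ Nat.log 2 (Module.finrank ℚ V) := by omega
      have hc : x.length * Module.finrank ℚ (LinearMap.range (opw A x)) +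
          2 * Module.finrank ℚ V ≤
          Module.finrank ℚ V * (2 * Nat.log 2 (Module.finrank ℚ V) + 3) := by
        have h4 : Module.finrank ℚ V * (2 * j + 3) ≤
            Module.finrank ℚ V * (2 * Nat.log 2 (Module.finrank ℚ V) + 3) :=
          Nat.mul_le_mul_left _ (by omega)
        have h5 : Module.finrank ℚ V * (1 + 2 * j) + 2 * Module.finrank ℚ V =
            Module.finrank ℚ V * (2 * j + 3) := by ring
        omega
      obtain ⟨x', h1, h2, h3, h4⟩ := step A hSS _ htr x hx0 hx1 hc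
      refine ⟨x', h1, h2, ?_, ?_⟩
      · calc 2 ^ (j + 1) * Module.finrank ℚ (LinearMap.range (opw A x'))
            = 2 ^ j * (2 * Module.finrank ℚ (LinearMap.range (opw A x'))) := by ring
          _ ≤ 2 ^ j * Module.finrank ℚ (LinearMap.range (opw A x)) :=
              Nat.mul_le_mul_left _ h3
          _ ≤ _ := hx2
      · have h5 : Module.finrank ℚ V * (1 + 2 * (j + 1)) =
            Module.finrank ℚ V * (1 + 2 * j) + 2 * Module.finrank ℚ V := by ring
        omega
  obtain ⟨x, hx0, _, hx2, _⟩ := key _ le_rfl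
  have hlt : Module.finrank ℚ V < 2 ^ (Nat.log 2 (Module.finrank ℚ V) + 1) :=
    Nat.lt_pow_succ_log_self (by norm_num) _
  have hr : Module.finrank ℚ (LinearMap.range (opw A x)) = 0 := by
    by_contra h0
    have h1 : 1 ≤ Module.finrank ℚ (LinearMap.range (opw A x)) := Nat.one_le_iff_ne_zero.2 h0
    have h2 := Nat.mul_le_mul_left (2 ^ (Nat.log 2 (Module.finrank ℚ V) + 1)) h1
    omega
  rw [Submodule.finrank_eq_zero, LinearMap.range_eq_bot] at hr
  exact hx0 hr

end Pool.Agent.Ppr2
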