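import Pool.Agent.Ppr2.TrSemi
import Pool.Agent.Ppr2.TrHalf

/-!
# The trace lemma
-/

namespace Pool.Agent.Ppr2

theorem trace_word {V : Type} [AddCommGroup V] [Module ℚ V] [FiniteDimensional ℚ V]
    (A : Bool → Module.End ℚ V) (hnn : ∀ k, ∃ z : List Bool, k ≤ z.length ∧ opw A z ≠ 0) :
    ∃ z : List Bool, 1 ≤ z.length ∧
      z.length < Module.finrank ℚ V * (2 * Nat.log 2 (Module.finrank ℚ V) + 3) ∧
      LinearMap.trace ℚ V (opw A z) ≠ 0 := by
  obtain ⟨V', i1, i2, i3, A', hd, hSS, htr, hnil⟩ := semis _ V A rfl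
  have hne : ∃ b, A' b ≠ 0 := by
    by_contra h
    push Not at h
    obtain ⟨k, hk⟩ := hnil ⟨1, fun z hz => by
      cases z with
      | nil => simp at hz
      | cons b z => rw [opw_cons, h b, zero_mul]⟩
    obtain ⟨z, hz, hz0⟩ := hnn k
    exact hz0 (hk z hz)
  obtain ⟨z, h1, h2, h3⟩ := trace_ss A' hSS hne
  rw [hd] at h2
  rw [htr] at h3
  exact ⟨z, h1, h2, h3⟩

end Pool.Agent.Ppr2
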