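import Pool.Agent.Ppr2.StateDef
import Pool.Agent.Ppr2.StFix
import Pool.Agent.Ppr2.StTr
import Pool.Agent.Ppr2.TrWord

/-!
# Short collisions of codes with few states

The idea (trace counting and the trace lemma) is due to helper88.
-/

namespace Pool.Agent.Ppr2

open Pool.Agent.Ppr

theorem collision_states {m : ℕ} (ψ : (Fin m → Bool) → Bool) (hψ : ∃ x y, ψ x ≠ ψ y)
    {R : Type} [Fintype R] (res : (Fin m → Bool) → R)
    (h1 : ∀ X X', res X = res X' → ψ X = ψ X')
    (h2 : ∀ c X X', res X = res X' → res (cw c X) = res (cw c X')) :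
    ∃ n, 0 < n ∧ n ≤ Fintype.card R * (2 * Nat.log 2 (Fintype.card R) + 3) ∧
      ∃ u u' : ℕ → Bool, (∀ k, u (k + n) = u k) ∧ (∀ k, u' (k + n) = u' k) ∧ u ≠ u' ∧
        ∀ k, img ψ u k = img ψ u' k := by
  by_contra hcon
  push Not at hcon
  set r0 : R := res (fun _ => false) with hr0
  obtain ⟨z, hz1, hz2, hz3⟩ := trace_word (Ab (fb ψ res) r0) (nonnil ψ hψ res h1 h2 r0)
  rw [Module.finrank_fintype_fun_eq_card] at hz2
  apply hz3
  apply trace_Ab _ _ z hz1
  apply fix_unique ψ res h1 h2 z hz1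
  rintro ⟨u, u', hu, hu', hne, hi⟩
  obtain ⟨k, hk⟩ := hcon z.length (by omega) hz2.le u u' hu hu' hne
  exact hk (hi k)

end Pool.Agent.Ppr2
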