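import Pool.Agent.Ppr2.ResA
import Pool.Agent.Ppr2.StateCol

/-!
# Either a test of small degree or a short collision

Suppose that the first alternative fails; then `vec_eq` applies. Let `res X` be the function
`x ↦ phi ψ (x, 0) (ext X)` on `α = {x : List Bool // 1 ≤ x.length ∧ x.length ≤ m}`. For every
window `X`: `ext X = appF ξ (ext t)` with `ξ i = ext X i`, `t i = ext X (i + n)`. With
`t0 = fun _ => false`, `vec_eq` shows that `res X` is one of the `2^n` functions
`x ↦ phi ψ (x, 0) (appF ξ' (ext t0))`. So the range of `res` has at most `2^n` elements. Take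
`R = Set.range res` (a `Fintype` by finiteness) in `collision_states`. `h1`: the word `x = [true]`,
`phi ψ ([true], 0) (ext X) = xor true (ψ X)`; `m ≥ 1` as `ψ` is not constant. `h2`: for
`|x| < m` use the word `x ++ [c]` (`img ψ v 0` depends on `v 0, …, v m` only, and
`app x (ext (cw c X))`, `app (x ++ [c]) (ext X)` agree there as `|x| ≥ 1`); for `|x| = m` the
letters `0, …, m` of `app x (ext (cw c X))` are those of `x` and `c`. Finally
`R * (2 * log2 R + 3)` is monotone in `R`, `Nat.log 2 (2^n) = n`.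
-/

namespace Pool.Agent.Ppr2

open PowerSeries Pool.Agent.Ppr

private theorem app_snoc_Res (c : Bool) (z : ℕ → Bool) :
    ∀ x : List Bool, app (x ++ [c]) z = app x (cons c z)
  | [] => rfl
  | d :: x => by
    show cons d (app (x ++ [c]) z) = cons d (app x (cons c z))
    rw [app_snoc_Res c z x]

private theorem app_congr_Res {z z' : ℕ → Bool} :
    ∀ (x : List Bool) (m : ℕ), (∀ k, k + x.length ≤ m → z k = z' k) →
      ∀ k, k ≤ m → app x z k = app x z' k
  | [], m, h, k, hk => h k hk
  | d :: x, m, h, k, hk => by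
    show cons d (app x z) k = cons d (app x z') k
    unfold cons
    by_cases hk0 : k = 0
    · rw [if_pos hk0, if_pos hk0]
    · rw [if_neg hk0, if_neg hk0]
      refine app_congr_Res x (m - 1) (fun j hj => h j ?_) (k - 1) (by omega)
      rw [List.length_cons]
      omega

private theorem img_congr_Res {m : ℕ} (ψ : (Fin m → Bool) → Bool) {v v' : ℕ → Bool}
    (h : ∀ k, k ≤ m → v k = v' k) : img ψ v 0 = img ψ v' 0 := by
  unfold img
  rw [h 0 (Nat.zero_le m)]
  congr 2
  funext i
  exact h _ (by have := i.2; omega)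

private theorem phi_eq_Res {m : ℕ} (ψ : (Fin m → Bool) → Bool) (x : List Bool)
    (z : ℕ → Bool) : phi ψ (x, 0) z = img ψ (app x z) 0 := rfl

private theorem phi_true_Res {m : ℕ} (ψ : (Fin m → Bool) → Bool) (X : Fin m → Bool) :
    phi ψ ([true], 0) (ext X) = xor true (ψ X) := by
  rw [phi_eq_Res]
  show xor (cons true (ext X) 0) (ψ (fun i => cons true (ext X) (0 + 1 + i.1))) = _
  have h1 : cons true (ext X) 0 = true := rfl
  have h2 : (fun i : Fin m => cons true (ext X) (0 + 1 + i.1)) = X := by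
    funext i
    unfold cons ext
    rw [if_neg (by omega)]
    have h3 : 0 + 1 + i.1 - 1 = i.1 := by omega
    rw [dif_pos (by rw [h3]; exact i.2)]
    congr 1
    exact Fin.ext h3
  rw [h1, h2]

private theorem ext_cw_Res {m : ℕ} (c : Bool) (X : Fin m → Bool) {k : ℕ} (hk : k < m) :
    ext (cw c X) k = cons c (ext X) k := by
  unfold ext cw cons
  rw [dif_pos hk]
  by_cases h0 : k = 0
  · rw [if_pos h0, if_pos h0]
  · rw [if_neg h0, if_neg h0]
    show X ⟨k - 1, _⟩ = if h : k - 1 < m then X ⟨k - 1, h⟩ else false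
    rw [dif_pos (by omega)]

private theorem phi_cw_Res {m : ℕ} (ψ : (Fin m → Bool) → Bool) (c : Bool) (X : Fin m → Bool)
    {x : List Bool} (h1 : 1 ≤ x.length) :
    phi ψ (x, 0) (ext (cw c X)) = phi ψ (x ++ [c], 0) (ext X) := by
  rw [phi_eq_Res, phi_eq_Res, app_snoc_Res]
  refine img_congr_Res ψ fun k hk => app_congr_Res x m (fun j hj => ?_) k hk
  exact ext_cw_Res c X (by omega)

private theorem phi_full_Res {m : ℕ} (ψ : (Fin m → Bool) → Bool) (c : Bool)
    (X X' : Fin m → Bool) {x : List Bool} (h1 : 1 ≤ x.length) (hm : x.length = m) :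
    phi ψ (x, 0) (ext (cw c X)) = phi ψ (x, 0) (ext (cw c X')) := by
  rw [phi_eq_Res, phi_eq_Res]
  refine img_congr_Res ψ fun k hk => app_congr_Res x m (fun j hj => ?_) k hk
  have hj0 : j = 0 := by omega
  subst hj0
  rw [ext_cw_Res c X (by omega), ext_cw_Res c X' (by omega)]
  rfl

private theorem ext_appF_Res {m : ℕ} (n : ℕ) (X : Fin m → Bool) :
    ext X = appF (fun i : Fin n => ext X i.1) (ext fun i : Fin m => ext X (i.1 + n)) := by
  funext k
  unfold appF
  by_cases hk : k < n
  · rw [dif_pos hk]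
  · rw [dif_neg hk]
    by_cases hm : k - n < m
    · have h1 : ext (fun i : Fin m => ext X (i.1 + n)) (k - n) = ext X (k - n + n) := by
        conv_lhs => unfold ext
        rw [dif_pos hm]
        rfl
      rw [h1, Nat.sub_add_cancel (by omega)]
    · have h1 : ext (fun i : Fin m => ext X (i.1 + n)) (k - n) = false := by
        conv_lhs => unfold ext
        rw [dif_neg hm]
      rw [h1]
      unfold ext
      rw [dif_neg (by omega)]

theorem res_or {m : ℕ} (ψ : (Fin m → Bool) → Bool) (hψ : ∃ x y, ψ x ≠ ψ y) (n : ℕ) :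
    (∃ (P : Finset (List Bool × ℕ)) (t t' : Fin m → Bool),
      (∀ p ∈ P, p.1.length ≤ m ∧ p.2 = 0) ∧ P.card ≤ n + 1 ∧
      Del ψ n P (ext t) (ext t') ≠ 0) ∨
    ∃ l, 0 < l ∧ l ≤ 2 ^ n * (2 * n + 3) ∧ ∃ u u' : ℕ → Bool, (∀ k, u (k + l) = u k) ∧
      (∀ k, u' (k + l) = u' k) ∧ u ≠ u' ∧ ∀ k, img ψ u k = img ψ u' k := by
  by_cases hA : ∃ (P : Finset (List Bool × ℕ)) (t t' : Fin m → Bool),
      (∀ p ∈ P, p.1.length ≤ m ∧ p.2 = 0) ∧ P.card ≤ n + 1 ∧
      Del ψ n P (ext t) (ext t') ≠ 0
  · exact Or.inl hA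
  right
  have h : ∀ (P : Finset (List Bool × ℕ)) (t t' : Fin m → Bool),
      (∀ p ∈ P, p.1.length ≤ m ∧ p.2 = 0) → P.card ≤ n + 1 →
      Del ψ n P (ext t) (ext t') = 0 := by
    intro P t t' h1 h2
    by_contra h3
    exact hA ⟨P, t, t', h1, h2, h3⟩
  have hm : 1 ≤ m := by
    rcases Nat.eq_zero_or_pos m with h0 | h0
    · subst h0
      obtain ⟨x, y, hxy⟩ := hψ
      exact absurd (congrArg ψ (Subsingleton.elim x y)) hxy
    · exact h0
  let res0 : (Fin m → Bool) → ({x : List Bool // 1 ≤ x.length ∧ x.length ≤ m} → Bool) :=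
    fun X x => phi ψ (x.1, 0) (ext X)
  have hres : ∀ X X' : Fin m → Bool, res0 X = res0 X' → ∀ x : List Bool, 1 ≤ x.length →
      x.length ≤ m → phi ψ (x, 0) (ext X) = phi ψ (x, 0) (ext X') := by
    intro X X' h1 x h2 h3
    exact congrFun h1 ⟨x, h2, h3⟩
  have hξ : ∀ r : Set.range res0, ∃ ξ : Fin n → Bool, ∀ x, r.1 x =
      phi ψ (x.1, 0) (appF ξ (ext fun _ : Fin m => false)) := by
    rintro ⟨_, X, rfl⟩
    obtain ⟨ξ, h1⟩ := vec_eq ψ n h (fun i : Fin m => ext X (i.1 + n)) (fun _ => false)
      (fun i : Fin n => ext X i.1)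
    refine ⟨ξ, fun x => ?_⟩
    rw [← h1 x.1 x.2.1 x.2.2, ← ext_appF_Res n X]
  choose g hg using hξ
  have hinj : Function.Injective g := by
    intro r r' h1
    apply Subtype.ext
    funext x
    rw [hg r x, hg r' x, h1]
  have : Finite (Set.range res0) := Finite.of_injective g hinj
  have : Fintype (Set.range res0) := Fintype.ofFinite _
  have hcard : Fintype.card (Set.range res0) ≤ 2 ^ n := by
    refine (Fintype.card_le_of_injective g hinj).trans ?_
    rw [Fintype.card_fun, Fintype.card_bool, Fintype.card_fin]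
  obtain ⟨l, hl, hl2, u, u', hu, hu', hne, him⟩ := collision_states ψ hψ
    (R := Set.range res0) (fun X => ⟨res0 X, X, rfl⟩)
    (by
      intro X X' h1
      have h2 := hres X X' (congrArg Subtype.val h1) [true] (by simp) (by simpa using hm)
      rw [phi_true_Res, phi_true_Res] at h2
      revert h2
      cases ψ X <;> cases ψ X' <;> simp)
    (by
      intro c X X' h1
      have h2 := hres X X' (congrArg Subtype.val h1)
      apply Subtype.ext
      funext x
      show phi ψ (x.1, 0) (ext (cw c X)) = phi ψ (x.1, 0) (ext (cw c X'))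
      rcases Nat.lt_or_ge x.1.length m with h3 | h3
      · rw [phi_cw_Res ψ c X x.2.1, phi_cw_Res ψ c X' x.2.1]
        refine h2 _ ?_ ?_
        · rw [List.length_append]
          omega
        · rw [List.length_append, List.length_singleton]
          omega
      · exact phi_full_Res ψ c X X' x.2.1 (le_antisymm x.2.2 h3))
  refine ⟨l, hl, hl2.trans ?_, u, u', hu, hu', hne, him⟩
  refine Nat.mul_le_mul hcard ?_
  have h1 : Nat.log 2 (Fintype.card (Set.range res0)) ≤ n := by
    refine (Nat.log_mono_right hcard).trans ?_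
    rw [Nat.log_pow (by norm_num)]
  omega

end Pool.Agent.Ppr2
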