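import Pool.Agent.Ppr2.GapSep
import Pool.Agent.Ppr2.Res

/-!
# Every pair of different cusps has a cheap separator

The proof of `exists_sep` in `Ppr/SepD.lean` with one change. `of_sep`: a separator of the first
version of degree `g ≥ 0` is one of the second version with cost `g` (`nrmr_le_nrm`;
`nrm ≤ 1 ≤ 4^g`). `full_mono`: windows of length `M ≤ M2`. Cases: (c1) `sep_sub`, (c2) `sep_add`
with `M ≤ (M/b+1) b`; otherwise `a, a'` with the windows `+^M, -^M`; if `w0 a = w0 a'`: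
`sep_quad`; else the code `ψ` (as in `SepD`, `b = m + 1`, windows of length `b + 1 ≤ M2` occur),
not constant; `res_or ψ _ (H+1+L)`: first case `gap_sep` with `K = M / 2^L + 1`, second case
`sep_cycle` with the periodic words.
-/

namespace Pool.Agent.Ppr2

open PowerSeries Pool.Agent.Ppr

variable {ι : Type} {σ : ι → ι} {M : ℕ} {w0 w' : ι → Bool}

/-- the bound for the cost of a separator -/
def Dc (M b H L : ℕ) : ℕ :=
  M / b + 3 + (M / 2 ^ L + 1) * (2 * (H + 1 + L) + 1) +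
    2 ^ (H + 1 + L) * (2 * (H + 1 + L) + 3)

theorem full_mono {M M2 : ℕ} (h : M ≤ M2) (hf : full σ w' M2) : full σ w' M := by
  intro u
  obtain ⟨i, hi⟩ := hf (fun k => if hk : k.1 < M then u ⟨k.1, hk⟩ else true)
  refine ⟨i, funext fun k => ?_⟩
  exact (congrFun hi ⟨k.1, lt_of_lt_of_le k.2 h⟩).trans (dif_pos k.2)

theorem of_sep {r : ℝ} (hr : 0 ≤ r) (hr2 : r ≤ 1 / 64) {g : ℕ} {G : MvPolynomial ι ℝ}
    (h : IsSep σ M w0 w' g G) : IsSepr r σ M w0 w' g g G := by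
  obtain ⟨h1, h2, ⟨inv, h3, h4⟩, h5⟩ := h
  refine ⟨h1, le_rfl, h2, ⟨inv, h3, ?_⟩, fun w => ?_⟩
  · refine (nrmr_le_nrm hr hr2 M inv).trans (h4.trans ?_)
    exact one_le_pow₀ (by norm_num)
  · exact (nrmr_le_nrm hr hr2 M _).trans (h5 w)

/-- prescribed letters -/
private theorem win_Sepr {N b : ℕ} (hbM : b + 1 ≤ N) (hfull : full σ w' N) (x : Fin b → Bool)
    (c : Bool) : ∃ i, w' i = c ∧ ∀ l : Fin b, w' (σ^[l.1 + 1] i) = x l := by
  obtain ⟨i, hi⟩ := hfull (fun k => if h : 0 < k.1 ∧ k.1 - 1 < b then x ⟨k.1 - 1, h.2⟩ else c)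
  refine ⟨i, ?_, fun l => ?_⟩
  · have h1 := congrFun hi ⟨0, by omega⟩
    have h2 : w' (σ^[0] i) = c := by
      refine h1.trans (dif_neg ?_)
      intro h
      exact absurd h.1 (lt_irrefl _)
    exact h2
  · have h1 := congrFun hi ⟨l.1 + 1, by omega⟩
    have h3 : 0 < l.1 + 1 ∧ l.1 + 1 - 1 < b := ⟨Nat.succ_pos _, by simp⟩
    have h2 : w' (σ^[l.1 + 1] i) = x ⟨l.1 + 1 - 1, h3.2⟩ := h1.trans (dif_pos h3)
    rw [h2]
    congr 1

private theorem div_Sepr (M b : ℕ) (hb : 0 < b) : M ≤ (M / b + 1) * b := by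
  have h1 := Nat.div_add_mod M b
  have h2 := Nat.mod_lt M hb
  rw [add_mul, one_mul, mul_comm (M / b) b]
  omega

theorem exists_sepr {r A : ℝ} (hr : 0 < r) (hr2 : r ≤ 1 / 64) {M2 b H L : ℕ} (hb : 0 < b)
    (hbM : M + b ≤ M2) (hM : 2 ≤ M) (hfull : full σ w' M2) (hfull0 : full σ w0 M2)
    (hne : w0 ≠ w') (hne' : w0 ≠ fun i => !(w' i)) (hL : 2 ^ L ≤ M2) (hA0 : 1 ≤ A)
    (hA : 4 ^ (H + 1 + L) ≤ A ^ (H + 1))
    (hrA : r * A * (90 * (2 * (H + 1 + L) + 1 : ℕ)) ≤ 1) :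
    ∃ g κ G, κ ≤ Dc M b H L ∧ IsSepr r σ M w0 w' g κ G := by
  classical
  have hk : M ≤ (M / b + 1) * b := div_Sepr M b hb
  have hD1 : M / b + 3 ≤ Dc M b H L := by
    unfold Dc
    rw [add_assoc (M / b + 3)]
    exact Nat.le_add_right _ _
  have hD2 : (M / 2 ^ L + 1) * (2 * (H + 1 + L) + 1) ≤ Dc M b H L := by
    unfold Dc
    exact (Nat.le_add_left _ _).trans (Nat.le_add_right _ _)
  have hD3 : 2 ^ (H + 1 + L) * (2 * (H + 1 + L) + 3) ≤ Dc M b H L := by
    unfold Dc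
    exact Nat.le_add_left _ _
  have hk2 : M / b + 1 ≤ Dc M b H L := by omega
  by_cases c1 : ∃ i j, w0 i ≠ w0 j ∧ agr σ w' b i j
  · obtain ⟨i, j, h0, h⟩ := c1
    exact ⟨_, _, _, hk2, of_sep hr.le hr2 (sep_sub h0 h hk)⟩
  by_cases c2 : ∃ i j, w0 i = w0 j ∧ w' i ≠ w' j ∧
      ∀ l, 0 < l → l < b → w' (σ^[l] i) = w' (σ^[l] j)
  · obtain ⟨i, j, h0, h1, h⟩ := c2
    exact ⟨_, _, _, hk2, of_sep hr.le hr2 (sep_add h0 h1 h hk)⟩
  push Not at c1 c2
  obtain ⟨a, ha⟩ := hfull (fun _ => true)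
  obtain ⟨a', ha'⟩ := hfull (fun _ => false)
  have ha1 : ∀ k < M, w' (σ^[k] a) = true := fun k hk => congrFun ha ⟨k, by omega⟩
  have ha1' : ∀ k < M, w' (σ^[k] a') = false := fun k hk => congrFun ha' ⟨k, by omega⟩
  by_cases hab : w0 a = w0 a'
  · obtain ⟨i, hi⟩ := hfull0 (fun _ => true)
    obtain ⟨j, hj⟩ := hfull0 (fun _ => false)
    have hi1 : w0 (σ i) = true := congrFun hi ⟨1, by omega⟩
    have hj1 : w0 (σ j) = false := congrFun hj ⟨1, by omega⟩
    refine ⟨_, _, _, ?_, of_sep hr.le hr2 (sep_quad ha1 ha1' hab (i := i) (j := j) ?_)⟩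
    · exact (by norm_num : 2 ≤ 3).trans ((Nat.le_add_left 3 _).trans hD1)
    · rw [hi1, hj1]
      exact Bool.true_eq_false_eq_False
  obtain ⟨m, rfl⟩ : ∃ m, b = m + 1 := ⟨b - 1, by omega⟩
  have hwin := win_Sepr (σ := σ) (b := m) (by omega) hfull
  choose J hJ1 hJ2 using fun x => hwin x true
  let ψ : (Fin m → Bool) → Bool := fun x => xor (w' (J x)) (w0 (J x))
  have hψ : ∀ i, w0 i = xor (w' i) (ψ fun l : Fin m => w' (σ^[l.1 + 1] i)) := by
    intro i
    have e1 := hJ2 (fun l : Fin m => w' (σ^[l.1 + 1] i))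
    generalize hj : J (fun l : Fin m => w' (σ^[l.1 + 1] i)) = j at e1
    show w0 i = xor (w' i) (xor (w' (J _)) (w0 (J _)))
    rw [hj]
    have e2 : ∀ l, 0 < l → l < m + 1 → w' (σ^[l] i) = w' (σ^[l] j) := by
      intro l hl0 hl
      have e3 := e1 ⟨l - 1, by omega⟩
      have e4 : l - 1 + 1 = l := by omega
      simp only [e4] at e3
      exact e3.symm
    by_cases e5 : w' i = w' j
    · have e6 : w0 i = w0 j := by
        by_contra hcon
        refine c1 i j hcon ?_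
        intro l hl
        rcases Nat.eq_zero_or_pos l with hl0 | hl0
        · rw [hl0]
          exact e5
        · exact e2 l hl0 hl
      rw [e5, e6]
      cases w' j <;> cases w0 j <;> rfl
    · have e6 : w0 i ≠ w0 j := by
        intro hcon
        obtain ⟨l, hl0, hl, hl'⟩ := c2 i j hcon e5
        exact hl' (e2 l hl0 hl)
      revert e5 e6
      cases w' i <;> cases w' j <;> cases w0 i <;> cases w0 j <;> simp
  have hnc : ∃ x y, ψ x ≠ ψ y := by
    by_contra hcon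
    push Not at hcon
    have h1 : ∀ i, w0 i = xor (w' i) (ψ fun _ => true) := by
      intro i
      rw [hψ i, hcon _ fun _ => true]
    cases hc : ψ (fun _ => true)
    · refine hne (funext fun i => ?_)
      rw [h1 i, hc]
      cases w' i <;> rfl
    · refine hne' (funext fun i => ?_)
      rw [h1 i, hc]
      cases w' i <;> rfl
  rcases res_or ψ hnc (H + 1 + L) with hP | ⟨n, hn, hn4, u, u', hu, hu', huu, himg⟩
  · obtain ⟨g, G, hG⟩ := gap_sep hr hr2 (by omega : 0 < M) (by omega : M + m ≤ M2) hfull hψ H L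
      (M / 2 ^ L + 1) hL (div_Sepr M (2 ^ L) (Nat.two_pow_pos L)) hA0 hA hrA hP
    exact ⟨g, _, G, hD2, hG⟩
  choose p hp using fun k : ℕ => hfull (fun l => u (k + l.1))
  choose p' hp' using fun k : ℕ => hfull (fun l => u' (k + l.1))
  have q1 : ∀ k, ∀ l < M2, w' (σ^[l] (p k)) = u (k + l) := fun k l hl => congrFun (hp k) ⟨l, hl⟩
  have q1' : ∀ k, ∀ l < M2, w' (σ^[l] (p' k)) = u' (k + l) :=
    fun k l hl => congrFun (hp' k) ⟨l, hl⟩
  have q2 : ∀ k, w0 (p k) = img ψ u k := by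
    intro k
    rw [hψ (p k)]
    unfold img
    have e1 : w' (p k) = u k := q1 k 0 (by omega)
    have e2 : (fun l : Fin m => w' (σ^[l.1 + 1] (p k))) = fun i : Fin m => u (k + 1 + i.1) := by
      funext l
      rw [q1 k (l.1 + 1) (by omega)]
      congr 1
      omega
    rw [e1, e2]
  have q2' : ∀ k, w0 (p' k) = img ψ u' k := by
    intro k
    rw [hψ (p' k)]
    unfold img
    have e1 : w' (p' k) = u' k := q1' k 0 (by omega)
    have e2 : (fun l : Fin m => w' (σ^[l.1 + 1] (p' k))) = fun i : Fin m => u' (k + 1 + i.1) := by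
      funext l
      rw [q1' k (l.1 + 1) (by omega)]
      congr 1
      omega
    rw [e1, e2]
  refine ⟨n, _, _, hn4.trans hD3, of_sep hr.le hr2 (sep_cycle ha1 ha1' hab hn hu hu' huu p p'
    (fun k l hl => q1 k l (by omega)) (fun k l hl => q1' k l (by omega)) fun k => ?_)⟩
  rw [q2, q2', himg]

end Pool.Agent.Ppr2
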