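import Pool.Agent.Ppr.Num
import Pool.Agent.Ppr2.Sepr
import Pool.Agent.Ppr2.OntoA

/-!
# The choice of the parameters

Let `x = log s`, `N > C s x^(1/2+ε)`. As in `Ppr/NumA.lean` (`NumA_en`, copy it): `E ≤ 5 N x`
(`En`), so `Q = 5200 s E / N^2 ≤ 26000 s x / N ≤ x^(1/2-ε)` for `C ≥ 26000`. Let `k` be an integer
`≥ 1/ε + 1` (so `k ≥ 1`), `a = 1/2 - ε/2` (if `ε ≥ 1/2` reduce to `ε = 1/4`:
`x^(1/2+1/4) ≤ x^(1/2+ε)` for `x ≥ 1`). `L = ⌊a log2 x⌋` (so `x^a / 2 ≤ 2^L ≤ x^a`),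
`Hd = L / k` (natural division; `L ≤ k (Hd + 1)`), `n = Hd + 1 + L`, `A = 4^(k+1)`
(`4^n ≤ 4^((k+1)(Hd+1)) = A^(Hd+1)`), `r = 1 / (A * 90 * (2 n + 1))` (`≤ 1/64`),
`b = 2^L`, `M = ⌊x/4000⌋`. Then:
`3 M ≤ clog 2 N`, `40 E < (N/2^(3M))^2` because `2^(3M) ≤ s^(1/1000)` and
`N ≥ s`, `E ≤ 5 N x`, `5 · 40 · x · s^(1/500) < s` for large `s`.
`1/etar r^2 = (100/r)^16 ≤ C_k (log x)^16` (`n ≤ (a (1+1/k) log2 x + 1)`).
`Dc M b Hd L = M/2^L + 3 + (M/2^L+1)(2n+1) + 2^n (2n+3)`, `M/2^L ≤ 2 x^(1-a)`,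
`2^n ≤ 2 · 2^(L + L/k) ≤ 2 x^(a(1+1/k))`; so `Q/etar^2 · Dc ≤ C_k (log x)^17
(x^(1/2-ε+1-a) + x^(1/2-ε+a(1+1/k)) + x^(1/2-ε))`, exponents `1 - ε/2`, `≤ 1 - 3ε/2 + 1/(2k) <
1 - ε` and `1/2`; all are `< 1`, so this is `≤ M/12` for large `s`. `8 Q ≤ 2^M`, `240 ≤ M`,
`2^L ≤ M` for large `s`. The final inequality as in `Ppr/NumA.lean` (`NumA_last`, copy it):
`12 E/N^2 ≤ 60 x/N ≤ 1/100`, `H ≥ s x - 2 s`, `M ≤ x/4000`: the right side minus the left side is
at least `M s x (1 - 1/20 - 1/100 - 1/3 - 1/2 - small)`.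
All limits: `Real.isLittleO_log_rpow_atTop`-type facts, `x → ∞` as `s → ∞`.
-/

namespace Pool.Agent.Ppr2

open Pool.Agent.Ppr

/-- the energy is at most `5 N log s` -/
private theorem NumC_en (s N : ℕ) (H : ℝ) (hx0 : 10 ^ 8 ≤ Real.log s)
    (hH : s * Real.log s - 2 * s ≤ H) (hNs : s ≤ N)
    (hsq : (N : ℝ) ^ 2 ≤ 4 * ((s : ℝ) + 1) * En N H) :
    En N H ≤ 5 * N * Real.log s := by
  set x : ℝ := Real.log s with hx
  have hs1 : 100 < s := by
    by_contra hcon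
    rw [not_lt] at hcon
    rcases Nat.eq_zero_or_pos s with h0 | h0
    · rw [hx, h0] at hx0
      norm_num at hx0
    · have h1 : x ≤ Real.log 100 :=
        Real.log_le_log (by exact_mod_cast h0) (by exact_mod_cast hcon)
      have h2 : Real.log 100 ≤ 100 - 1 := Real.log_le_sub_one_of_pos (by norm_num)
      linarith
  have hsr : (100 : ℝ) < s := by exact_mod_cast hs1
  have hNr : (s : ℝ) ≤ N := by exact_mod_cast hNs
  have hN0 : (0 : ℝ) < N := by linarith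
  have hsx : 0 < (s : ℝ) * x := by positivity
  have hH2 : s * x / 2 ≤ H := by nlinarith
  have hH0 : 0 < H := by linarith
  have hH24 : 24 * ((s : ℝ) + 1) ≤ H := by nlinarith
  set k : ℕ := Nat.clog 2 N with hk
  have hEn : En N H = N * ((k : ℝ) + 1) + 3 / H * (N : ℝ) ^ 2 := rfl
  -- `N ≤ 8 (s + 1) (k + 1)`
  have h1 : 4 * ((s : ℝ) + 1) * (3 / H * (N : ℝ) ^ 2) ≤ (N : ℝ) ^ 2 / 2 := by
    have h2 : 12 * ((s : ℝ) + 1) / H ≤ 1 / 2 := by
      rw [div_le_iff₀ hH0]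
      linarith
    calc 4 * ((s : ℝ) + 1) * (3 / H * (N : ℝ) ^ 2)
        = (12 * ((s : ℝ) + 1) / H) * (N : ℝ) ^ 2 := by ring
      _ ≤ 1 / 2 * (N : ℝ) ^ 2 := mul_le_mul_of_nonneg_right h2 (by positivity)
      _ = _ := by ring
  have h3 : (N : ℝ) ≤ 8 * ((s : ℝ) + 1) * ((k : ℝ) + 1) := by
    rw [hEn, mul_add] at hsq
    have h4 : (N : ℝ) * N ≤ (8 * ((s : ℝ) + 1) * ((k : ℝ) + 1)) * N := by nlinarith
    exact le_of_mul_le_mul_right h4 hN0
  -- `k`
  have hlog2 : (0.6931471803 : ℝ) < Real.log 2 := Real.log_two_gt_d9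
  have hkN : ((k : ℝ) - 1) * Real.log 2 ≤ Real.log N := by
    have h4 : 2 ^ (k - 1) < N := Nat.pow_pred_clog_lt_self one_lt_two (by omega)
    have h5 : ((k - 1 : ℕ) : ℝ) * Real.log 2 ≤ Real.log N := by
      rw [← Real.log_pow]
      refine Real.log_le_log (by positivity) ?_
      exact_mod_cast h4.le
    refine le_trans ?_ h5
    refine mul_le_mul_of_nonneg_right ?_ (by linarith)
    rcases Nat.eq_zero_or_pos k with h | h
    · rw [h]
      norm_num
    · rw [Nat.cast_sub h]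
      norm_num
  have hlogN0 : 0 ≤ Real.log N := Real.log_nonneg (by linarith)
  have hk1 : (k : ℝ) + 1 ≤ 2 + 3 / 2 * Real.log N := by
    by_contra hcon
    rw [not_le] at hcon
    have h4 : 3 / 2 * Real.log N < (k : ℝ) - 1 := by linarith
    nlinarith
  set r : ℝ := √(N : ℝ) with hr
  have hrr : r * r = N := Real.mul_self_sqrt hN0.le
  have hr1 : 1 ≤ r := by
    by_contra hcon
    rw [not_le] at hcon
    have : 0 ≤ r := Real.sqrt_nonneg _
    nlinarith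
  have hr0 : 0 < r := by linarith
  have hlogr : Real.log N = 2 * Real.log r := by
    rw [← hrr, Real.log_mul hr0.ne' hr0.ne']
    ring
  have hlogr2 : Real.log r ≤ r - 1 := Real.log_le_sub_one_of_pos hr0
  have hr40 : r ≤ 80 * s := by
    have h4 : (k : ℝ) + 1 ≤ 5 * r := by linarith
    have h5 : r * r ≤ (40 * ((s : ℝ) + 1)) * r := by
      rw [hrr]
      refine h3.trans ?_
      calc 8 * ((s : ℝ) + 1) * ((k : ℝ) + 1) ≤ 8 * ((s : ℝ) + 1) * (5 * r) :=
            mul_le_mul_of_nonneg_left h4 (by positivity)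
        _ = _ := by ring
    have h6 := le_of_mul_le_mul_right h5 hr0
    linarith
  have hlogr3 : Real.log r ≤ 5 / 4 * x := by
    have h4 : Real.log r ≤ Real.log (80 * s) := Real.log_le_log hr0 hr40
    rw [Real.log_mul (by norm_num) (by linarith)] at h4
    have h5 : Real.log 80 ≤ 80 - 1 := Real.log_le_sub_one_of_pos (by norm_num)
    linarith
  have hk4 : (k : ℝ) + 1 ≤ 4 * x := by linarith
  have hN33 : (N : ℝ) ≤ 33 * (s * x) := by
    refine h3.trans ?_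
    calc 8 * ((s : ℝ) + 1) * ((k : ℝ) + 1) ≤ 8 * ((s : ℝ) + 1) * (4 * x) :=
          mul_le_mul_of_nonneg_left hk4 (by positivity)
      _ ≤ 33 * (s * x) := by nlinarith
  have hNH : 3 / H * (N : ℝ) ^ 2 ≤ N * x := by
    have h4 : 3 / H * (N : ℝ) ^ 2 = (3 * N / H) * N := by ring
    have h5 : 3 * (N : ℝ) / H ≤ 198 := by
      rw [div_le_iff₀ hH0]
      linarith
    rw [h4, mul_comm (N : ℝ) x]
    exact mul_le_mul_of_nonneg_right (by linarith) hN0.le
  rw [hEn]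
  have h6 : (N : ℝ) * ((k : ℝ) + 1) ≤ N * (4 * x) := mul_le_mul_of_nonneg_left hk4 hN0.le
  linarith

private theorem NumC_last (s M : ℕ) (H E x y : ℝ) (hxs : Real.log s = x) (hs : 100 < (s : ℝ))
    (hsx : x ≤ s) (hy : 100 ≤ y) (hyx : y ^ 4 = x) (hlogx : Real.log x ≤ 4 * y)
    (hM1 : 240 ≤ M) (hM2 : (M : ℝ) ≤ x / 1000) (hH : s * x - 2 * s ≤ H)
    (hE : 12 * E ≤ 1 / 100) :
    ((M / 3 : ℕ) : ℝ) * (H + Real.log 2 + Real.log 5) +
        ((M * s + 1 : ℕ) : ℝ) / 2 * Real.log ((M * s + 1 : ℕ) : ℝ) +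
        ((M * s : ℕ) : ℝ) * (M * Real.log 67) <
      M * (1 - 1 / 20 - 12 * E) * H := by
  have hy4 : 1000000 * y ≤ x := by
    have h1 : (100 : ℝ) ^ 3 ≤ y ^ 3 := pow_le_pow_left₀ (by norm_num) hy 3
    have h2 : (100 : ℝ) ^ 3 * y ≤ y ^ 3 * y := mul_le_mul_of_nonneg_right h1 (by linarith)
    rw [← pow_succ, hyx] at h2
    norm_num at h2
    exact h2
  have hx : 100000000 ≤ x := by linarith
  have hM0 : (240 : ℝ) ≤ M := by exact_mod_cast hM1
  have hLx : Real.log x ≤ x / 1000 := by linarith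
  have hsx0 : 0 < (s : ℝ) * x := by positivity
  have hHs : 0 < H := by nlinarith
  have h2 : Real.log 2 ≤ 1 := by
    have := Real.log_le_sub_one_of_pos (show (0 : ℝ) < 2 by norm_num)
    linarith
  have h5 : Real.log 5 ≤ 4 := by
    have := Real.log_le_sub_one_of_pos (show (0 : ℝ) < 5 by norm_num)
    linarith
  have h20 : 0 ≤ Real.log 2 := Real.log_nonneg (by norm_num)
  have h50 : 0 ≤ Real.log 5 := Real.log_nonneg (by norm_num)
  have h67 : Real.log 67 ≤ 5 := by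
    rw [Real.log_le_iff_le_exp (by norm_num)]
    have h1 : (2.7182818283 : ℝ) < Real.exp 1 := Real.exp_one_gt_d9
    have h3 : Real.exp 5 = Real.exp 1 ^ 5 := by
      rw [← Real.exp_nat_mul]
      norm_num
    rw [h3]
    have h4 : (2.7 : ℝ) ^ 5 ≤ Real.exp 1 ^ 5 := by
      refine pow_le_pow_left₀ (by norm_num) (by linarith) 5
    refine le_trans ?_ h4
    norm_num
  -- first term
  have t1 : ((M / 3 : ℕ) : ℝ) * (H + Real.log 2 + Real.log 5) ≤ (M : ℝ) * ((H + 5) / 3) := by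
    have h6 : ((M / 3 : ℕ) : ℝ) ≤ (M : ℝ) / 3 := Nat.cast_div_le
    calc ((M / 3 : ℕ) : ℝ) * (H + Real.log 2 + Real.log 5) ≤ (M : ℝ) / 3 * (H + 5) :=
          mul_le_mul h6 (by linarith) (by linarith) (by positivity)
      _ = _ := by ring
  -- second term
  have hMs : ((M * s + 1 : ℕ) : ℝ) = M * s + 1 := by push_cast; ring
  have hMs0 : (0 : ℝ) < M * s := by positivity
  have hlogMs : Real.log ((M * s + 1 : ℕ) : ℝ) ≤ x + x / 1000 := by
    have h6 : ((M * s + 1 : ℕ) : ℝ) ≤ x * s := by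
      rw [hMs]
      nlinarith
    have h7 : Real.log ((M * s + 1 : ℕ) : ℝ) ≤ Real.log (x * s) :=
      Real.log_le_log (by rw [hMs]; linarith) h6
    rw [Real.log_mul (by linarith) (by linarith), hxs] at h7
    linarith
  have t2 : ((M * s + 1 : ℕ) : ℝ) / 2 * Real.log ((M * s + 1 : ℕ) : ℝ) ≤
      (M : ℝ) * (((s : ℝ) + 1) / 2 * (x + x / 1000)) := by
    have h6 : ((M * s + 1 : ℕ) : ℝ) / 2 ≤ (M : ℝ) * (((s : ℝ) + 1) / 2) := by
      rw [hMs]
      nlinarith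
    have h7 : 0 ≤ Real.log ((M * s + 1 : ℕ) : ℝ) := Real.log_nonneg (by rw [hMs]; linarith)
    calc ((M * s + 1 : ℕ) : ℝ) / 2 * Real.log ((M * s + 1 : ℕ) : ℝ)
        ≤ (M : ℝ) * (((s : ℝ) + 1) / 2) * (x + x / 1000) :=
          mul_le_mul h6 hlogMs h7 (by positivity)
      _ = _ := by ring
  -- third term
  have t3 : ((M * s : ℕ) : ℝ) * (M * Real.log 67) ≤ (M : ℝ) * (s * (x / 1000 * 5)) := by
    have h670 : 0 ≤ Real.log 67 := Real.log_nonneg (by norm_num)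
    have h6 : (M : ℝ) * Real.log 67 ≤ x / 1000 * 5 :=
      mul_le_mul hM2 h67 h670 (by positivity)
    push_cast
    calc (M : ℝ) * s * (M * Real.log 67) ≤ (M : ℝ) * s * (x / 1000 * 5) :=
          mul_le_mul_of_nonneg_left h6 (by positivity)
      _ = _ := by ring
  have t4 : (M : ℝ) * (94 / 100 * H) ≤ M * (1 - 1 / 20 - 12 * E) * H := by
    have h6 : (94 : ℝ) / 100 ≤ 1 - 1 / 20 - 12 * E := by linarith
    calc (M : ℝ) * (94 / 100 * H) = (94 / 100) * (M * H) := by ring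
      _ ≤ (1 - 1 / 20 - 12 * E) * (M * H) := mul_le_mul_of_nonneg_right h6 (by positivity)
      _ = _ := by ring
  have t5 : (H + 5) / 3 + ((s : ℝ) + 1) / 2 * (x + x / 1000) + s * (x / 1000 * 5) <
      94 / 100 * H := by
    have h6 : (100 : ℝ) * x ≤ s * x := by nlinarith
    have h7 : (100000000 : ℝ) * s ≤ s * x := by nlinarith
    nlinarith
  have t6 : (M : ℝ) * ((H + 5) / 3 + ((s : ℝ) + 1) / 2 * (x + x / 1000) +
      s * (x / 1000 * 5)) < M * (94 / 100 * H) :=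
    mul_lt_mul_of_pos_left t5 (by linarith)
  rw [mul_add, mul_add] at t6
  linarith

private theorem NumC_exp {δ K l : ℝ} (hδ : 0 < δ) (hK : 0 < K)
    (hl : K * (Nat.factorial 18 : ℝ) * (2 / δ) ^ 18 ≤ l) :
    K * l ^ 17 ≤ Real.exp (l * (δ / 2)) := by
  have hf : (0 : ℝ) < (Nat.factorial 18 : ℝ) := by exact_mod_cast Nat.factorial_pos 18
  have hl0 : 0 ≤ l := le_trans (by positivity) hl
  have h1 := Real.pow_div_factorial_le_exp (l * (δ / 2)) (by positivity) 18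
  refine le_trans ?_ h1
  rw [le_div_iff₀ hf]
  have h2 : K * (Nat.factorial 18 : ℝ) ≤ l * (δ / 2) ^ 18 := by
    have h3 : K * (Nat.factorial 18 : ℝ) * (2 / δ) ^ 18 * (δ / 2) ^ 18 ≤ l * (δ / 2) ^ 18 :=
      mul_le_mul_of_nonneg_right hl (by positivity)
    have h4 : (2 / δ) ^ 18 * (δ / 2) ^ 18 = 1 := by
      rw [← mul_pow]
      have : 2 / δ * (δ / 2) = 1 := by field_simp
      rw [this, one_pow]
    rwa [mul_assoc, h4, mul_one] at h3
  calc K * l ^ 17 * (Nat.factorial 18 : ℝ) = (K * (Nat.factorial 18 : ℝ)) * l ^ 17 := by ring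
    _ ≤ (l * (δ / 2) ^ 18) * l ^ 17 := mul_le_mul_of_nonneg_right h2 (by positivity)
    _ = (l * (δ / 2)) ^ 18 := by ring

/-- the powers of `2` -/
private theorem NumC_two {l a : ℝ} {L : ℕ} (hL1 : (L : ℝ) * Real.log 2 ≤ l * a)
    (hL2 : l * a < ((L : ℝ) + 1) * Real.log 2) :
    (2 : ℝ) ^ L ≤ Real.exp (l * a) ∧ Real.exp (l * a) ≤ 2 * 2 ^ L := by
  have h2 : Real.exp (Real.log 2) = 2 := Real.exp_log (by norm_num)
  constructor
  · calc (2 : ℝ) ^ L = Real.exp (L * Real.log 2) := by rw [Real.exp_nat_mul, h2]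
      _ ≤ Real.exp (l * a) := Real.exp_le_exp.2 hL1
  · calc Real.exp (l * a) ≤ Real.exp (((L : ℝ) + 1) * Real.log 2) := Real.exp_le_exp.2 hL2.le
      _ = Real.exp (((L + 1 : ℕ) : ℝ) * Real.log 2) := by push_cast; rfl
      _ = 2 ^ (L + 1) := by rw [Real.exp_nat_mul, h2]
      _ = 2 * 2 ^ L := by ring

/-- the bound for `n = Hd + 1 + L` -/
private theorem NumC_n {l a : ℝ} {L Hd : ℕ} (hl : 1 ≤ l) (ha : a ≤ 1 / 2)
    (hL1 : (L : ℝ) * Real.log 2 ≤ l * a) (hHd : Hd ≤ L) :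
    ((Hd + 1 + L : ℕ) : ℝ) ≤ 2 * l + 1 := by
  have h2 : (0.6931471803 : ℝ) < Real.log 2 := Real.log_two_gt_d9
  have hL0 : (0 : ℝ) ≤ L := Nat.cast_nonneg _
  have h3 : (L : ℝ) ≤ l := by
    have h4 : (L : ℝ) * 0.6931471803 ≤ l * (1 / 2) := by
      calc (L : ℝ) * 0.6931471803 ≤ L * Real.log 2 := mul_le_mul_of_nonneg_left h2.le hL0
        _ ≤ l * a := hL1
        _ ≤ l * (1 / 2) := mul_le_mul_of_nonneg_left ha (by linarith)
    linarith
  have h5 : (Hd : ℝ) ≤ L := by exact_mod_cast hHd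
  push_cast
  linarith

/-- the bound for the cost -/
private theorem NumC_Dc {x l a δ : ℝ} {L Hd M k : ℕ} (hl : 1 ≤ l) (hxl : Real.exp l = x)
    (hδ0 : 0 < δ) (ha : a = 1 / 2 - δ / 2) (hδ1 : δ ≤ 1 / 4)
    (hL1 : (L : ℝ) * Real.log 2 ≤ l * a) (hL2 : l * a < ((L : ℝ) + 1) * Real.log 2)
    (hk : 1 ≤ δ * k) (hHd : Hd = L / k) (hM : (M : ℝ) ≤ x / 4000) :
    ((Dc M (2 ^ L) Hd L : ℕ) : ℝ) ≤ 36 * l * Real.exp (l * (1 - a)) := by
  obtain ⟨h1, h2⟩ := NumC_two hL1 hL2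
  have hk0 : 0 < k := by
    rcases Nat.eq_zero_or_pos k with h | h
    · rw [h, Nat.cast_zero, mul_zero] at hk
      linarith
    · exact h
  have hHL : Hd ≤ L := by
    rw [hHd]
    exact Nat.div_le_self _ _
  have hn := NumC_n hl (by linarith) hL1 hHL
  have hp : (0 : ℝ) < 2 ^ L := by positivity
  have hE1 : 1 ≤ Real.exp (l * (1 - a)) := Real.one_le_exp (by nlinarith)
  -- the quotient
  have h3 : ((M / 2 ^ L : ℕ) : ℝ) ≤ Real.exp (l * (1 - a)) := by
    have h4 : ((M / 2 ^ L : ℕ) : ℝ) ≤ (M : ℝ) / ((2 ^ L : ℕ) : ℝ) := Nat.cast_div_le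
    push_cast at h4
    refine h4.trans ?_
    rw [div_le_iff₀ hp]
    have h5 : Real.exp (l * (1 - a)) * Real.exp (l * a) = x := by
      rw [← Real.exp_add, ← hxl]
      congr 1
      ring
    have h6 : Real.exp (l * (1 - a)) * Real.exp (l * a) ≤
        Real.exp (l * (1 - a)) * (2 * 2 ^ L) :=
      mul_le_mul_of_nonneg_left h2 (Real.exp_pos _).le
    rw [h5] at h6
    have hx0 : 0 < x := by
      rw [← hxl]
      exact Real.exp_pos _
    linarith
  -- the power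
  have h7 : (2 : ℝ) ^ (Hd + 1 + L) ≤ 2 * Real.exp (l * (1 - a)) := by
    have h8 : (2 : ℝ) ^ Hd ≤ Real.exp (l * a * δ) := by
      have h9 : (2 : ℝ) ^ Hd = Real.exp (Hd * Real.log 2) := by
        rw [Real.exp_nat_mul, Real.exp_log (by norm_num)]
      rw [h9]
      refine Real.exp_le_exp.2 ?_
      have h10 : ((L / k : ℕ) : ℝ) ≤ (L : ℝ) / k := Nat.cast_div_le
      rw [← hHd] at h10
      have hkr : (0 : ℝ) < k := by exact_mod_cast hk0
      have hlog : 0 ≤ Real.log 2 := Real.log_nonneg (by norm_num)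
      have h11 : (Hd : ℝ) ≤ L * δ := by
        refine h10.trans ?_
        rw [div_le_iff₀ hkr]
        calc (L : ℝ) = L * 1 := (mul_one _).symm
          _ ≤ L * (δ * k) := mul_le_mul_of_nonneg_left hk (Nat.cast_nonneg _)
          _ = L * δ * k := by ring
      calc (Hd : ℝ) * Real.log 2 ≤ (L * δ) * Real.log 2 := mul_le_mul_of_nonneg_right h11 hlog
        _ = (L * Real.log 2) * δ := by ring
        _ ≤ l * a * δ := mul_le_mul_of_nonneg_right hL1 hδ0.le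
    have h9 : (2 : ℝ) ^ (Hd + 1 + L) = 2 * (2 ^ Hd * 2 ^ L) := by
      rw [pow_add, pow_add, pow_one]
      ring
    rw [h9]
    refine mul_le_mul_of_nonneg_left ?_ (by norm_num)
    calc (2 : ℝ) ^ Hd * 2 ^ L ≤ Real.exp (l * a * δ) * Real.exp (l * a) :=
          mul_le_mul h8 h1 hp.le (Real.exp_pos _).le
      _ = Real.exp (l * a * δ + l * a) := (Real.exp_add _ _).symm
      _ ≤ Real.exp (l * (1 - a)) := by
          refine Real.exp_le_exp.2 ?_
          have h10 : l * a * δ + l * a = l * (a * (1 + δ)) := by ring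
          rw [h10]
          refine mul_le_mul_of_nonneg_left ?_ (by linarith)
          rw [ha]
          nlinarith [sq_nonneg δ]
  -- together
  have h12 : ((Dc M (2 ^ L) Hd L : ℕ) : ℝ) = ((M / 2 ^ L : ℕ) : ℝ) + 3 +
      (((M / 2 ^ L : ℕ) : ℝ) + 1) * (2 * ((Hd + 1 + L : ℕ) : ℝ) + 1) +
      (2 : ℝ) ^ (Hd + 1 + L) * (2 * ((Hd + 1 + L : ℕ) : ℝ) + 3) := by
    unfold Dc
    rw [Nat.cast_add, Nat.cast_add, Nat.cast_add, Nat.cast_mul, Nat.cast_mul, Nat.cast_add,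
      Nat.cast_add, Nat.cast_add, Nat.cast_mul, Nat.cast_pow]
    push_cast
    ring
  rw [h12]
  set q : ℝ := ((M / 2 ^ L : ℕ) : ℝ) with hq
  set m : ℝ := ((Hd + 1 + L : ℕ) : ℝ) with hm
  set E : ℝ := Real.exp (l * (1 - a)) with hE
  have hm0 : 0 ≤ m := Nat.cast_nonneg _
  have hq0 : 0 ≤ q := Nat.cast_nonneg _
  have e1 : (q + 1) * (2 * m + 1) ≤ (E + 1) * (7 * l) :=
    mul_le_mul (by linarith) (by linarith) (by linarith) (by linarith)
  have e2 : (2 : ℝ) ^ (Hd + 1 + L) * (2 * m + 3) ≤ (2 * E) * (9 * l) :=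
    mul_le_mul h7 (by linarith) (by linarith) (by linarith)
  have e3 : l ≤ l * E := le_mul_of_one_le_right (by linarith) hE1
  have e4 : E ≤ l * E := le_mul_of_one_le_left (by linarith) hl
  nlinarith

theorem num_mainr (ε : ℝ) (hε : 0 < ε) : ∃ C : ℝ, 0 < C ∧ ∃ s0 : ℕ, ∀ (s N : ℕ) (H : ℝ),
    s0 ≤ s → s * Real.log s - 2 * s ≤ H → C * (s * Real.log s ^ (1 / 2 + ε)) < N →
    (N : ℝ) ^ 2 ≤ 4 * ((s : ℝ) + 1) * En N H →
    ∃ (M b Hd L : ℕ) (A r : ℝ), 0 < b ∧ b ≤ M ∧ 240 ≤ M ∧ 2 ^ L ≤ M ∧ 1 ≤ A ∧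
      4 ^ (Hd + 1 + L) ≤ A ^ (Hd + 1) ∧ 0 < r ∧ r ≤ 1 / 64 ∧
      r * A * (90 * (2 * (Hd + 1 + L) + 1 : ℕ)) ≤ 1 ∧ 3 * M ≤ Nat.clog 2 N ∧
      40 * En N H < ((N : ℝ) / 2 ^ (3 * M)) ^ 2 ∧
      5200 * s * En N H / (N : ℝ) ^ 2 / etar r ^ 2 * Dc M b Hd L ≤ M / 12 ∧
      8 * (5200 * s * En N H / (N : ℝ) ^ 2) ≤ 2 ^ M ∧
      ((M / 3 : ℕ) : ℝ) * (H + Real.log 2 + Real.log 5) +
        ((M * s + 1 : ℕ) : ℝ) / 2 * Real.log ((M * s + 1 : ℕ) : ℝ) +
        ((M * s : ℕ) : ℝ) * (M * Real.log 67) <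
      M * (1 - 1 / 20 - 12 * En N H / (N : ℝ) ^ 2) * H := by
  obtain ⟨δ, hδd⟩ : ∃ δ, δ = min ε (1 / 4) := ⟨_, rfl⟩
  have hδ0 : 0 < δ := by
    rw [hδd]
    exact lt_min hε (by norm_num)
  have hδε : δ ≤ ε := by
    rw [hδd]
    exact min_le_left _ _
  have hδ1 : δ ≤ 1 / 4 := by
    rw [hδd]
    exact min_le_right _ _
  obtain ⟨a, ha⟩ : ∃ a : ℝ, a = 1 / 2 - δ / 2 := ⟨_, rfl⟩
  obtain ⟨k, hk⟩ : ∃ k : ℕ, 1 ≤ δ * k := by
    obtain ⟨k, hk⟩ := exists_nat_ge (1 / δ)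
    refine ⟨k, ?_⟩
    rw [div_le_iff₀ hδ0] at hk
    linarith
  have hk0 : 0 < k := by
    rcases Nat.eq_zero_or_pos k with h | h
    · rw [h, Nat.cast_zero, mul_zero] at hk
      linarith
    · exact h
  obtain ⟨A, hA⟩ : ∃ A : ℝ, A = 4 ^ (k + 1) := ⟨_, rfl⟩
  have hA1 : 4 ≤ A := by
    rw [hA, pow_succ]
    have : (1 : ℝ) ≤ 4 ^ k := one_le_pow₀ (by norm_num)
    linarith
  have hA0 : 0 < A := by linarith
  obtain ⟨K, hK⟩ : ∃ K : ℝ, K = 96000 * (36 * (63000 * A) ^ 16) := ⟨_, rfl⟩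
  have hK0 : 0 < K := by
    rw [hK]
    positivity
  obtain ⟨X0, hX0⟩ : ∃ X0 : ℝ, X0 = max (10 ^ 10)
      (Real.exp (K * (Nat.factorial 18 : ℝ) * (2 / δ) ^ 18)) := ⟨_, rfl⟩
  refine ⟨26000, by norm_num, ⌈Real.exp X0⌉₊, ?_⟩
  intro s N H hs0 hH hCN hsq
  have hs1 : Real.exp X0 ≤ s := (Nat.le_ceil _).trans (by exact_mod_cast hs0)
  have hs0' : (0 : ℝ) < s := lt_of_lt_of_le (Real.exp_pos _) hs1
  have hxX0 : X0 ≤ Real.log s := (Real.le_log_iff_exp_le hs0').2 hs1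
  have hx10 : (10 : ℝ) ^ 10 ≤ Real.log s := by
    refine le_trans ?_ hxX0
    rw [hX0]
    exact le_max_left _ _
  set x : ℝ := Real.log s with hx
  have hx1 : (10000000000 : ℝ) ≤ x := by
    have : ((10 : ℝ) ^ 10) = 10000000000 := by norm_num
    linarith
  have hx0 : (10 : ℝ) ^ 8 ≤ x := by
    have : ((10 : ℝ) ^ 8) = 100000000 := by norm_num
    linarith
  have hxpos : 0 < x := by linarith
  have hexpx : Real.exp x = s := Real.exp_log hs0'
  set l : ℝ := Real.log x with hl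
  have hxl : Real.exp l = x := Real.exp_log hxpos
  have hlK : K * (Nat.factorial 18 : ℝ) * (2 / δ) ^ 18 ≤ l := by
    rw [hl, Real.le_log_iff_exp_le hxpos]
    refine le_trans ?_ hxX0
    rw [hX0]
    exact le_max_right _ _
  have hKl := NumC_exp hδ0 hK0 hlK
  set y : ℝ := Real.exp (l / 4) with hy
  have hy0 : 0 < y := Real.exp_pos _
  have hyx : y ^ 4 = x := by
    rw [hy, ← Real.exp_nat_mul]
    have : ((4 : ℕ) : ℝ) * (l / 4) = l := by push_cast; ring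
    rw [this, hl, Real.exp_log hxpos]
  have hy1 : 100 ≤ y := by
    by_contra hcon
    rw [not_le] at hcon
    have h1 : y ^ 4 < 100 ^ 4 := pow_lt_pow_left₀ hcon hy0.le (by norm_num)
    rw [hyx] at h1
    norm_num at h1
    linarith
  have hly : l ≤ 4 * y := by
    have h1 : l / 4 + 1 ≤ y := Real.add_one_le_exp _
    linarith
  have hl1 : 1 ≤ l := by
    rw [hl, Real.le_log_iff_exp_le hxpos]
    have := Real.exp_one_lt_d9
    linarith
  have hsx : x ^ 2 / 2 ≤ s := by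
    rw [← hexpx]
    have := Real.quadratic_le_exp_of_nonneg hxpos.le
    linarith
  have hsx' : 50000000 * x ≤ s := by nlinarith
  -- the square root
  obtain ⟨w, hw⟩ : ∃ w : ℝ, w = Real.exp (l * (1 / 2)) := ⟨_, rfl⟩
  have hw0 : 0 < w := by
    rw [hw]
    exact Real.exp_pos _
  have hww : w * w = x := by
    rw [hw, ← Real.exp_add, ← hxl]
    congr 1
    ring
  have hw5 : 100000 ≤ w := by
    by_contra hcon
    rw [not_le] at hcon
    nlinarith
  have hwx : 100000 * w ≤ x := by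
    rw [← hww]
    exact mul_le_mul_of_nonneg_right hw5 hw0.le
  -- `N`
  have hP : Real.exp (l * (1 / 2 + δ)) ≤ x ^ (1 / 2 + ε) := by
    rw [Real.rpow_def_of_pos hxpos, ← hl]
    refine Real.exp_le_exp.2 (mul_le_mul_of_nonneg_left (by linarith) (by linarith))
  have hNlow : 26000 * (s * Real.exp (l * (1 / 2 + δ))) < N := by
    refine lt_of_le_of_lt ?_ hCN
    refine mul_le_mul_of_nonneg_left ?_ (by norm_num)
    exact mul_le_mul_of_nonneg_left hP hs0'.le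
  have hNs : (s : ℝ) ≤ N := by
    have h1 : 1 ≤ Real.exp (l * (1 / 2 + δ)) := Real.one_le_exp (by positivity)
    have h2 : (s : ℝ) ≤ s * Real.exp (l * (1 / 2 + δ)) := le_mul_of_one_le_right hs0'.le h1
    linarith
  have hNs' : s ≤ N := by exact_mod_cast hNs
  have hN0 : (0 : ℝ) < N := by linarith
  have hEn := NumC_en s N H hx0 hH hNs' hsq
  rw [← hx] at hEn
  have hEn0 : 0 ≤ En N H := by
    have h1 : 0 ≤ 4 * ((s : ℝ) + 1) * En N H := (sq_nonneg _).trans hsq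
    by_contra hcon
    rw [not_le] at hcon
    have h2 : (4 * ((s : ℝ) + 1)) * En N H < 0 := mul_neg_of_pos_of_neg (by positivity) hcon
    linarith
  have hENN : En N H / (N : ℝ) ^ 2 ≤ 5 * x / N := by
    rw [div_le_div_iff₀ (by positivity) hN0]
    calc En N H * N ≤ (5 * N * x) * N := mul_le_mul_of_nonneg_right hEn hN0.le
      _ = _ := by ring
  -- `Q`
  set Q : ℝ := 5200 * s * En N H / (N : ℝ) ^ 2 with hQ
  have hQ0 : 0 ≤ Q := by positivity
  have hQl : Q ≤ Real.exp (l * (1 / 2 - δ)) := by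
    have h1 : Q ≤ 26000 * (s * x) / N := by
      have h2 : Q = 5200 * s * (En N H / (N : ℝ) ^ 2) := by rw [hQ]; ring
      rw [h2]
      calc 5200 * s * (En N H / (N : ℝ) ^ 2) ≤ 5200 * s * (5 * x / N) :=
            mul_le_mul_of_nonneg_left hENN (by positivity)
        _ = _ := by ring
    refine h1.trans ?_
    rw [div_le_iff₀ hN0]
    have h3 : Real.exp (l * (1 / 2 - δ)) * Real.exp (l * (1 / 2 + δ)) = x := by
      rw [← Real.exp_add, ← hxl]
      congr 1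
      ring
    calc 26000 * (s * x) = Real.exp (l * (1 / 2 - δ)) *
          (26000 * (s * Real.exp (l * (1 / 2 + δ)))) := by rw [← h3]; ring
      _ ≤ Real.exp (l * (1 / 2 - δ)) * N :=
          mul_le_mul_of_nonneg_left hNlow.le (Real.exp_pos _).le
  have hQw : Q ≤ w := by
    refine hQl.trans ?_
    rw [hw]
    exact Real.exp_le_exp.2 (mul_le_mul_of_nonneg_left (by linarith) (by linarith))
  -- the parameters
  have hlog2 : 0 < Real.log 2 := Real.log_pos (by norm_num)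
  have ha0 : 0 < a := by linarith
  set L : ℕ := ⌊l * a / Real.log 2⌋₊ with hL
  have hL1 : (L : ℝ) * Real.log 2 ≤ l * a := by
    rw [← le_div_iff₀ hlog2]
    exact Nat.floor_le (by positivity)
  have hL2 : l * a < ((L : ℝ) + 1) * Real.log 2 := by
    rw [← div_lt_iff₀ hlog2]
    exact Nat.lt_floor_add_one _
  set M : ℕ := ⌊x / 4000⌋₊ with hM
  have hM1 : (M : ℝ) ≤ x / 4000 := Nat.floor_le (by positivity)
  have hM2 : x / 4000 < M + 1 := Nat.lt_floor_add_one _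
  set Hd : ℕ := L / k with hHd
  have hHL : Hd ≤ L := Nat.div_le_self _ _
  have hn := NumC_n hl1 (by linarith) hL1 hHL
  have hDc := NumC_Dc (M := M) hl1 hxl hδ0 ha hδ1 hL1 hL2 hk hHd hM1
  obtain ⟨h2L, -⟩ := NumC_two hL1 hL2
  have h2Lw : (2 : ℝ) ^ L ≤ w := by
    refine h2L.trans ?_
    rw [hw]
    exact Real.exp_le_exp.2 (mul_le_mul_of_nonneg_left (by linarith) (by linarith))
  have hM240 : 240 ≤ M := by
    have : (240 : ℝ) ≤ M := by linarith
    exact_mod_cast this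
  have hLM : 2 ^ L ≤ M := by
    have h1 : (2 : ℝ) ^ L ≤ M := by linarith
    exact_mod_cast h1
  obtain ⟨n1, hn1⟩ : ∃ n1 : ℝ, n1 = ((2 * (Hd + 1 + L) + 1 : ℕ) : ℝ) := ⟨_, rfl⟩
  have hn1' : n1 = 2 * ((Hd + 1 + L : ℕ) : ℝ) + 1 := by
    rw [hn1]
    push_cast
    ring
  have hn11 : 1 ≤ n1 := by
    rw [hn1']
    have : (0 : ℝ) ≤ ((Hd + 1 + L : ℕ) : ℝ) := Nat.cast_nonneg _
    linarith
  have hn7 : n1 ≤ 7 * l := by
    rw [hn1']
    linarith
  refine ⟨M, 2 ^ L, Hd, L, A, 1 / (A * (90 * n1)), by positivity, hLM, hM240, hLM, by linarith,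
    ?_, by positivity, ?_, ?_, ?_, ?_, ?_, ?_, ?_⟩
  · -- `4 ^ n ≤ A ^ (Hd + 1)`
    rw [hA, ← pow_mul]
    refine pow_le_pow_right₀ (by norm_num) ?_
    have h1 : L < k * (Hd + 1) := by
      rw [hHd]
      exact Nat.lt_mul_div_succ L hk0
    calc Hd + 1 + L ≤ Hd + 1 + k * (Hd + 1) := by omega
      _ = (k + 1) * (Hd + 1) := by ring
  · -- `r ≤ 1 / 64`
    refine one_div_le_one_div_of_le (by norm_num) ?_
    have h1 : (4 : ℝ) * (90 * 1) ≤ A * (90 * n1) :=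
      mul_le_mul hA1 (by linarith) (by norm_num) hA0.le
    linarith
  · have hr91 : (90 : ℝ) * ((2 * (Hd + 1 + L) + 1 : ℕ) : ℝ) = 90 * n1 := by rw [hn1]
    rw [hr91]
    have h1 : 1 / (A * (90 * n1)) * A * (90 * n1) = 1 := by
      have h2 : n1 ≠ 0 := by linarith
      field_simp
    exact h1.le
  · -- `3 M ≤ clog2 N`
    have h1 : N ≤ 2 ^ Nat.clog 2 N := Nat.le_pow_clog one_lt_two N
    have h2 : Real.log N ≤ (Nat.clog 2 N : ℝ) * Real.log 2 := by
      rw [← Real.log_pow]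
      refine Real.log_le_log hN0 ?_
      exact_mod_cast h1
    have h3 : x ≤ Real.log N := Real.log_le_log hs0' hNs
    have h4 : Real.log 2 ≤ 1 := by
      have := Real.log_le_sub_one_of_pos (show (0 : ℝ) < 2 by norm_num)
      linarith
    have h5 : (Nat.clog 2 N : ℝ) * Real.log 2 ≤ (Nat.clog 2 N : ℝ) * 1 :=
      mul_le_mul_of_nonneg_left h4 (Nat.cast_nonneg _)
    have h6 : 3 * (M : ℝ) ≤ (Nat.clog 2 N : ℝ) := by linarith
    exact_mod_cast h6
  · -- `40 En < (N / 2 ^ (3 M)) ^ 2`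
    have h1 : ((2 : ℝ) ^ (3 * M)) ^ 2 ≤ Real.exp (x / 500) := by
      have h2 : ((2 : ℝ) ^ (3 * M)) ^ 2 = 4 ^ (3 * M) := by
        rw [← pow_mul, mul_comm, pow_mul]
        norm_num
      have h3 : (4 : ℝ) ≤ Real.exp 2 := by
        have := Real.quadratic_le_exp_of_nonneg (show (0 : ℝ) ≤ 2 by norm_num)
        linarith
      rw [h2]
      calc (4 : ℝ) ^ (3 * M) ≤ Real.exp 2 ^ (3 * M) := pow_le_pow_left₀ (by norm_num) h3 _
        _ = Real.exp (((3 * M : ℕ) : ℝ) * 2) := by rw [← Real.exp_nat_mul]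
        _ ≤ Real.exp (x / 500) := Real.exp_le_exp.2 (by push_cast; linarith)
    have h2 : 200 * x * Real.exp (x / 500) < s := by
      have h3 : Real.exp (x / 500) ≤ Real.exp (x / 2) := Real.exp_le_exp.2 (by linarith)
      have h4 : 200 * x < Real.exp (x / 2) := by
        have := Real.quadratic_le_exp_of_nonneg (show 0 ≤ x / 2 by positivity)
        nlinarith
      have h5 : Real.exp (x / 2) * Real.exp (x / 2) = s := by
        rw [← Real.exp_add, add_halves, hexpx]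
      rw [← h5]
      have h6 : 0 < Real.exp (x / 500) := Real.exp_pos _
      calc 200 * x * Real.exp (x / 500) < Real.exp (x / 2) * Real.exp (x / 500) :=
            mul_lt_mul_of_pos_right h4 h6
        _ ≤ _ := mul_le_mul_of_nonneg_left h3 (Real.exp_pos _).le
    rw [div_pow, lt_div_iff₀ (by positivity)]
    calc 40 * En N H * ((2 : ℝ) ^ (3 * M)) ^ 2 ≤ 40 * (5 * N * x) * Real.exp (x / 500) :=
          mul_le_mul (by linarith) h1 (by positivity) (by positivity)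
      _ = (200 * x * Real.exp (x / 500)) * N := by ring
      _ < s * N := mul_lt_mul_of_pos_right h2 hN0
      _ ≤ N * N := mul_le_mul_of_nonneg_right hNs hN0.le
      _ = (N : ℝ) ^ 2 := by ring
  · -- the cost
    have h1 : Q / etar (1 / (A * (90 * n1))) ^ 2 = Q * (9000 * A * n1) ^ 16 := by
      unfold etar
      have h2 : n1 ≠ 0 := by linarith
      have h3 : A ≠ 0 := hA0.ne'
      have h4 : 1 / (A * (90 * n1)) / 100 = (9000 * A * n1)⁻¹ := by
        field_simp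
        norm_num
      rw [h4, ← pow_mul, inv_pow, div_inv_eq_mul]
    have h5 : (9000 * A * n1) ^ 16 ≤ (63000 * A) ^ 16 * l ^ 16 := by
      rw [← mul_pow]
      refine pow_le_pow_left₀ (by positivity) ?_ 16
      calc 9000 * A * n1 ≤ 9000 * A * (7 * l) := mul_le_mul_of_nonneg_left hn7 (by positivity)
        _ = 63000 * A * l := by ring
    rw [h1]
    have h6 : Q * (9000 * A * n1) ^ 16 ≤
        Real.exp (l * (1 / 2 - δ)) * ((63000 * A) ^ 16 * l ^ 16) :=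
      mul_le_mul hQl h5 (by positivity) (Real.exp_pos _).le
    have h7 : Q * (9000 * A * n1) ^ 16 * ((Dc M (2 ^ L) Hd L : ℕ) : ℝ) ≤
        Real.exp (l * (1 / 2 - δ)) * ((63000 * A) ^ 16 * l ^ 16) *
          (36 * l * Real.exp (l * (1 - a))) :=
      mul_le_mul h6 hDc (Nat.cast_nonneg _) (by positivity)
    have h8 : Real.exp (l * (1 / 2 - δ)) * Real.exp (l * (1 - a)) * Real.exp (l * (δ / 2)) = x := by
      rw [← Real.exp_add, ← Real.exp_add, ← hxl, ha]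
      congr 1
      ring
    have h9 : K * l ^ 17 * (Real.exp (l * (1 / 2 - δ)) * Real.exp (l * (1 - a))) ≤ x := by
      rw [← h8]
      calc K * l ^ 17 * (Real.exp (l * (1 / 2 - δ)) * Real.exp (l * (1 - a))) ≤
            Real.exp (l * (δ / 2)) * (Real.exp (l * (1 / 2 - δ)) * Real.exp (l * (1 - a))) :=
            mul_le_mul_of_nonneg_right hKl (by positivity)
        _ = _ := by ring
    have h10 : Real.exp (l * (1 / 2 - δ)) * ((63000 * A) ^ 16 * l ^ 16) *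
          (36 * l * Real.exp (l * (1 - a))) =
        K * l ^ 17 * (Real.exp (l * (1 / 2 - δ)) * Real.exp (l * (1 - a))) / 96000 := by
      rw [hK]
      ring
    rw [h10] at h7
    have h11 : K * l ^ 17 * (Real.exp (l * (1 / 2 - δ)) * Real.exp (l * (1 - a))) / 96000 ≤
        x / 96000 := div_le_div_of_nonneg_right h9 (by norm_num)
    refine (h7.trans h11).trans ?_
    linarith
  · -- `8 Q ≤ 2 ^ M`
    have h1 : (M : ℝ) < 2 ^ M := by exact_mod_cast Nat.lt_two_pow_self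
    linarith
  · have h1 : 12 * En N H / (N : ℝ) ^ 2 = 12 * (En N H / (N : ℝ) ^ 2) := by ring
    rw [h1]
    refine NumC_last s M H (En N H / (N : ℝ) ^ 2) x y rfl (by linarith) (by linarith) hy1 hyx
      hly hM240 (by linarith) hH ?_
    have h2 : 5 * x / N ≤ 1 / 1200 := by
      rw [div_le_div_iff₀ hN0 (by norm_num)]
      linarith
    linarith

end Pool.Agent.Ppr2
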