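import Pool.Agent.Ppr2.MainA
import Pool.Agent.Ppr2.NumC

/-!
# The theorem, second version
-/

namespace Pool.Agent.Ppr2

open Pool.Agent.Ppr Pool.Agent.Ppr.Sys

/-- from large `s` to all `s ≥ 3` -/
theorem sys_bound_of (F : ℕ → ℝ) (hF : ∀ s : ℕ, 3 ≤ s → 1 ≤ F s) (C : ℝ) (s0 : ℕ)
    (h : ∀ (ι : Type) [Fintype ι] [DecidableEq ι] (S : Sys ι), 3 ≤ S.D.primeFactors.card →
      s0 ≤ S.D.primeFactors.card → 2 ≤ Fintype.card ι →
      (Fintype.card ι : ℝ) ≤ C * F S.D.primeFactors.card) :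
    ∃ C : ℝ, 0 < C ∧ ∀ (ι : Type) [Fintype ι] [DecidableEq ι] (S : Sys ι),
      3 ≤ S.D.primeFactors.card → (Fintype.card ι : ℝ) ≤ C * F S.D.primeFactors.card := by
  obtain ⟨B, hB⟩ := num_small s0
  refine ⟨|C| + |B| + 1, by positivity, fun ι _ _ S hs => ?_⟩
  have hF1 := hF _ hs
  have key : ∀ a : ℝ, a ≤ |C| + |B| + 1 →
      a * F S.D.primeFactors.card ≤ (|C| + |B| + 1) * F S.D.primeFactors.card := fun a ha =>
    mul_le_mul_of_nonneg_right ha (by linarith)
  have hC1 := le_abs_self C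
  have hC2 := abs_nonneg C
  have hB2 := abs_nonneg B
  by_cases hN : 2 ≤ Fintype.card ι
  swap
  · have h1 : (Fintype.card ι : ℝ) ≤ 1 := by
      have : Fintype.card ι ≤ 1 := by omega
      exact_mod_cast this
    have h2 := key 1 (by linarith)
    linarith
  by_cases hs0 : s0 ≤ S.D.primeFactors.card
  · exact (h ι S hs hs0 hN).trans (key C (by linarith))
  · have hH := Hs_pos S hs
    have hsq := core_sq S hH hN
    rw [Es_eq] at hsq
    have h3 : (Fintype.card ι : ℝ) ≤ |B| := by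
      refine le_trans (hB _ (Fintype.card ι) (Hs S) (by omega) hH hsq ?_) (le_abs_self B)
      refine le_trans (card_le S) ?_
      have h4 : S.HH ≤ Hs S + Real.log 2 := by
        have := sum_hh S
        unfold Hs
        linarith
      have h5 : Real.exp S.HH ≤ 2 * Real.exp (Hs S) := by
        refine le_trans (Real.exp_le_exp.2 h4) ?_
        rw [Real.exp_add, Real.exp_log (by norm_num)]
        linarith [Real.exp_pos (Hs S)]
      linarith
    have h6 : |B| ≤ |B| * F S.D.primeFactors.card := le_mul_of_one_le_right hB2 hF1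
    exact h3.trans (h6.trans (key |B| (by linarith)))

/-- from systems to preperiodic points -/
theorem preper_of (F : ℕ → ℝ) (hF : ∀ s : ℕ, 3 ≤ s → 1 ≤ F s) (C : ℝ) (hC : 0 < C)
    (h : ∀ (ι : Type) [Fintype ι] [DecidableEq ι] (S : Sys ι),
      3 ≤ S.D.primeFactors.card → (Fintype.card ι : ℝ) ≤ C * F S.D.primeFactors.card)
    (c : ℚ) (hc : 3 ≤ c.den.primeFactors.card) :
    (PrePer c).Finite ∧ ((PrePer c).ncard : ℝ) ≤ C * F c.den.primeFactors.card := by
  have key : ∀ T : Finset ℚ, (T : Set ℚ) ⊆ PrePer c →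
      (T.card : ℝ) ≤ C * F c.den.primeFactors.card := by
    intro T hT
    by_cases hne : T.Nonempty
    · obtain ⟨ι, _, _, S, h1, h2⟩ := exists_sys c T hT hne
      have h3 := h ι S (by rw [h2]; exact hc)
      rw [h2] at h3
      exact le_trans (by exact_mod_cast h1) h3
    · rw [Finset.not_nonempty_iff_eq_empty.1 hne]
      have := hF _ hc
      simp only [Finset.card_empty, Nat.cast_zero]
      positivity
  have hfin : (PrePer c).Finite := by
    by_contra hinf
    obtain ⟨T, hT, hcard⟩ := Set.Infinite.exists_subset_card_eq hinf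
      (⌊C * F c.den.primeFactors.card⌋₊ + 1)
    have h1 := key T hT
    rw [hcard] at h1
    push_cast at h1
    have h2 := Nat.lt_floor_add_one (C * F c.den.primeFactors.card)
    linarith
  refine ⟨hfin, ?_⟩
  have h1 := key hfin.toFinset (by simp)
  rw [Set.ncard_eq_toFinset_card _ hfin]
  exact h1

/-- the bound for systems -/
theorem sys_bound2 (ε : ℝ) (hε : 0 < ε) : ∃ C : ℝ, 0 < C ∧ ∀ (ι : Type) [Fintype ι]
    [DecidableEq ι] (S : Sys ι), 3 ≤ S.D.primeFactors.card → (Fintype.card ι : ℝ) ≤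
      C * (S.D.primeFactors.card * Real.log S.D.primeFactors.card ^ (1 / 2 + ε)) := by
  obtain ⟨C, hC, s0, hmain⟩ := num_mainr ε hε
  refine sys_bound_of (fun s : ℕ => s * Real.log s ^ (1 / 2 + ε)) ?_ C s0 ?_
  · intro s hs
    have h3 : (3 : ℝ) ≤ s := by exact_mod_cast hs
    have he : Real.exp 1 < 3 := by
      have := Real.exp_one_lt_d9
      linarith
    have h1 : 1 ≤ Real.log s := by
      rw [Real.le_log_iff_exp_le (by linarith)]
      linarith
    have h2 : 1 ≤ Real.log s ^ (1 / 2 + ε) := Real.one_le_rpow h1 (by linarith)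
    nlinarith
  · intro ι _ _ S hs hs0 hN
    by_contra hcon
    push Not at hcon
    have hH := Hs_pos S hs
    have hsq := core_sq S hH hN
    rw [Es_eq] at hsq
    obtain ⟨M, b, Hd, L, A, r, h1, h2, h3, h4, h5, h6, h7, h8, h9, h10, h11, h12, h13, h14⟩ :=
      hmain S.D.primeFactors.card (Fintype.card ι) (Hs S) hs0 (Hs_ge S _ rfl hs) hcon hsq
    have := core2 S hH _ rfl (by omega) M b Hd L A r h1 h2 h3 h4 h5 h6 h7 h8 h9 h10
      (by rw [Es_eq]; exact h11) (by rw [Es_eq]; exact h12) (by rw [Es_eq]; exact h13)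
    rw [Es_eq] at this
    exact absurd h14 (not_lt.2 this)

/-- the theorem -/
theorem main_bound2 (ε : ℝ) (hε : 0 < ε) : ∃ C : ℝ, 0 < C ∧ ∀ c : ℚ,
    3 ≤ c.den.primeFactors.card → (PrePer c).Finite ∧ ((PrePer c).ncard : ℝ) ≤
      C * (c.den.primeFactors.card * Real.log c.den.primeFactors.card ^ (1 / 2 + ε)) := by
  obtain ⟨C, hC, h⟩ := sys_bound2 ε hε
  refine ⟨C, hC, fun c hc => ?_⟩
  refine preper_of (fun s : ℕ => s * Real.log s ^ (1 / 2 + ε)) ?_ C hC h c hc
  intro s hs
  have h3 : (3 : ℝ) ≤ s := by exact_mod_cast hs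
  have he : Real.exp 1 < 3 := by
    have := Real.exp_one_lt_d9
    linarith
  have h1 : 1 ≤ Real.log s := by
    rw [Real.le_log_iff_exp_le (by linarith)]
    linarith
  have h2 : 1 ≤ Real.log s ^ (1 / 2 + ε) := Real.one_le_rpow h1 (by linarith)
  nlinarith

end Pool.Agent.Ppr2
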