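import Pool.Agent.Ppr2.OntoA

/-!
# Independence of the jets, second version, part B

As `indep` in `Ppr/OntoB.lean`: let `(w0, j0)` maximise `|c w j| r^(-j)` over `Ws × range M`
(`(1/r)^j` instead of `64^j`); apply the hypothesis to `test_formr`.
-/

namespace Pool.Agent.Ppr2

open PowerSeries Pool.Agent.Ppr

variable {ι : Type} [Fintype ι] [DecidableEq ι]

theorem indepr {r : ℝ} (hr : 0 < r) (hr2 : r ≤ 1 / 64) (σ : ι → ι)
    (Ws : Finset (ι → Bool)) (M D : ℕ) (Q : ℝ) (hfull : ∀ w ∈ Ws, full σ w M)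
    (hsep : ∀ w ∈ Ws, ∀ w' ∈ Ws, w ≠ w' → ∃ g κ G, κ ≤ D ∧ IsSepr r σ M w w' g κ G)
    (hQ : ∀ w0 ∈ Ws, ∑ w ∈ Ws, (lamr r σ w M w0) ^ 2 ≤ Q)
    (hq : Q / etar r ^ 2 * D ≤ M / 12) (hM : 240 ≤ M)
    (hQM : 8 * Q ≤ 2 ^ M) (c : (ι → Bool) → ℕ → ℝ)
    (hc : ∀ G : MvPolynomial ι ℝ, G.IsHomogeneous (M / 3) →
      ∑ w ∈ Ws, ∑ j ∈ Finset.range M, c w j * coeff j (eps σ w G) = 0) :
    ∀ w ∈ Ws, ∀ j < M, c w j = 0 := by
  classical
  by_cases hWs : Ws.Nonempty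
  swap
  · intro w hw
    exact absurd ⟨w, hw⟩ hWs
  have hne : (Ws ×ˢ Finset.range M).Nonempty := by
    obtain ⟨w, hw⟩ := hWs
    exact ⟨(w, 0), Finset.mem_product.2 ⟨hw, Finset.mem_range.2 (by omega)⟩⟩
  obtain ⟨⟨w0, j0⟩, hmem, hmax⟩ := Finset.exists_max_image (Ws ×ˢ Finset.range M)
    (fun q : (ι → Bool) × ℕ => |c q.1 q.2| * (1 / r) ^ q.2) hne
  rw [Finset.mem_product] at hmem
  obtain ⟨hw0, hj0⟩ := hmem
  have hj0' : j0 < M := Finset.mem_range.1 hj0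
  have hmax' : ∀ w ∈ Ws, ∀ j < M, |c w j| * (1 / r) ^ j ≤ |c w0 j0| * (1 / r) ^ j0 := by
    intro w hw j hj
    exact hmax (w, j) (Finset.mem_product.2 ⟨hw, Finset.mem_range.2 hj⟩)
  obtain ⟨G, hG, hdvd, hsum⟩ := test_formr hr hr2 σ Ws M D Q hfull hsep hQ hq hM hQM w0 hw0
    j0
  have hc0 := hc G hG
  rw [← Finset.add_sum_erase Ws _ hw0] at hc0
  have hfirst : ∑ j ∈ Finset.range M, c w0 j * coeff j (eps σ w0 G) = c w0 j0 := by
    rw [Finset.sum_eq_single_of_mem j0 hj0]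
    · have h1 := (X_pow_dvd_iff.1 hdvd) j0 hj0'
      rw [map_sub, coeff_X_pow, if_pos rfl] at h1
      have h2 : coeff j0 (eps σ w0 G) = 1 := by linarith
      rw [h2, mul_one]
    · intro j hj hjne
      have h1 := (X_pow_dvd_iff.1 hdvd) j (Finset.mem_range.1 hj)
      rw [map_sub, coeff_X_pow, if_neg hjne] at h1
      have h2 : coeff j (eps σ w0 G) = 0 := by linarith
      rw [h2, mul_zero]
  rw [hfirst] at hc0
  have hpow : ∀ j : ℕ, (1 / r) ^ j * r ^ j = 1 := by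
    intro j
    rw [← mul_pow, one_div, inv_mul_cancel₀ hr.ne', one_pow]
  have hA : 0 ≤ |c w0 j0| * (1 / r) ^ j0 := by positivity
  have hrest : |∑ w ∈ Ws.erase w0, ∑ j ∈ Finset.range M, c w j * coeff j (eps σ w G)|
      ≤ (|c w0 j0| * (1 / r) ^ j0) * ∑ w ∈ Ws.erase w0, nrmr r M (eps σ w G) := by
    rw [Finset.mul_sum]
    refine (Finset.abs_sum_le_sum_abs _ _).trans (Finset.sum_le_sum fun w hw => ?_)
    unfold nrmr
    rw [Finset.mul_sum]
    refine (Finset.abs_sum_le_sum_abs _ _).trans (Finset.sum_le_sum fun j hj => ?_)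
    rw [abs_mul]
    have h1 : |c w j| * |coeff j (eps σ w G)|
        = (|c w j| * (1 / r) ^ j) * (|coeff j (eps σ w G)| * r ^ j) := by
      calc |c w j| * |coeff j (eps σ w G)|
          = |c w j| * |coeff j (eps σ w G)| * ((1 / r) ^ j * r ^ j) := by
            rw [hpow, mul_one]
        _ = _ := by ring
    rw [h1]
    exact mul_le_mul_of_nonneg_right
      (hmax' w (Finset.mem_of_mem_erase hw) j (Finset.mem_range.1 hj)) (by positivity)
  have hle : |c w0 j0| ≤ |c w0 j0| / 2 := by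
    have h1 : c w0 j0
        = -∑ w ∈ Ws.erase w0, ∑ j ∈ Finset.range M, c w j * coeff j (eps σ w G) := by
      linarith
    have h2 : |c w0 j0| ≤ (|c w0 j0| * (1 / r) ^ j0) * (r ^ j0 / 2) := by
      calc |c w0 j0|
          = |∑ w ∈ Ws.erase w0, ∑ j ∈ Finset.range M, c w j * coeff j (eps σ w G)| := by
            conv_lhs => rw [h1]
            rw [abs_neg]
        _ ≤ (|c w0 j0| * (1 / r) ^ j0) * ∑ w ∈ Ws.erase w0, nrmr r M (eps σ w G) := hrest
        _ ≤ (|c w0 j0| * (1 / r) ^ j0) * (r ^ j0 / 2) :=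
            mul_le_mul_of_nonneg_left hsum hA
    have h3 : (|c w0 j0| * (1 / r) ^ j0) * (r ^ j0 / 2) = |c w0 j0| / 2 := by
      calc (|c w0 j0| * (1 / r) ^ j0) * (r ^ j0 / 2)
          = |c w0 j0| / 2 * ((1 / r) ^ j0 * r ^ j0) := by ring
        _ = _ := by rw [hpow, mul_one]
    rw [h3] at h2
    exact h2
  have hzero : |c w0 j0| = 0 := by
    have := abs_nonneg (c w0 j0)
    linarith
  intro w hw j hj
  have h1 := hmax' w hw j hj
  rw [hzero, zero_mul] at h1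
  have h2 : |c w j| = 0 := by
    have h3 : (0 : ℝ) < (1 / r) ^ j := by positivity
    have h4 := abs_nonneg (c w j)
    nlinarith
  exact abs_eq_zero.1 h2

end Pool.Agent.Ppr2
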