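import Pool.Agent.Ppr2.MajDef

/-!
# Majorants, part A: the balls

`bl_mul`: for `f = ∑ c_P χ_P`, `g = ∑ d_P' χ_P'` (`χ_P = ∏_{p ∈ P} ε_p`) one has
`χ_P χ_P' = χ_(P ∆ P')` (`symmDiff`, signs square to `1`: `∏_P ∏_P' = ∏_(P∖P') ∏_(P'∖P)
(∏_(P∩P'))^2`), `2^|P ∆ P'| ≤ 2^|P| 2^|P'|`. Take as new index set the image of the pairs under
`symmDiff` and as coefficients the sums over the fibres (`Finset.sum_fiberwise`-type identity).
A convenient way: prove first `bl_sum` for finite sums of balls (from `bl_add`) and write the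
product as a finite sum over pairs of `c_P d_P' χ_(P ∆ P')`, each of which is in the ball of radius
`|c_P| |d_P'| 2^|P| 2^|P'|` (`bl_chi`).
`bl_add`: index set `s ∪ s'`, coefficients extended by `0`
(`if P ∈ s then c P else 0`) `+` the same.
`bl_eval`: `∑ κ f = ∑_P c_P SW P`, so `|∑ κ f| 2^g ≤ ∑ |c_P| |SW P| 2^g ≤ ∑ |c_P| 2^|P| T ≤ R T`.
-/

namespace Pool.Agent.Ppr2

open PowerSeries Pool.Agent.Ppr

variable {Po Ω : Type} [DecidableEq Po] {good : Po → Prop} {dep : Po → ℕ}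
  {ε : Po → Ω → Bool}

theorem bl_mono {k k' : ℕ} {R R' : ℝ} {f : Ω → ℝ} (h : Bl good dep ε k R f) (hk : k ≤ k')
    (hR : R ≤ R') : Bl good dep ε k' R' f := by
  obtain ⟨s, c, h1, h2, h3⟩ := h
  exact ⟨s, c, fun P hP p hp => ⟨(h1 P hP p hp).1, (h1 P hP p hp).2.trans hk⟩, h2, h3.trans hR⟩

theorem bl_zero (k : ℕ) : Bl good dep ε k 0 (fun _ => 0) :=
  ⟨∅, fun _ => 0, by simp, by simp, by simp⟩

/-- one product of signs -/
theorem bl_chi {k : ℕ} (a : ℝ) {P : Finset Po} (h : ∀ p ∈ P, good p ∧ dep p ≤ k) :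
    Bl good dep ε k (|a| * 2 ^ P.card) (fun ω => a * ∏ p ∈ P, (sg (ε p ω) : ℝ)) := by
  refine ⟨{P}, fun _ => a, ?_, ?_, ?_⟩
  · intro P' hP'
    rw [Finset.mem_singleton] at hP'
    rw [hP']
    exact h
  · intro ω
    rw [Finset.sum_singleton]
  · rw [Finset.sum_singleton]

theorem bl_add {k : ℕ} {R R' : ℝ} {f g : Ω → ℝ} (hf : Bl good dep ε k R f)
    (hg : Bl good dep ε k R' g) : Bl good dep ε k (R + R') (fun ω => f ω + g ω) := by
  obtain ⟨s, c, h1, h2, h3⟩ := hf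
  obtain ⟨s', c', h1', h2', h3'⟩ := hg
  have key : ∀ (φ ψ : Finset Po → ℝ), ∑ P ∈ s ∪ s', ((if P ∈ s then φ P else 0) +
      (if P ∈ s' then ψ P else 0)) = ∑ P ∈ s, φ P + ∑ P ∈ s', ψ P := by
    intro φ ψ
    rw [Finset.sum_add_distrib]
    congr 1
    · rw [Finset.sum_ite_mem, Finset.inter_eq_right.2 Finset.subset_union_left]
    · rw [Finset.sum_ite_mem, Finset.inter_eq_right.2 Finset.subset_union_right]
  refine ⟨s ∪ s', fun P => (if P ∈ s then c P else 0) + (if P ∈ s' then c' P else 0), ?_, ?_, ?_⟩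
  · intro P hP
    rcases Finset.mem_union.1 hP with h | h
    · exact h1 P h
    · exact h1' P h
  · intro ω
    show f ω + g ω = _
    rw [h2 ω, h2' ω, ← key]
    refine Finset.sum_congr rfl fun P _ => ?_
    rw [add_mul, ite_mul, ite_mul, zero_mul]
  · refine le_trans ?_ (add_le_add h3 h3')
    rw [← key]
    refine Finset.sum_le_sum fun P _ => ?_
    have h4 : |(if P ∈ s then c P else 0) + (if P ∈ s' then c' P else 0)| ≤
        (if P ∈ s then |c P| else 0) + (if P ∈ s' then |c' P| else 0) := by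
      refine (abs_add_le _ _).trans (add_le_add ?_ ?_)
      · split_ifs <;> simp
      · split_ifs <;> simp
    refine (mul_le_mul_of_nonneg_right h4 (by positivity)).trans (le_of_eq ?_)
    rw [add_mul, ite_mul, ite_mul, zero_mul]

theorem bl_sum {α : Type} (s : Finset α) {k : ℕ} (R : α → ℝ) (f : α → Ω → ℝ)
    (h : ∀ a ∈ s, Bl good dep ε k (R a) (f a)) :
    Bl good dep ε k (∑ a ∈ s, R a) (fun ω => ∑ a ∈ s, f a ω) := by
  classical
  induction s using Finset.induction_on with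
  | empty => simpa using bl_zero (good := good) (dep := dep) (ε := ε) k
  | insert a s ha ih =>
    have h1 := bl_add (h a (Finset.mem_insert_self a s))
      (ih fun b hb => h b (Finset.mem_insert_of_mem hb))
    rw [Finset.sum_insert ha]
    have h2 : (fun ω => ∑ b ∈ insert a s, f b ω) = fun ω => f a ω + ∑ b ∈ s, f b ω := by
      funext ω
      rw [Finset.sum_insert ha]
    rw [h2]
    exact h1

theorem bl_smul {k : ℕ} {R : ℝ} {f : Ω → ℝ} (a : ℝ) (hf : Bl good dep ε k R f) :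
    Bl good dep ε k (|a| * R) (fun ω => a * f ω) := by
  obtain ⟨s, c, h1, h2, h3⟩ := hf
  refine ⟨s, fun P => a * c P, h1, ?_, ?_⟩
  · intro ω
    show a * f ω = _
    rw [h2 ω, Finset.mul_sum]
    exact Finset.sum_congr rfl fun P _ => by ring
  · have h4 : ∑ P ∈ s, |a * c P| * 2 ^ P.card = |a| * ∑ P ∈ s, |c P| * 2 ^ P.card := by
      rw [Finset.mul_sum]
      exact Finset.sum_congr rfl fun P _ => by rw [abs_mul]; ring
    rw [h4]
    exact mul_le_mul_of_nonneg_left h3 (abs_nonneg a)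

private theorem sg_sq_MajA (b : Bool) : (sg b : ℝ) * (sg b : ℝ) = 1 := by
  cases b <;> simp [sg]

private theorem chi_mul_MajA (P P' : Finset Po) (x : Po → ℝ) (hx : ∀ p, x p * x p = 1) :
    (∏ p ∈ P, x p) * ∏ p ∈ P', x p = ∏ p ∈ (P \ P') ∪ (P' \ P), x p := by
  have hd : Disjoint (P \ P') (P' \ P) := by
    rw [Finset.disjoint_left]
    intro p hp hp'
    exact (Finset.mem_sdiff.1 hp').2 (Finset.mem_sdiff.1 hp).1
  have h1 : ∏ p ∈ P, x p = (∏ p ∈ P \ P', x p) * ∏ p ∈ P ∩ P', x p := by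
    rw [← Finset.prod_union (Finset.disjoint_sdiff_inter P P'), Finset.sdiff_union_inter]
  have h2 : ∏ p ∈ P', x p = (∏ p ∈ P' \ P, x p) * ∏ p ∈ P ∩ P', x p := by
    rw [Finset.inter_comm P P', ← Finset.prod_union (Finset.disjoint_sdiff_inter P' P),
      Finset.sdiff_union_inter]
  have h3 : (∏ p ∈ P ∩ P', x p) * ∏ p ∈ P ∩ P', x p = 1 := by
    rw [← Finset.prod_mul_distrib]
    exact Finset.prod_eq_one fun p _ => hx p
  rw [Finset.prod_union hd, h1, h2]
  calc _ = (∏ p ∈ P \ P', x p) * (∏ p ∈ P' \ P, x p) *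
        ((∏ p ∈ P ∩ P', x p) * ∏ p ∈ P ∩ P', x p) := by ring
    _ = _ := by rw [h3, mul_one]

theorem bl_mul {k : ℕ} {R R' : ℝ} {f g : Ω → ℝ} (hf : Bl good dep ε k R f)
    (hg : Bl good dep ε k R' g) : Bl good dep ε k (R * R') (fun ω => f ω * g ω) := by
  obtain ⟨s, c, h1, h2, h3⟩ := hf
  obtain ⟨s', c', h1', h2', h3'⟩ := hg
  have hR' : 0 ≤ R' := le_trans (Finset.sum_nonneg fun P _ => by positivity) h3'
  have h4 := bl_sum (good := good) (dep := dep) (ε := ε) (k := k) (s ×ˢ s')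
    (fun q => (|c q.1| * 2 ^ q.1.card) * (|c' q.2| * 2 ^ q.2.card))
    (fun q ω => (c q.1 * c' q.2) * ∏ p ∈ (q.1 \ q.2) ∪ (q.2 \ q.1), (sg (ε p ω) : ℝ))
    (by
      intro q hq
      obtain ⟨hq1, hq2⟩ := Finset.mem_product.1 hq
      refine bl_mono (bl_chi (c q.1 * c' q.2) ?_) le_rfl ?_
      · intro p hp
        rcases Finset.mem_union.1 hp with h | h
        · exact h1 q.1 hq1 p (Finset.mem_sdiff.1 h).1
        · exact h1' q.2 hq2 p (Finset.mem_sdiff.1 h).1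
      · have h5 : ((q.1 \ q.2) ∪ (q.2 \ q.1)).card ≤ q.1.card + q.2.card :=
          (Finset.card_union_le _ _).trans
            (add_le_add (Finset.card_le_card Finset.sdiff_subset)
              (Finset.card_le_card Finset.sdiff_subset))
        have h6 : (2 : ℝ) ^ ((q.1 \ q.2) ∪ (q.2 \ q.1)).card ≤ 2 ^ q.1.card * 2 ^ q.2.card := by
          rw [← pow_add]
          exact pow_le_pow_right₀ (by norm_num) h5
        rw [abs_mul]
        calc |c q.1| * |c' q.2| * 2 ^ ((q.1 \ q.2) ∪ (q.2 \ q.1)).card ≤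
              |c q.1| * |c' q.2| * (2 ^ q.1.card * 2 ^ q.2.card) :=
                mul_le_mul_of_nonneg_left h6 (by positivity)
          _ = _ := by ring)
  have h7 : (fun ω => f ω * g ω) = fun ω => ∑ q ∈ s ×ˢ s', (c q.1 * c' q.2) *
      ∏ p ∈ (q.1 \ q.2) ∪ (q.2 \ q.1), (sg (ε p ω) : ℝ) := by
    funext ω
    rw [h2 ω, h2' ω, Finset.sum_mul_sum, ← Finset.sum_product']
    refine Finset.sum_congr rfl fun q _ => ?_
    rw [← chi_mul_MajA q.1 q.2 (fun p => (sg (ε p ω) : ℝ)) (fun p => sg_sq_MajA _)]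
    ring
  rw [h7]
  refine bl_mono h4 le_rfl ?_
  rw [Finset.sum_product' (f := fun P P' => (|c P| * 2 ^ P.card) * (|c' P'| * 2 ^ P'.card)),
    ← Finset.sum_mul_sum]
  exact mul_le_mul h3 h3' (Finset.sum_nonneg fun P _ => by positivity)
    (le_trans (Finset.sum_nonneg fun P _ => by positivity) h3)

theorem bl_nonneg {k : ℕ} {R : ℝ} {f : Ω → ℝ} (hf : Bl good dep ε k R f) : 0 ≤ R := by
  obtain ⟨s, c, -, -, h3⟩ := hf
  exact le_trans (Finset.sum_nonneg fun P _ => by positivity) h3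

theorem bl_eval [Fintype Ω] (κ : Ω → ℝ) {k g : ℕ} {R T : ℝ} {f : Ω → ℝ}
    (hf : Bl good dep ε k R f)
    (hT : ∀ P : Finset Po, (∀ p ∈ P, good p ∧ dep p ≤ k) →
      |SW κ ε P| * 2 ^ g ≤ 2 ^ P.card * T) : |∑ ω, κ ω * f ω| * 2 ^ g ≤ R * T := by
  obtain ⟨s, c, h1, h2, h3⟩ := hf
  have hT0 : 0 ≤ T := by
    have h := hT ∅ (by simp)
    rw [Finset.card_empty, pow_zero, one_mul] at h
    exact le_trans (by positivity) h
  have h4 : ∑ ω, κ ω * f ω = ∑ P ∈ s, c P * SW κ ε P := by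
    have h5 : ∀ ω, κ ω * f ω = ∑ P ∈ s, c P * (κ ω * ∏ p ∈ P, (sg (ε p ω) : ℝ)) := by
      intro ω
      rw [h2 ω, Finset.mul_sum]
      exact Finset.sum_congr rfl fun P _ => by ring
    rw [Finset.sum_congr rfl fun ω _ => h5 ω, Finset.sum_comm]
    refine Finset.sum_congr rfl fun P _ => ?_
    rw [SW, Finset.mul_sum]
  have h6 : |∑ ω, κ ω * f ω| ≤ ∑ P ∈ s, |c P| * |SW κ ε P| := by
    rw [h4]
    refine (Finset.abs_sum_le_sum_abs _ _).trans (le_of_eq ?_)
    exact Finset.sum_congr rfl fun P _ => abs_mul _ _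
  calc |∑ ω, κ ω * f ω| * 2 ^ g ≤ (∑ P ∈ s, |c P| * |SW κ ε P|) * 2 ^ g :=
        mul_le_mul_of_nonneg_right h6 (by positivity)
    _ = ∑ P ∈ s, |c P| * (|SW κ ε P| * 2 ^ g) := by
        rw [Finset.sum_mul]
        exact Finset.sum_congr rfl fun P _ => by ring
    _ ≤ ∑ P ∈ s, |c P| * (2 ^ P.card * T) :=
        Finset.sum_le_sum fun P hP => mul_le_mul_of_nonneg_left (hT P (h1 P hP)) (abs_nonneg _)
    _ = (∑ P ∈ s, |c P| * 2 ^ P.card) * T := by
        rw [Finset.sum_mul]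
        exact Finset.sum_congr rfl fun P _ => by ring
    _ ≤ R * T := mul_le_mul_of_nonneg_right h3 hT0

end Pool.Agent.Ppr2
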