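import Pool.Agent.Ppr2.MajA

/-!
# Majorants, part B: the coefficients of `Y`

`bl_Z`: strong induction on `j` for all good positions `p`. Write `v_ω k = ε (nx^[k] p) ω`.
`Z 0 v = sg (v 0)` (radius `2`: `bl_chi 1 {p}`). The recursion (as in `Ppr/BndA.lean`, private
`two_Z_succ`; copy it): `2 Z (k+1) v = sg (v 0) (4 Z k (sh v) - ∑_{a<k} Z (a+1) v Z (k-a) v)`, so
`Z (k+1) v = (1/2) sg (v 0) (…)`: radius `(1/2) · 2 · (4 Rz k + ∑ Rz (a+1) Rz (k-a))`, and
`sh v` is the word of the position `nx p` with `dep (nx p) ≤ dep p + 1`.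
`Rz_sum`: with `ρ j = Rz j / 2`, `B_M = ∑_{1 ≤ j ≤ M} ρ j x^j`:
`B_(M+1) ≤ 4 x (1 + B_M) + 2 B_M^2` and `4x + 160 x^2 ≤ 8x` for `x ≤ 1/40`; so `B_M ≤ 8 x` by
induction (the same double sum as `partial_sum_le` in `Ppr/BndA.lean`). `Rz_nonneg` by strong
induction.
-/

namespace Pool.Agent.Ppr2

open PowerSeries Pool.Agent.Ppr

variable {Po Ω : Type} [DecidableEq Po] {good : Po → Prop} {dep : Po → ℕ}
  {ε : Po → Ω → Bool} {nxt : Po → Po}

private theorem MajB_Rz_zero : Rz 0 = 2 := by rw [Rz]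

private theorem MajB_Rz_succ (k : ℕ) :
    Rz (k + 1) = 4 * Rz k + ∑ a ∈ Finset.range k, Rz (a + 1) * Rz (k - a) := by
  rw [Rz, Fin.sum_univ_eq_sum_range (fun a => Rz (a + 1) * Rz (k - a)) k]

theorem Rz_nonneg (k : ℕ) : 0 ≤ Rz k := by
  induction k using Nat.strong_induction_on with
  | _ k ih =>
    rcases k with _ | k
    · rw [MajB_Rz_zero]
      norm_num
    · rw [MajB_Rz_succ]
      have h1 := ih k (Nat.lt_succ_self k)
      have h2 : 0 ≤ ∑ a ∈ Finset.range k, Rz (a + 1) * Rz (k - a) := by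
        refine Finset.sum_nonneg fun a ha => ?_
        rw [Finset.mem_range] at ha
        exact mul_nonneg (ih _ (by omega)) (ih _ (by omega))
      linarith

private theorem MajB_conv_le (A : ℕ → ℝ) (hA : ∀ i, 0 ≤ A i) (M : ℕ) :
    ∑ k ∈ Finset.range M, ∑ a ∈ Finset.range (k + 1), A a * A (k - a) ≤
      (∑ i ∈ Finset.range M, A i) ^ 2 := by
  classical
  have h0 : ∑ k ∈ Finset.range M, ∑ a ∈ Finset.range (k + 1), A a * A (k - a) =
      ∑ k ∈ Finset.range M, ∑ p ∈ Finset.HasAntidiagonal.antidiagonal k, A p.1 * A p.2 := by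
    refine Finset.sum_congr rfl fun k _ => ?_
    rw [Finset.Nat.sum_antidiagonal_eq_sum_range_succ (fun i j => A i * A j)]
  have h2 : ∑ j ∈ Finset.range M, ∑ p ∈ Finset.HasAntidiagonal.antidiagonal j, A p.1 * A p.2 =
      ∑ p ∈ (Finset.range M ×ˢ Finset.range M).filter (fun p => p.1 + p.2 < M),
        A p.1 * A p.2 := by
    rw [← Finset.sum_fiberwise_of_maps_to (t := Finset.range M)
      (g := fun p : ℕ × ℕ => p.1 + p.2)]
    · refine Finset.sum_congr rfl fun j hj => Finset.sum_congr ?_ fun _ _ => rfl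
      rw [Finset.mem_range] at hj
      ext p
      simp only [Finset.HasAntidiagonal.mem_antidiagonal, Finset.mem_filter, Finset.mem_product,
        Finset.mem_range]
      constructor
      · intro h; omega
      · intro h; exact h.2
    · intro p hp
      simp only [Finset.mem_filter] at hp
      exact Finset.mem_range.mpr hp.2
  rw [h0, h2, sq, Finset.sum_mul_sum, ← Finset.sum_product']
  exact Finset.sum_le_sum_of_subset_of_nonneg (Finset.filter_subset _ _)
    fun p _ _ => mul_nonneg (hA _) (hA _)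

/-- the sum without the first term -/
private theorem MajB_tail {x : ℝ} (hx : 0 ≤ x) (hx2 : x ≤ 1 / 40) (M : ℕ) :
    ∑ j ∈ Finset.range M, Rz (j + 1) * x ^ (j + 1) ≤ 16 * x := by
  induction M with
  | zero =>
    rw [Finset.range_zero, Finset.sum_empty]
    positivity
  | succ M ih =>
    have e2 : ∑ k ∈ Finset.range (M + 1), Rz (k + 1) * x ^ (k + 1) =
        4 * x * ∑ k ∈ Finset.range (M + 1), Rz k * x ^ k +
        ∑ k ∈ Finset.range (M + 1), ∑ a ∈ Finset.range k,
          (Rz (a + 1) * x ^ (a + 1)) * (Rz (k - a) * x ^ (k - a)) := by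
      rw [Finset.mul_sum, ← Finset.sum_add_distrib]
      refine Finset.sum_congr rfl fun k _ => ?_
      rw [MajB_Rz_succ, add_mul, Finset.sum_mul, pow_succ]
      congr 1
      · ring
      · refine Finset.sum_congr rfl fun a ha => ?_
        rw [Finset.mem_range] at ha
        have : x ^ k * x = x ^ (a + 1) * x ^ (k - a) := by
          rw [← pow_add, ← pow_succ]
          congr 1
          omega
        rw [this]
        ring
    have e3 : ∑ k ∈ Finset.range (M + 1), Rz k * x ^ k ≤ 2 + 16 * x := by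
      rw [Finset.sum_range_succ', MajB_Rz_zero, pow_zero]
      linarith
    have e4 : ∑ k ∈ Finset.range (M + 1), ∑ a ∈ Finset.range k,
          (Rz (a + 1) * x ^ (a + 1)) * (Rz (k - a) * x ^ (k - a)) ≤ (16 * x) ^ 2 := by
      rw [Finset.sum_range_succ']
      simp only [Finset.range_zero, Finset.sum_empty, add_zero]
      have hc := MajB_conv_le (fun i => Rz (i + 1) * x ^ (i + 1))
        (fun i => mul_nonneg (Rz_nonneg _) (pow_nonneg hx _)) M
      have e5 : ∑ k ∈ Finset.range M, ∑ a ∈ Finset.range (k + 1),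
          (Rz (a + 1) * x ^ (a + 1)) * (Rz (k + 1 - a) * x ^ (k + 1 - a)) =
          ∑ k ∈ Finset.range M, ∑ a ∈ Finset.range (k + 1),
          (Rz (a + 1) * x ^ (a + 1)) * (Rz (k - a + 1) * x ^ (k - a + 1)) := by
        refine Finset.sum_congr rfl fun k _ => Finset.sum_congr rfl fun a ha => ?_
        rw [Finset.mem_range] at ha
        rw [show k + 1 - a = k - a + 1 by omega]
      rw [e5]
      refine hc.trans ?_
      exact pow_le_pow_left₀ (Finset.sum_nonneg fun _ _ =>
        mul_nonneg (Rz_nonneg _) (pow_nonneg hx _)) ih 2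
    have e6 : 4 * x * ∑ k ∈ Finset.range (M + 1), Rz k * x ^ k ≤ 4 * x * (2 + 16 * x) :=
      mul_le_mul_of_nonneg_left e3 (by positivity)
    rw [e2]
    nlinarith

theorem Rz_sum {x : ℝ} (hx : 0 ≤ x) (hx2 : x ≤ 1 / 40) (M : ℕ) :
    ∑ j ∈ Finset.range M, Rz j * x ^ j ≤ 2 * (1 + 8 * x) := by
  rcases M with _ | M
  · rw [Finset.range_zero, Finset.sum_empty]
    positivity
  · rw [Finset.sum_range_succ', MajB_Rz_zero, pow_zero]
    have := MajB_tail hx hx2 M
    linarith

private theorem MajB_two_Z_succ (k : ℕ) (v : ℕ → Bool) :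
    2 * Z (k + 1) v = sg (v 0) * (4 * Z k (sh v) -
      ∑ a ∈ Finset.range k, Z (a + 1) v * Z (k - a) v) := by
  have h1 : Z (k + 1) v = 2 * W (k + 1) v := rfl
  have h2 : W (k + 1) v = sg (v 0) * ((if k = 0 then 1 else 2) * W k (sh v) -
      ∑ a : Fin k, W (a.1 + 1) v * W (k - a.1) v) := by rw [W]
  have h3 : (if k = 0 then 1 else 2) * W k (sh v) = Z k (sh v) := by
    unfold Z
    split_ifs with h
    · subst h
      rw [one_mul]
      rw [W]
    · rfl
  have h4 : ∑ a ∈ Finset.range k, Z (a + 1) v * Z (k - a) v =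
      4 * ∑ a : Fin k, W (a.1 + 1) v * W (k - a.1) v := by
    rw [Fin.sum_univ_eq_sum_range (fun a => W (a + 1) v * W (k - a) v), Finset.mul_sum]
    refine Finset.sum_congr rfl fun a ha => ?_
    rw [Finset.mem_range] at ha
    have e1 : Z (a + 1) v = 2 * W (a + 1) v := rfl
    have e2 : Z (k - a) v = 2 * W (k - a) v := by
      unfold Z
      rw [if_neg (by omega)]
    rw [e1, e2]
    ring
  rw [h1, h2, h3, h4]
  ring

theorem bl_Z (hg : ∀ p, good p → good (nxt p)) (hd : ∀ p, dep (nxt p) ≤ dep p + 1) (j : ℕ) :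
    ∀ p, good p → Bl good dep ε (dep p + j) (Rz j)
      (fun ω => (Z j (fun k => ε (nxt^[k] p) ω) : ℝ)) := by
  induction j using Nat.strong_induction_on with
  | _ j ih =>
    intro p hp
    have hchi : ∀ k, dep p ≤ k → Bl good dep ε k 2 (fun ω => (sg (ε p ω) : ℝ)) := by
      intro k hk
      have h1 := bl_chi (ε := ε) (good := good) (dep := dep) (k := k) 1 (P := {p}) (by
        intro q hq
        rw [Finset.mem_singleton] at hq
        subst hq
        exact ⟨hp, hk⟩)
      have h2 : (fun ω => (1 : ℝ) * ∏ q ∈ ({p} : Finset Po), (sg (ε q ω) : ℝ)) =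
          fun ω => (sg (ε p ω) : ℝ) := by
        funext ω
        rw [Finset.prod_singleton, one_mul]
      have h3 : |(1 : ℝ)| * 2 ^ ({p} : Finset Po).card = 2 := by
        rw [Finset.card_singleton, abs_one]
        norm_num
      rw [h2, h3] at h1
      exact h1
    rcases j with _ | k
    · have h1 : (fun ω => (Z 0 (fun k => ε (nxt^[k] p) ω) : ℝ)) =
          fun ω => (sg (ε p ω) : ℝ) := by
        funext ω
        rfl
      rw [h1, MajB_Rz_zero]
      exact hchi _ (by omega)
    · have hsh : ∀ ω, sh (fun k => ε (nxt^[k] p) ω) = fun k => ε (nxt^[k] (nxt p)) ω := by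
        intro ω
        funext k
        rfl
      have h1 : (fun ω => (Z (k + 1) (fun k => ε (nxt^[k] p) ω) : ℝ)) = fun ω =>
          (1 / 2 : ℝ) * ((sg (ε p ω) : ℝ) * (4 * (Z k (fun k => ε (nxt^[k] (nxt p)) ω) : ℝ) +
          (-1) * ∑ a ∈ Finset.range k, (Z (a + 1) (fun k => ε (nxt^[k] p) ω) : ℝ) *
            (Z (k - a) (fun k => ε (nxt^[k] p) ω) : ℝ))) := by
        funext ω
        have h2 := MajB_two_Z_succ k (fun k => ε (nxt^[k] p) ω)
        rw [hsh ω] at h2
        have h3 : (2 : ℝ) * (Z (k + 1) (fun k => ε (nxt^[k] p) ω) : ℝ) =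
            (sg (ε p ω) : ℝ) * (4 * (Z k (fun k => ε (nxt^[k] (nxt p)) ω) : ℝ) -
            ∑ a ∈ Finset.range k, (Z (a + 1) (fun k => ε (nxt^[k] p) ω) : ℝ) *
            (Z (k - a) (fun k => ε (nxt^[k] p) ω) : ℝ)) := by
          exact_mod_cast h2
        linear_combination (1 / 2 : ℝ) * h3
      rw [h1]
      have hA : Bl good dep ε (dep p + (k + 1)) (|4| * Rz k)
          (fun ω => 4 * (Z k (fun k => ε (nxt^[k] (nxt p)) ω) : ℝ)) :=
        bl_smul 4 (bl_mono (ih k (Nat.lt_succ_self k) (nxt p) (hg p hp))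
          (by have := hd p; omega) le_rfl)
      have hB : Bl good dep ε (dep p + (k + 1)) (∑ a ∈ Finset.range k, Rz (a + 1) * Rz (k - a))
          (fun ω => ∑ a ∈ Finset.range k, (Z (a + 1) (fun k => ε (nxt^[k] p) ω) : ℝ) *
            (Z (k - a) (fun k => ε (nxt^[k] p) ω) : ℝ)) := by
        refine bl_sum (Finset.range k) (fun a => Rz (a + 1) * Rz (k - a))
          (fun a ω => (Z (a + 1) (fun k => ε (nxt^[k] p) ω) : ℝ) *
            (Z (k - a) (fun k => ε (nxt^[k] p) ω) : ℝ)) (fun a ha => ?_)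
        rw [Finset.mem_range] at ha
        exact bl_mul (bl_mono (ih (a + 1) (by omega) p hp) (by omega) le_rfl)
          (bl_mono (ih (k - a) (by omega) p hp) (by omega) le_rfl)
      have hC := bl_smul (1 / 2 : ℝ) (bl_mul (hchi (dep p + (k + 1)) (by omega))
        (bl_add hA (bl_smul (-1) hB)))
      refine bl_mono hC le_rfl (le_of_eq ?_)
      rw [MajB_Rz_succ, abs_neg, abs_one, one_mul, abs_of_pos (by norm_num : (0 : ℝ) < 1 / 2),
        abs_of_pos (by norm_num : (0 : ℝ) < 4)]
      ring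

end Pool.Agent.Ppr2
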