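import Pool.Agent.Ppr2.NrmC

/-!
# Majorants: definitions

`SW κ ε P = ∑_ω κ(ω) ∏_{p ∈ P} ε_p(ω)`. `Bl good dep ε k R f`: the function `f` on `Ω` is a
combination of products of signs over sets `P'` of good positions of depth `≤ k`, with
`∑ |c(P')| 2^|P'| ≤ R`. `Rz`: the majorant of the coefficients of `Y`.
-/

namespace Pool.Agent.Ppr2

open PowerSeries Pool.Agent.Ppr

variable {Po Ω : Type} [DecidableEq Po]

/-- the weighted sum of the products of signs -/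
noncomputable def SW [Fintype Ω] (κ : Ω → ℝ) (ε : Po → Ω → Bool) (P : Finset Po) : ℝ :=
  ∑ ω, κ ω * ∏ p ∈ P, (sg (ε p ω) : ℝ)

/-- the ball of radius `R` -/
def Bl (good : Po → Prop) (dep : Po → ℕ) (ε : Po → Ω → Bool) (k : ℕ) (R : ℝ) (f : Ω → ℝ) :
    Prop :=
  ∃ (s : Finset (Finset Po)) (c : Finset Po → ℝ), (∀ P ∈ s, ∀ p ∈ P, good p ∧ dep p ≤ k) ∧
    (∀ ω, f ω = ∑ P ∈ s, c P * ∏ p ∈ P, (sg (ε p ω) : ℝ)) ∧ ∑ P ∈ s, |c P| * 2 ^ P.card ≤ R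

/-- the majorant -/
noncomputable def Rz : ℕ → ℝ
  | 0 => 2
  | (k + 1) => 4 * Rz k + ∑ a : Fin k, Rz (a.1 + 1) * Rz (k - a.1)
termination_by k => k
decreasing_by
  all_goals simp_wf

end Pool.Agent.Ppr2
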