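import Pool.Agent.Ppr2.Opt
import Pool.Agent.Ppr2.Cube

/-!
# No test of small degree: all tails give the same residual vectors

Let `α = {x : List Bool // 1 ≤ x.length ∧ x.length ≤ m}` (finite, `List.finite_length_le`),
`vec z : α → Bool`, `vec z x = phi ψ (x, 0) z`. For `t, t0` let
`τ f = #{ξ : vec (appF ξ (ext t)) = f} - #{ξ : vec (appF ξ (ext t0)) = f}` (real numbers). Its
moment over `Q : Finset α` is `∑_f τ f ∏_{x∈Q} sg (f x) = ∑_ξ (∏_{x∈Q} sg (vec (appF ξ (ext t)) x) -
∏ …) = 2^n Del ψ n P (ext t) (ext t0)` with `P` the image of `Q` under `x ↦ (x, 0)`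
(`Finset.sum_comm`, `Finset.sum_ite_eq`). So all moments with `|Q| ≤ n + 1` vanish by `h`. The
support of `τ` is contained in the union of the two images of `ξ`, at most `2 · 2^n < 2^(n+2)`
points; so `τ = 0` by `cube (n+1)`. For `f = vec (appF ξ (ext t))` the first number is `≥ 1`, so the
second one is: some `ξ'`.
-/

namespace Pool.Agent.Ppr2

open PowerSeries Pool.Agent.Ppr

theorem vec_eq {m : ℕ} (ψ : (Fin m → Bool) → Bool) (n : ℕ)
    (h : ∀ (P : Finset (List Bool × ℕ)) (t t' : Fin m → Bool),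
      (∀ p ∈ P, p.1.length ≤ m ∧ p.2 = 0) → P.card ≤ n + 1 →
      Del ψ n P (ext t) (ext t') = 0) (t t0 : Fin m → Bool) (ξ : Fin n → Bool) :
    ∃ ξ' : Fin n → Bool, ∀ x : List Bool, 1 ≤ x.length → x.length ≤ m →
      phi ψ (x, 0) (appF ξ (ext t)) = phi ψ (x, 0) (appF ξ' (ext t0)) := by
  classical
  let α : Type := {x : List Bool // 1 ≤ x.length ∧ x.length ≤ m}
  have hfin : Finite α := by
    have h1 : {x : List Bool | x.length ≤ m}.Finite := List.finite_length_le Bool m
    have h2 : {x : List Bool | 1 ≤ x.length ∧ x.length ≤ m}.Finite :=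
      h1.subset fun x hx => hx.2
    exact h2.to_subtype
  have _hα : Fintype α := Fintype.ofFinite α
  let vec : (ℕ → Bool) → α → Bool := fun z x => phi ψ (x.1, 0) z
  let τ : (α → Bool) → ℝ := fun f => ∑ ξ : Fin n → Bool,
    ((if vec (appF ξ (ext t)) = f then (1 : ℝ) else 0) -
      (if vec (appF ξ (ext t0)) = f then (1 : ℝ) else 0))
  have hmom : ∀ Q : Finset α, Q.card ≤ n + 1 → ∑ f, τ f * ∏ i ∈ Q, (sg (f i) : ℝ) = 0 := by
    intro Q hQ
    obtain ⟨P, hP⟩ : ∃ P : Finset (List Bool × ℕ), P = Q.image fun x : α => (x.1, 0) := ⟨_, rfl⟩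
    have hPm : ∀ p ∈ P, p.1.length ≤ m ∧ p.2 = 0 := by
      intro p hp
      rw [hP, Finset.mem_image] at hp
      obtain ⟨x, _, rfl⟩ := hp
      exact ⟨x.2.2, rfl⟩
    have hPc : P.card ≤ n + 1 := by
      rw [hP]
      exact Finset.card_image_le.trans hQ
    have hprod : ∀ z : ℕ → Bool, ∏ p ∈ P, (sg (phi ψ p z) : ℝ) =
        ∏ i ∈ Q, (sg (vec z i) : ℝ) := by
      intro z
      rw [hP, Finset.prod_image]
      intro x _ y _ hxy
      exact Subtype.ext (congrArg Prod.fst hxy)
    have h0 := h P t t0 hPm hPc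
    unfold Del at h0
    have h2n : (1 / 2 ^ n : ℝ) ≠ 0 := by positivity
    have h3 := (mul_eq_zero.1 h0).resolve_left h2n
    simp only [hprod] at h3
    rw [← h3]
    simp only [τ, Finset.sum_mul]
    rw [Finset.sum_comm]
    refine Finset.sum_congr rfl fun ξ _ => ?_
    simp only [sub_mul, Finset.sum_sub_distrib, ite_mul, one_mul, zero_mul, Finset.sum_ite_eq,
      Finset.mem_univ, if_true]
  have hτ0 : ∀ f, τ f = 0 := by
    by_contra hc
    push Not at hc
    have h1 : 2 ^ (n + 1 + 1) ≤ (Finset.univ.filter fun v => τ v ≠ 0).card := by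
      have h1' := cube (n + 1) τ hc (fun Q hQ =>
        (Finset.sum_congr (by ext f; simp only [Finset.mem_univ]) fun _ _ => rfl).trans
          (hmom Q hQ))
      refine h1'.trans (le_of_eq (congrArg Finset.card ?_))
      ext f
      rw [Finset.mem_filter, Finset.mem_filter]
      exact ⟨fun h => ⟨@Finset.mem_univ _ (_) _, h.2⟩, fun h => ⟨@Finset.mem_univ _ (_) _, h.2⟩⟩
    have hsub : (Finset.univ.filter fun v => τ v ≠ 0) ⊆
        (Finset.univ.image fun ξ : Fin n → Bool => vec (appF ξ (ext t))) ∪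
        (Finset.univ.image fun ξ : Fin n → Bool => vec (appF ξ (ext t0))) := by
      intro f hf
      rw [Finset.mem_filter] at hf
      by_contra hf'
      rw [Finset.mem_union, Finset.mem_image, Finset.mem_image, not_or] at hf'
      apply hf.2
      refine Finset.sum_eq_zero fun ξ _ => ?_
      rw [if_neg fun he => hf'.1 ⟨ξ, Finset.mem_univ _, he⟩,
        if_neg fun he => hf'.2 ⟨ξ, Finset.mem_univ _, he⟩, sub_zero]
    have hcard : (Finset.univ.filter fun v => τ v ≠ 0).card ≤ 2 ^ n + 2 ^ n := by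
      refine (Finset.card_le_card hsub).trans ((Finset.card_union_le _ _).trans ?_)
      have h4 : ∀ g : (Fin n → Bool) → (α → Bool), (Finset.univ.image g).card ≤ 2 ^ n := by
        intro g
        refine Finset.card_image_le.trans (le_of_eq ?_)
        rw [Finset.card_univ, Fintype.card_fun, Fintype.card_bool, Fintype.card_fin]
      exact Nat.add_le_add (h4 _) (h4 _)
    have h5 : 2 ^ (n + 1 + 1) ≤ 2 ^ n + 2 ^ n := h1.trans hcard
    have h6 : 2 ^ (n + 1 + 1) = 4 * 2 ^ n := by ring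
    have h7 : 0 < 2 ^ n := by positivity
    omega
  have h1 := hτ0 (vec (appF ξ (ext t)))
  simp only [τ, Finset.sum_sub_distrib] at h1
  have h2 : (1 : ℝ) ≤ ∑ ξ' : Fin n → Bool,
      (if vec (appF ξ' (ext t)) = vec (appF ξ (ext t)) then (1 : ℝ) else 0) := by
    have h3 := Finset.single_le_sum (f := fun ξ' : Fin n → Bool =>
      (if vec (appF ξ' (ext t)) = vec (appF ξ (ext t)) then (1 : ℝ) else 0))
      (fun ξ' _ => by split_ifs <;> norm_num) (Finset.mem_univ ξ)
    simpa using h3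
  have h3 : ∑ ξ' : Fin n → Bool,
      (if vec (appF ξ' (ext t0)) = vec (appF ξ (ext t)) then (1 : ℝ) else 0) ≠ 0 := by
    intro h4
    rw [h4] at h1
    linarith
  obtain ⟨ξ', _, hξ'⟩ := Finset.exists_ne_zero_of_sum_ne_zero h3
  have h4 : vec (appF ξ' (ext t0)) = vec (appF ξ (ext t)) := by
    by_contra hc
    exact hξ' (if_neg hc)
  exact ⟨ξ', fun x hx1 hx2 => (congrFun h4 ⟨x, hx1, hx2⟩).symm⟩

end Pool.Agent.Ppr2
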