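import Mathlib

/-!
# Words in linear operators: definitions

`opw A z` is the product `A z0 * A z1 * …` of the operators of the letters of the list `z`.
-/

namespace Pool.Agent.Ppr2

variable {V : Type} [AddCommGroup V] [Module ℚ V]

/-- the product of the operators of the letters of a word -/
def opw (A : Bool → Module.End ℚ V) (z : List Bool) : Module.End ℚ V := (z.map A).prod

theorem opw_nil (A : Bool → Module.End ℚ V) : opw A [] = 1 := rfl

theorem opw_cons (A : Bool → Module.End ℚ V) (b : Bool) (z : List Bool) :
    opw A (b :: z) = A b * opw A z := by
  simp [opw]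

theorem opw_append (A : Bool → Module.End ℚ V) (z z' : List Bool) :
    opw A (z ++ z') = opw A z * opw A z' := by
  simp [opw]

/-- `z` repeated `i` times -/
def rep (z : List Bool) : ℕ → List Bool
  | 0 => []
  | i + 1 => z ++ rep z i

theorem rep_length (z : List Bool) (i : ℕ) : (rep z i).length = i * z.length := by
  induction i with
  | zero => simp [rep]
  | succ i ih => rw [rep, List.length_append, ih]; ring

theorem opw_rep (A : Bool → Module.End ℚ V) (z : List Bool) (i : ℕ) :
    opw A (rep z i) = opw A z ^ i := by
  induction i with
  | zero => simp [rep, opw]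
  | succ i ih => rw [rep, opw_append, ih, pow_succ']

/-- property (SS) -/
def SS (A : Bool → Module.End ℚ V) : Prop :=
  ∀ x : List Bool, opw A x ≠ 0 → ∃ w : List Bool, opw A x * opw A w * opw A x ≠ 0

end Pool.Agent.Ppr2
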