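import Pool.Agent.Ppr2.StateDef
import Pool.Agent.Ppr2.TrDef

/-!
# States of a block code: definitions
-/

namespace Pool.Agent.Ppr2

open Pool.Agent.Ppr

/-- a window with the state `r` -/
noncomputable def sec {m : ℕ} {R : Type} (res : (Fin m → Bool) → R) (r : R) : Fin m → Bool := by
  classical
  exact if h : ∃ X, res X = r then h.choose else fun _ => false

/-- the new state if a letter with the image letter `b` is put in front -/
noncomputable def fb {m : ℕ} (ψ : (Fin m → Bool) → Bool) {R : Type} (res : (Fin m → Bool) → R)
    (b : Bool) (r : R) : R :=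
  res (cw (xor b (ψ (sec res r))) (sec res r))

/-- the maps of the letters of a list, the head first -/
def Fw {R : Type} (f : Bool → R → R) : List Bool → R → R
  | [], r => r
  | b :: z, r => Fw f z (f b r)

/-- `b (k + L - 1), …, b (k + 1), b k` -/
def wd (b : ℕ → Bool) (k : ℕ) : ℕ → List Bool
  | 0 => []
  | L + 1 => b (k + L) :: wd b k L

/-- the periodic sequence of a word, backwards -/
def bz (z : List Bool) (k : ℕ) : Bool := z.getD (z.length - 1 - k % z.length) false

/-- the operators on functions modulo constants: `g ↦ g ∘ f b - g (f b r0)` -/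
def Ab {R : Type} (f : Bool → R → R) (r0 : R) (b : Bool) : Module.End ℚ (R → ℚ) where
  toFun g := fun q => g (f b q) - g (f b r0)
  map_add' g h := by funext q; simp only [Pi.add_apply]; ring
  map_smul' c g := by funext q; simp only [Pi.smul_apply, smul_eq_mul, RingHom.id_apply]; ring

theorem Ab_apply {R : Type} (f : Bool → R → R) (r0 : R) (b : Bool) (g : R → ℚ) (q : R) :
    Ab f r0 b g q = g (f b q) - g (f b r0) := rfl

theorem wd_length (b : ℕ → Bool) (k L : ℕ) : (wd b k L).length = L := by
  induction L with
  | zero => rfl
  | succ L ih => simp [wd, ih]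

/-- backwards along a sequence of states -/
theorem Fw_wd {R : Type} (f : Bool → R → R) (b : ℕ → Bool) (q : ℕ → R)
    (hq : ∀ k, q k = f (b k) (q (k + 1))) (k L : ℕ) : Fw f (wd b k L) (q (k + L)) = q k := by
  induction L with
  | zero => rfl
  | succ L ih =>
    show Fw f (wd b k L) (f (b (k + L)) (q (k + (L + 1)))) = q k
    rw [show k + (L + 1) = (k + L) + 1 by omega, ← hq (k + L), ih]

end Pool.Agent.Ppr2
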