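import Pool.Agent.Ppr2.StDef

/-!
# From states to words

`res (sec res (res X)) = res X` (`Exists.choose_spec`), hence by `h1`, `h2`
`fb ψ res b (res X) = res (cw (xor b (ψ X)) X)` (`fb_res`).

`st_lift`: put `u k = xor (b k) (ψ (sec res (q (k + 1))))`. For `j ≤ …` let `Y j k` be the window
`Y 0 k = sec res (q k)`, `Y (j + 1) k = cw (u k) (Y j (k + 1))`. CLAIM `res (Y j k) = q k` for all
`j, k`. All `q k` are values of `res` (`hq`), so this is true for `j = 0`. Step: let
`X = Y j (k + 1)`, `res X = q (k + 1) = res (sec res (q (k + 1)))`; by `h1`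
`u k = xor (b k) (ψ X)`, so `res (cw (u k) X) = fb ψ res (b k) (res X) = q k` by `fb_res`.
And `Y j k i = u (k + i)` for `i < j` (induction, definition of `cw`), so `Y m k` is the window of
`u` at `k`, and `res (fun i => u (k + i.1)) = q k`. Finally
`img ψ u k = xor (u k) (ψ (window at k + 1)) = b k`, since the window at `k + 1` and
`sec res (q (k + 1))` have the same state, hence the same `ψ` (`h1`).
-/

namespace Pool.Agent.Ppr2

open Pool.Agent.Ppr

private theorem StLift_sec {m : ℕ} {R : Type} (res : (Fin m → Bool) → R) {r : R}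
    (h : ∃ X, res X = r) : res (sec res r) = r := by
  unfold sec
  rw [dif_pos h]
  exact h.choose_spec

theorem fb_res {m : ℕ} (ψ : (Fin m → Bool) → Bool) {R : Type} (res : (Fin m → Bool) → R)
    (h1 : ∀ X X', res X = res X' → ψ X = ψ X')
    (h2 : ∀ c X X', res X = res X' → res (cw c X) = res (cw c X')) (b : Bool)
    (X : Fin m → Bool) : fb ψ res b (res X) = res (cw (xor b (ψ X)) X) := by
  have h : res (sec res (res X)) = res X := StLift_sec res ⟨X, rfl⟩
  unfold fb
  rw [h1 _ _ h]
  exact h2 _ _ _ h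

theorem st_lift {m : ℕ} (ψ : (Fin m → Bool) → Bool) {R : Type} (res : (Fin m → Bool) → R)
    (h1 : ∀ X X', res X = res X' → ψ X = ψ X')
    (h2 : ∀ c X X', res X = res X' → res (cw c X) = res (cw c X'))
    (b : ℕ → Bool) (q : ℕ → R) (hq : ∀ k, q k = fb ψ res (b k) (q (k + 1))) :
    ∃ u : ℕ → Bool, (∀ k, u k = xor (b k) (ψ (sec res (q (k + 1))))) ∧
      (∀ k, res (fun i => u (k + i.1)) = q k) ∧ ∀ k, img ψ u k = b k := by
  obtain ⟨u, hu⟩ : ∃ u : ℕ → Bool, ∀ k, u k = xor (b k) (ψ (sec res (q (k + 1)))) :=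
    ⟨fun k => xor (b k) (ψ (sec res (q (k + 1)))), fun _ => rfl⟩
  have hval : ∀ k, ∃ X, res X = q k := fun k => by
    rw [hq k]
    exact ⟨_, rfl⟩
  have hsec : ∀ k, res (sec res (q k)) = q k := fun k => StLift_sec res (hval k)
  obtain ⟨Y, hY0, hYs⟩ : ∃ Y : ℕ → ℕ → Fin m → Bool, (∀ k, Y 0 k = sec res (q k)) ∧
      ∀ j k, Y (j + 1) k = cw (u k) (Y j (k + 1)) :=
    ⟨fun j => Nat.rec (fun k => sec res (q k)) (fun _ Yj k => cw (u k) (Yj (k + 1))) j,
      fun _ => rfl, fun _ _ => rfl⟩
  have c1 : ∀ j k, res (Y j k) = q k := by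
    intro j
    induction j with
    | zero =>
      intro k
      rw [hY0]
      exact hsec k
    | succ j ih =>
      intro k
      have e1 : ψ (Y j (k + 1)) = ψ (sec res (q (k + 1))) :=
        h1 _ _ ((ih (k + 1)).trans (hsec (k + 1)).symm)
      rw [hYs, hu k, ← e1, ← fb_res ψ res h1 h2 (b k) (Y j (k + 1)), ih (k + 1), ← hq k]
  have c2 : ∀ j k, ∀ i : Fin m, i.1 < j → Y j k i = u (k + i.1) := by
    intro j
    induction j with
    | zero =>
      intro k i hi
      exact absurd hi (Nat.not_lt_zero _)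
    | succ j ih =>
      intro k i hi
      rw [hYs]
      unfold cw
      by_cases h0 : i.1 = 0
      · rw [if_pos h0, h0, add_zero]
      · rw [if_neg h0, ih]
        · congr 1
          show k + 1 + (i.1 - 1) = k + i.1
          omega
        · show i.1 - 1 < j
          omega
  have c3 : ∀ k, res (fun i => u (k + i.1)) = q k := by
    intro k
    have e : (fun i : Fin m => u (k + i.1)) = Y m k := by
      funext i
      exact (c2 m k i i.2).symm
    rw [e]
    exact c1 m k
  refine ⟨u, hu, c3, fun k => ?_⟩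
  have e : ψ (fun i => u (k + 1 + i.1)) = ψ (sec res (q (k + 1))) :=
    h1 _ _ ((c3 (k + 1)).trans (hsec (k + 1)).symm)
  unfold img
  rw [e, hu k, Bool.xor_assoc, Bool.xor_self, Bool.xor_false]

end Pool.Agent.Ppr2
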