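import Pool.Agent.Ppr2.StLift

/-!
# Words and periodic sequences of states

`seq_fix`: `q k = Fw f (z.take (l - k % l)) q0`, `l = z.length`. With `Fw f (z ++ [b]) q =
f b (Fw f z q)` and `List.take_succ` (`z.take (n + 1) = z.take n ++ [z[n]]`): for `j = k % l`,
`j + 1 < l`: `(k + 1) % l = j + 1` and `q k = f z[l-1-j] (Fw f (z.take (l-j-1)) q0)`; for
`j + 1 = l`: `(k + 1) % l = 0`, `q (k + 1) = Fw f z q0 = q0`, `q k = f z[0] q0`. And
`q 0 = Fw f (z.take l) q0 = q0`; the period is clear (`Nat.add_mod_right`).

`wd_bz`: `wd (bz z) 0 l = z` (`List.ext_getElem`; the entry number `i` of `wd b 0 L` is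
`b (L - 1 - i)`).

`res_seq`: if `img ψ u = b` then the states of the windows satisfy the recursion: the window at
`k` is `cw (u k)` of the window at `k + 1`, and `u k = xor (b k) (ψ (window at k + 1))`; `fb_res`.
-/

namespace Pool.Agent.Ppr2

open Pool.Agent.Ppr

private theorem StSeq_Fw_append {R : Type} (f : Bool → R → R) (z : List Bool) (b : Bool) (r : R) :
    Fw f (z ++ [b]) r = f b (Fw f z r) := by
  induction z generalizing r with
  | nil => rfl
  | cons c z ih => exact ih (f c r)

private theorem StSeq_wd_getElem (b : ℕ → Bool) (k : ℕ) : ∀ (L i : ℕ) (h : i < (wd b k L).length),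
    (wd b k L)[i] = b (k + (L - 1 - i))
  | 0, i, h => absurd h (Nat.not_lt_zero _)
  | L + 1, 0, _ => by
    show b (k + L) = b (k + (L + 1 - 1 - 0))
    congr 1
  | L + 1, i + 1, h => by
    have h' : i < (wd b k L).length := Nat.lt_of_succ_lt_succ h
    have h1 : (wd b k (L + 1))[i + 1] = (wd b k L)[i] := rfl
    rw [h1, StSeq_wd_getElem b k L i h']
    congr 1
    omega

theorem seq_fix {R : Type} (f : Bool → R → R) (z : List Bool) (hz : 1 ≤ z.length) (q0 : R)
    (h : Fw f z q0 = q0) : ∃ q : ℕ → R, q 0 = q0 ∧ (∀ k, q k = f (bz z k) (q (k + 1))) ∧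
      ∀ k, q (k + z.length) = q k := by
  have hl : 0 < z.length := hz
  refine ⟨fun k => Fw f (z.take (z.length - k % z.length)) q0, ?_, fun k => ?_, fun k => ?_⟩
  · show Fw f (z.take (z.length - 0 % z.length)) q0 = q0
    rw [Nat.zero_mod, Nat.sub_zero, List.take_length, h]
  · show Fw f (z.take (z.length - k % z.length)) q0 =
      f (bz z k) (Fw f (z.take (z.length - (k + 1) % z.length)) q0)
    have hj : k % z.length < z.length := Nat.mod_lt _ hl
    have hi : z.length - 1 - k % z.length < z.length := by omega
    have e1 : z.length - k % z.length = z.length - 1 - k % z.length + 1 := by omega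
    have e2 : z.take (z.length - k % z.length) = z.take (z.length - 1 - k % z.length) ++
        [bz z k] := by
      rw [e1, List.take_succ_eq_append_getElem hi]
      congr 2
      unfold bz
      rw [List.getD_eq_getElem _ _ hi]
    rw [e2, StSeq_Fw_append]
    congr 1
    by_cases hc : k % z.length + 1 = z.length
    · have e3 : (k + 1) % z.length = 0 := by
        rw [Nat.add_mod, ← Nat.mod_eq_zero_of_dvd (dvd_refl z.length)]
        rw [← Nat.add_mod]
        rw [Nat.mod_self]
        have := Nat.div_add_mod k z.length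
        have e4 : k + 1 = z.length * (k / z.length) + z.length := by omega
        rw [e4, Nat.add_mod_right, Nat.mul_mod_right]
      rw [e3, Nat.sub_zero, List.take_length, h]
      have e5 : z.length - 1 - k % z.length = 0 := by omega
      rw [e5]
      rfl
    · have e3 : (k + 1) % z.length = k % z.length + 1 := by
        have h1 := Nat.div_add_mod k z.length
        have e4 : k + 1 = k % z.length + 1 + z.length * (k / z.length) := by omega
        rw [e4, Nat.add_mul_mod_self_left]
        exact Nat.mod_eq_of_lt (by omega)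
      rw [e3]
      congr 2
      omega
  · show Fw f (z.take (z.length - (k + z.length) % z.length)) q0 =
      Fw f (z.take (z.length - k % z.length)) q0
    rw [Nat.add_mod_right]

theorem wd_bz (z : List Bool) (hz : 1 ≤ z.length) : wd (bz z) 0 z.length = z := by
  refine List.ext_getElem (wd_length _ _ _) fun i h1 h2 => ?_
  rw [StSeq_wd_getElem, Nat.zero_add]
  unfold bz
  have e : z.length - 1 - (z.length - 1 - i) % z.length = i := by
    rw [Nat.mod_eq_of_lt (by omega)]
    omega
  rw [e, List.getD_eq_getElem _ _ h2]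

theorem bz_period (z : List Bool) (k : ℕ) : bz z (k + z.length) = bz z k := by
  simp [bz]

theorem res_seq {m : ℕ} (ψ : (Fin m → Bool) → Bool) {R : Type} (res : (Fin m → Bool) → R)
    (h1 : ∀ X X', res X = res X' → ψ X = ψ X')
    (h2 : ∀ c X X', res X = res X' → res (cw c X) = res (cw c X')) (u : ℕ → Bool) (k : ℕ) :
    res (fun i => u (k + i.1)) = fb ψ res (img ψ u k) (res (fun i => u (k + 1 + i.1))) := by
  rw [fb_res ψ res h1 h2]
  congr 1
  unfold img
  rw [Bool.xor_assoc, Bool.xor_self, Bool.xor_false]
  funext i
  unfold cw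
  by_cases h0 : i.1 = 0
  · rw [if_pos h0, h0, add_zero]
  · rw [if_neg h0]
    congr 1
    show k + i.1 = k + 1 + (i.1 - 1)
    omega

end Pool.Agent.Ppr2
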