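import Pool.Agent.Ppr.HedDef

/-!
# Windows: a new letter in front
-/

namespace Pool.Agent.Ppr2

/-- the window `c X` without its last letter -/
def cw {m : ℕ} (c : Bool) (X : Fin m → Bool) : Fin m → Bool :=
  fun i => if i.1 = 0 then c else X ⟨i.1 - 1, lt_of_le_of_lt (Nat.sub_le _ _) i.2⟩

end Pool.Agent.Ppr2
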