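import Pool.Agent.Ppr2.TrDef

/-!
# The connecting word

`x` a word, `w` a word of minimal length `l` with `A_x A_w A_x ≠ 0`, `ρ = rank (A_x A_w A_x)`.
CLAIM `l ρ ≤ dim V`. Let `U_i` (`i ≥ 0`) be the span of the ranges of `A_a A_x`, `|a| ≤ i`
(recursively: `U_0 = range A_x`, `U_(i+1) = U_i ⊔ map A_true U_i ⊔ map A_false U_i`).
(1) For `i < l`: `U_i ≤ ker A_x`, as `A_x A_a A_x = 0` for `|a| < l`.
(2) `A_a` maps `U_i` into `U_(i + |a|)`.
(3) For `1 ≤ i < l`: cut `w = a' ++ a` with `|a| = i` (`a = w.drop (l - i)`,
`a' = w.take (l - i)`), so `A_w = A_a' A_a`. By (1), (2) the operator `A_x A_a'` vanishes on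
`U_(i-1)` (it is mapped into `U_(i-1+l-i) = U_(l-1)`). The range of `A_a A_x` is in `U_i`. So
`A_x A_a'`, restricted to `U_i`, has a kernel containing `U_(i-1)` and a range containing
`range (A_x A_w A_x)`: `dim U_i ≥ ρ + dim U_(i-1)` (rank–nullity for `domRestrict`).
(4) `dim U_0 = rank A_x ≥ ρ`. So `dim U_i ≥ (i + 1) ρ` for `i < l` by induction, and
`l ρ ≤ dim U_(l-1) ≤ dim V` (`l = 0` is trivial).
-/

namespace Pool.Agent.Ppr2

/-- the span of the ranges of `A_a A_x`, `|a| ≤ i` -/
private def UTrCon {V : Type} [AddCommGroup V] [Module ℚ V] (A : Bool → Module.End ℚ V)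
    (x : List Bool) (i : ℕ) : Submodule ℚ V :=
  ⨆ (a : List Bool) (_ : a.length ≤ i), LinearMap.range (opw A a * opw A x)

private theorem range_le_UTrCon {V : Type} [AddCommGroup V] [Module ℚ V]
    (A : Bool → Module.End ℚ V) (x a : List Bool) {i : ℕ} (h : a.length ≤ i) :
    LinearMap.range (opw A a * opw A x) ≤ UTrCon A x i :=
  le_iSup₂ (f := fun (a : List Bool) (_ : a.length ≤ i) =>
    LinearMap.range (opw A a * opw A x)) a h

private theorem mono_UTrCon {V : Type} [AddCommGroup V] [Module ℚ V]
    (A : Bool → Module.End ℚ V) (x : List Bool) {i j : ℕ} (h : i ≤ j) :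
    UTrCon A x i ≤ UTrCon A x j :=
  iSup₂_le fun a ha => range_le_UTrCon A x a (ha.trans h)

private theorem map_UTrCon {V : Type} [AddCommGroup V] [Module ℚ V]
    (A : Bool → Module.End ℚ V) (x c : List Bool) {i j : ℕ} (h : c.length + i ≤ j) (v : V)
    (hv : v ∈ UTrCon A x i) : opw A c v ∈ UTrCon A x j := by
  have h1 : UTrCon A x i ≤ (UTrCon A x j).comap (opw A c) := by
    refine iSup₂_le fun a ha => ?_
    rintro _ ⟨u, rfl⟩
    have h2 : opw A c ((opw A a * opw A x) u) = (opw A (c ++ a) * opw A x) u := by
      rw [opw_append]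
      rfl
    rw [Submodule.mem_comap, h2]
    refine range_le_UTrCon A x (c ++ a) ?_ ⟨u, rfl⟩
    rw [List.length_append]
    omega
  exact h1 hv

theorem con_rank {V : Type} [AddCommGroup V] [Module ℚ V] [FiniteDimensional ℚ V]
    (A : Bool → Module.End ℚ V) (x w : List Bool)
    (hmin : ∀ w' : List Bool, w'.length < w.length → opw A x * opw A w' * opw A x = 0) :
    w.length * Module.finrank ℚ (LinearMap.range (opw A x * opw A w * opw A x)) ≤
      Module.finrank ℚ V := by
  have hker : ∀ i, i < w.length → ∀ v ∈ UTrCon A x i, opw A x v = 0 := by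
    intro i hi v hv
    have h1 : UTrCon A x i ≤ LinearMap.ker (opw A x) := by
      refine iSup₂_le fun a ha => ?_
      rintro _ ⟨u, rfl⟩
      rw [LinearMap.mem_ker]
      have h2 := hmin a (by omega)
      exact LinearMap.congr_fun h2 u
    exact h1 hv
  have hstep : ∀ i, i + 1 < w.length →
      Module.finrank ℚ (LinearMap.range (opw A x * opw A w * opw A x)) +
        Module.finrank ℚ (UTrCon A x i) ≤ Module.finrank ℚ (UTrCon A x (i + 1)) := by
    intro i hi
    set a := w.drop (w.length - (i + 1)) with ha
    set a' := w.take (w.length - (i + 1)) with ha'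
    have hw : w = a' ++ a := (List.take_append_drop _ _).symm
    have hla : a.length = i + 1 := by
      rw [ha, List.length_drop]
      omega
    have hla' : a'.length = w.length - (i + 1) := by
      rw [ha', List.length_take]
      omega
    set T : Module.End ℚ V := opw A x * opw A a' with hT
    have hT0 : ∀ v ∈ UTrCon A x i, T v = 0 := by
      intro v hv
      have h1 := map_UTrCon A x a' (j := w.length - 1) (by omega) v hv
      exact hker (w.length - 1) (by omega) _ h1
    set f := T.domRestrict (UTrCon A x (i + 1)) with hf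
    have h1 := LinearMap.finrank_range_add_finrank_ker f
    have h2 : LinearMap.range (opw A x * opw A w * opw A x) ≤ LinearMap.range f := by
      rintro _ ⟨u, rfl⟩
      refine ⟨⟨(opw A a * opw A x) u, range_le_UTrCon A x a hla.le ⟨u, rfl⟩⟩, ?_⟩
      rw [hf, LinearMap.domRestrict_apply]
      conv_rhs => rw [hw, opw_append]
      rfl
    have h3 : (UTrCon A x i).comap (UTrCon A x (i + 1)).subtype ≤ LinearMap.ker f := by
      intro v hv
      rw [LinearMap.mem_ker, hf, LinearMap.domRestrict_apply]
      exact hT0 _ hv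
    have h4 : Module.finrank ℚ ((UTrCon A x i).comap (UTrCon A x (i + 1)).subtype) =
        Module.finrank ℚ (UTrCon A x i) :=
      (Submodule.comapSubtypeEquivOfLe (mono_UTrCon A x (Nat.le_succ i))).finrank_eq
    have h5 := Submodule.finrank_mono h2
    have h6 := Submodule.finrank_mono h3
    rw [h4] at h6
    omega
  have hall : ∀ i, i < w.length →
      (i + 1) * Module.finrank ℚ (LinearMap.range (opw A x * opw A w * opw A x)) ≤
        Module.finrank ℚ (UTrCon A x i) := by
    intro i
    induction i with
    | zero =>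
      intro _
      rw [zero_add, one_mul]
      refine Submodule.finrank_mono ?_
      refine le_trans ?_ (range_le_UTrCon A x [] le_rfl)
      rintro _ ⟨u, rfl⟩
      refine ⟨(opw A w * opw A x) u, ?_⟩
      rw [opw_nil, one_mul]
      rfl
    | succ i ih =>
      intro hi
      have h1 := ih (by omega)
      have h2 := hstep i hi
      calc (i + 1 + 1) * Module.finrank ℚ (LinearMap.range (opw A x * opw A w * opw A x)) =
          Module.finrank ℚ (LinearMap.range (opw A x * opw A w * opw A x)) + (i + 1) *
            Module.finrank ℚ (LinearMap.range (opw A x * opw A w * opw A x)) := by ring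
        _ ≤ _ := by omega
  rcases Nat.eq_zero_or_pos w.length with h0 | h0
  · rw [h0, zero_mul]
    exact Nat.zero_le _
  · have h1 := hall (w.length - 1) (by omega)
    rw [Nat.sub_add_cancel h0] at h1
    exact h1.trans (Submodule.finrank_le _)

end Pool.Agent.Ppr2
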