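import Pool.Agent.Ppr2.TrDef

/-!
# Vanishing traces of powers give nilpotency (characteristic zero)

Induction on `finrank V` (all `V : Type`). If `f` is injective (bijective): let
`n = finrank V = finrank (range f)`. If `n = 0` then `f = 0`. If `n > 0`: Cayley–Hamilton
(`LinearMap.aeval_self_charpoly`) `∑_i c_i f^i = 0` with `c_0 = ± det f ≠ 0`; take the trace: as
`trace (f^i) = 0` for `1 ≤ i ≤ n` this is `c_0 n = 0` (`LinearMap.trace_one`,
`Polynomial.aeval_eq_sum_range`, `LinearMap.charpoly_natDegree`,
`Polynomial.coeff_zero_eq_aeval_zero`, `LinearMap.det_eq_sign_charpoly_coeff`), impossible.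
If `f` is not injective: `U = range f` has smaller dimension; `g = f.restrict` on `U`:
`finrank (range g) ≤ finrank U = finrank (range f)` and `trace (g^i) = trace (f^i) = 0` for
`i ≥ 1` (`LinearMap.trace_restrict_eq_of_forall_mem`, as `f^i` has its values in `U`;
`Module.End.pow_restrict`). So `g` is nilpotent, `g^k = 0`, hence `f^(k+1) = 0`.
-/

namespace Pool.Agent.Ppr2

private theorem TrNil_inj {V : Type} [AddCommGroup V] [Module ℚ V] [FiniteDimensional ℚ V]
    (f : Module.End ℚ V) (hf : Function.Injective f)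
    (h : ∀ i, 1 ≤ i → i ≤ Module.finrank ℚ V → LinearMap.trace ℚ V (f ^ i) = 0) :
    Module.finrank ℚ V = 0 := by
  by_contra hn
  have h0 : f.charpoly.coeff 0 ≠ 0 := by
    intro e
    have h1 : LinearMap.det f = 0 := by
      rw [LinearMap.det_eq_sign_charpoly_coeff, e, mul_zero]
    have h2 : LinearMap.ker f ≠ ⊥ := LinearMap.det_eq_zero_iff_ker_ne_bot.1 h1
    exact h2 (LinearMap.ker_eq_bot.2 hf)
  have h3 : Polynomial.aeval f f.charpoly = 0 := LinearMap.aeval_self_charpoly f
  rw [Polynomial.aeval_eq_sum_range, LinearMap.charpoly_natDegree] at h3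
  have h4 := congrArg (LinearMap.trace ℚ V) h3
  rw [map_sum, map_zero, Finset.sum_range_succ'] at h4
  rw [Finset.sum_eq_zero, zero_add, map_smul, pow_zero, LinearMap.trace_one, smul_eq_mul] at h4
  · rcases mul_eq_zero.1 h4 with h5 | h5
    · exact h0 h5
    · exact hn (by exact_mod_cast h5)
  · intro i hi
    rw [Finset.mem_range] at hi
    rw [map_smul, h (i + 1) (by omega) (by omega), smul_zero]

private theorem TrNil_aux (n : ℕ) : ∀ {V : Type} [AddCommGroup V] [Module ℚ V]
    [FiniteDimensional ℚ V] (f : Module.End ℚ V), Module.finrank ℚ V ≤ n →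
    (∀ i, 1 ≤ i → i ≤ Module.finrank ℚ (LinearMap.range f) →
      LinearMap.trace ℚ V (f ^ i) = 0) → IsNilpotent f := by
  induction n with
  | zero =>
    intro V _ _ _ f hn _
    have h0 : Module.finrank ℚ V = 0 := by omega
    have hs : Subsingleton V := Module.finrank_zero_iff.1 h0
    exact ⟨1, LinearMap.ext fun x => Subsingleton.elim _ _⟩
  | succ n ih =>
    intro V _ _ _ f hn h
    by_cases hf : Function.Injective f
    · have h1 : Module.finrank ℚ (LinearMap.range f) = Module.finrank ℚ V :=
        LinearMap.finrank_range_of_inj hf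
      rw [h1] at h
      have h0 := TrNil_inj f hf h
      have hs : Subsingleton V := Module.finrank_zero_iff.1 h0
      exact ⟨1, LinearMap.ext fun x => Subsingleton.elim _ _⟩
    · have hlt : Module.finrank ℚ (LinearMap.range f) < Module.finrank ℚ V := by
        have h1 := LinearMap.finrank_range_add_finrank_ker f
        have h2 : LinearMap.ker f ≠ ⊥ := fun e => hf (LinearMap.ker_eq_bot.1 e)
        have h3 : 0 < Module.finrank ℚ (LinearMap.ker f) :=
          Module.finrank_pos_iff.2 (Submodule.nontrivial_iff_ne_bot.2 h2)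
        omega
      have hm : ∀ x ∈ LinearMap.range f, f x ∈ LinearMap.range f := fun x _ => ⟨x, rfl⟩
      have hg : IsNilpotent (f.restrict hm) := by
        refine ih (f.restrict hm) (by omega) fun i hi1 hi2 => ?_
        have h4 : Module.finrank ℚ (LinearMap.range (f.restrict hm)) ≤
            Module.finrank ℚ (LinearMap.range f) := Submodule.finrank_le _
        rw [Module.End.pow_restrict, LinearMap.trace_restrict_eq_of_forall_mem]
        · exact h i hi1 (hi2.trans h4)
        · intro x
          obtain ⟨j, rfl⟩ : ∃ j, i = j + 1 := ⟨i - 1, by omega⟩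
          rw [pow_succ']
          exact ⟨(f ^ j) x, rfl⟩
      obtain ⟨k, hk⟩ := hg
      refine ⟨k + 1, LinearMap.ext fun x => ?_⟩
      have h5 : ((f.restrict hm) ^ k) ⟨f x, ⟨x, rfl⟩⟩ = 0 := by rw [hk]; rfl
      rw [Module.End.pow_restrict] at h5
      have h6 := congrArg Subtype.val h5
      rw [pow_succ]
      exact h6

theorem nil_of_trace {V : Type} [AddCommGroup V] [Module ℚ V] [FiniteDimensional ℚ V]
    (f : Module.End ℚ V) (h : ∀ i, 1 ≤ i → i ≤ Module.finrank ℚ (LinearMap.range f) →
      LinearMap.trace ℚ V (f ^ i) = 0) : IsNilpotent f :=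
  TrNil_aux _ f le_rfl h

end Pool.Agent.Ppr2
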