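import Pool.Agent.Ppr2.TrDef

/-!
# The rank of the last nonzero power

`r_j = finrank (range (f^j * g))`. For `j ≤ i`: `f` maps `R_j = range (f^j * g)` onto `R_(j+1)`, so
`r_j - r_(j+1) = finrank (ker f ⊓ R_j)` (rank–nullity for `f.domRestrict R_j`), and
`R_i ≤ ker f ⊓ R_j`: `f * f^i * g = 0`; and `f^i * g = f^j * (f^(i-j) * g)` where
`range (f^(i-j) * g) ≤ range g` (for `i = j` trivial; else `≤ range f ≤ range g`), hence
`R_i ≤ R_j`. So `r_j ≥ r_(j+1) + r_i` for `j < i` and `r_i ≥ r_i`; sum: `(i + 1) r_i ≤ r_0`.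
-/

namespace Pool.Agent.Ppr2

/-- One step: rank and nullity of `f` on the range of `h`. -/
private theorem step_TrPow {V : Type} [AddCommGroup V] [Module ℚ V] [FiniteDimensional ℚ V]
    (f h : Module.End ℚ V) (W : Submodule ℚ V) (hk : W ≤ LinearMap.ker f)
    (hR : W ≤ LinearMap.range h) :
    Module.finrank ℚ (LinearMap.range (f * h)) + Module.finrank ℚ W ≤
      Module.finrank ℚ (LinearMap.range h) := by
  have h1 := LinearMap.finrank_range_add_finrank_ker (f.domRestrict (LinearMap.range h))
  have h2 : LinearMap.range (f.domRestrict (LinearMap.range h)) = LinearMap.range (f * h) := by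
    rw [LinearMap.range_domRestrict, Module.End.mul_eq_comp, LinearMap.range_comp]
  have h3 : Module.finrank ℚ W ≤
      Module.finrank ℚ (LinearMap.ker (f.domRestrict (LinearMap.range h))) := by
    rw [← (Submodule.comapSubtypeEquivOfLe hR).finrank_eq]
    refine Submodule.finrank_mono fun x hx => ?_
    rw [LinearMap.mem_ker, LinearMap.domRestrict_apply]
    exact hk hx
  rw [h2] at h1
  omega

private theorem down_TrPow {V : Type} [AddCommGroup V] [Module ℚ V] [FiniteDimensional ℚ V]
    (f g : Module.End ℚ V) (hr : LinearMap.range f ≤ LinearMap.range g) (i : ℕ)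
    (h0 : f ^ (i + 1) * g = 0) (k : ℕ) (hk : k ≤ i) :
    (k + 1) * Module.finrank ℚ (LinearMap.range (f ^ i * g)) ≤
      Module.finrank ℚ (LinearMap.range (f ^ (i - k) * g)) := by
  induction k with
  | zero => simp
  | succ k ih =>
    have ih' := ih (by omega)
    have hker : LinearMap.range (f ^ i * g) ≤ LinearMap.ker f := by
      rintro _ ⟨y, rfl⟩
      rw [LinearMap.mem_ker, ← Module.End.mul_apply, ← mul_assoc, ← pow_succ', h0,
        LinearMap.zero_apply]
    have hran : LinearMap.range (f ^ i * g) ≤ LinearMap.range (f ^ (i - (k + 1)) * g) := by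
      rintro _ ⟨y, rfl⟩
      have he : f ^ i = f ^ (i - (k + 1)) * (f * f ^ k) := by
        rw [← pow_succ', ← pow_add]
        congr 1
        omega
      obtain ⟨z, hz⟩ := hr ⟨(f ^ k) (g y), rfl⟩
      refine ⟨z, ?_⟩
      rw [he]
      simp only [Module.End.mul_apply]
      rw [hz]
    have hs := step_TrPow f (f ^ (i - (k + 1)) * g) _ hker hran
    have he : f * (f ^ (i - (k + 1)) * g) = f ^ (i - k) * g := by
      rw [← mul_assoc, ← pow_succ']
      congr 2
      omega
    rw [he] at hs
    calc (k + 1 + 1) * Module.finrank ℚ (LinearMap.range (f ^ i * g))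
        = (k + 1) * Module.finrank ℚ (LinearMap.range (f ^ i * g)) +
          Module.finrank ℚ (LinearMap.range (f ^ i * g)) := by ring
      _ ≤ _ := by omega

theorem rank_last {V : Type} [AddCommGroup V] [Module ℚ V] [FiniteDimensional ℚ V]
    (f g : Module.End ℚ V) (hr : LinearMap.range f ≤ LinearMap.range g) (i : ℕ)
    (h0 : f ^ (i + 1) * g = 0) :
    (i + 1) * Module.finrank ℚ (LinearMap.range (f ^ i * g)) ≤
      Module.finrank ℚ (LinearMap.range g) := by
  have h := down_TrPow f g hr i h0 i le_rfl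
  rwa [Nat.sub_self, pow_zero, one_mul] at h

end Pool.Agent.Ppr2
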