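import Pool.Agent.Ppr2.TrDef

/-!
# Semisimplification

Strong induction on `finrank V` (all `V : Type`).
CASE 1: every submodule `W` with `∀ b, ∀ v ∈ W, A b v ∈ W` is `⊥` or `⊤`. Then take the same space
and operators. (SS): if `A_x v ≠ 0` let `W` be the span of all `A_w (A_x v)`, `w : List Bool`. It
is invariant and contains `A_x v ≠ 0` (`w = []`), so it is `⊤`. If `A_x A_w A_x = 0` for all `w`
then `A_x` vanishes on `W = ⊤`: contradiction.
CASE 2: otherwise let `W` be an invariant submodule, `W ≠ ⊥, ⊤`, and `W'` a complement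
(`Submodule.exists_isCompl`), `p : V → W`, `q : V → W'` the projections
(`Submodule.linearProjOfIsCompl`). Operators: `B b = (A b).restrict` on `W`, and
`B' b = q ∘ A b ∘ W'.subtype` on `W'`. As `W` is invariant, `q A_z = B'_z q` for every word `z`
(induction: `q (A b v) = B' b (q v)` since `v - q v ∈ W`), and `A_z v = B_z v` on `W`.
Trace: `tr A_z = tr B_z + tr B'_z`: `1 = W.subtype ∘ p + W'.subtype ∘ q`, so
`tr A_z = tr (A_z ∘ W.subtype ∘ p) + tr (A_z ∘ W'.subtype ∘ q)`; by `LinearMap.trace_comp_comm'`
the first one is `tr (p ∘ A_z ∘ W.subtype) = tr B_z`, the second one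
`tr (q ∘ A_z ∘ W'.subtype) = tr B'_z`.
Nilpotent: if `B_z = 0` for `|z| ≥ K1` and `B'_z = 0` for `|z| ≥ K2` then `A_z = 0` for
`|z| ≥ K1 + K2` (cut `z = a' ++ a` with `|a| ≥ K2`, `|a'| ≥ K1`: `q A_a v = 0`, so `A_a v ∈ W`, and
`A_a'` kills it).
By the induction hypothesis for `(W, B)` and `(W', B')` there are `(V1, B1)`, `(V2, B2)`; take
`V1 × V2` with `fun b => (B1 b).prodMap (B2 b)`: `opw` is `prodMap` of the `opw`'s, trace
(`LinearMap.trace_prodMap`), dimension (`Module.finrank_prod`, `Submodule.finrank_add_eq_of_isCompl`),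
(SS): a nonzero `prodMap` has a nonzero component; nilpotent: clear.
-/

namespace Pool.Agent.Ppr2

theorem TrSemi_case1 {V : Type} [AddCommGroup V] [Module ℚ V] (A : Bool → Module.End ℚ V)
    (h : ∀ W : Submodule ℚ V, (∀ b, ∀ v ∈ W, A b v ∈ W) → W = ⊥ ∨ W = ⊤) : SS A := by
  intro x hx
  by_contra hcon
  push Not at hcon
  obtain ⟨v, hv⟩ : ∃ v, opw A x v ≠ 0 := by
    by_contra hne
    push Not at hne
    exact hx (LinearMap.ext hne)
  have hW := h (Submodule.span ℚ (Set.range fun w => opw A w (opw A x v))) ?_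
  · rcases hW with hW | hW
    · apply hv
      have h0 : opw A x v ∈ Submodule.span ℚ (Set.range fun w => opw A w (opw A x v)) :=
        Submodule.subset_span ⟨[], by simp [opw_nil]⟩
      rwa [hW, Submodule.mem_bot] at h0
    · apply hx
      ext u
      have hu : u ∈ Submodule.span ℚ (Set.range fun w => opw A w (opw A x v)) := by
        rw [hW]; trivial
      have hle : Submodule.span ℚ (Set.range fun w => opw A w (opw A x v)) ≤
          LinearMap.ker (opw A x) := by
        rw [Submodule.span_le]
        rintro _ ⟨w, rfl⟩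
        have h1 := congrArg (fun f : Module.End ℚ V => f v) (hcon w)
        simpa using h1
      exact hle hu
  · intro b u hu
    have hle : Submodule.span ℚ (Set.range fun w => opw A w (opw A x v)) ≤
        (Submodule.span ℚ (Set.range fun w => opw A w (opw A x v))).comap (A b) := by
      rw [Submodule.span_le]
      rintro _ ⟨w, rfl⟩
      apply Submodule.subset_span
      exact ⟨b :: w, by simp [opw_cons]⟩
    exact hle hu

section TrSemi

variable {V : Type} [AddCommGroup V] [Module ℚ V] (A : Bool → Module.End ℚ V)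
  (W W' : Submodule ℚ V) (hinv : ∀ b, ∀ v ∈ W, A b v ∈ W) (hc : IsCompl W W')

/-- the operators on the invariant subspace -/
noncomputable def TrSemi_B : Bool → Module.End ℚ W := fun b => (A b).restrict (hinv b)

/-- the operators on the complement -/
noncomputable def TrSemi_B' : Bool → Module.End ℚ W' :=
  fun b => (W'.projectionOnto W hc.symm) ∘ₗ (A b) ∘ₗ W'.subtype

theorem TrSemi_Bz (z : List Bool) (v : W) :
    ((opw (TrSemi_B A W hinv) z v : W) : V) = opw A z (v : V) := by
  induction z generalizing v with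
  | nil => simp [opw_nil]
  | cons b z ih =>
    rw [opw_cons, opw_cons, Module.End.mul_apply, Module.End.mul_apply, ← ih]
    rfl

include hinv in
theorem TrSemi_B'z (z : List Bool) (v : V) :
    opw (TrSemi_B' A W W' hc) z (W'.projectionOnto W hc.symm v) =
      W'.projectionOnto W hc.symm (opw A z v) := by
  induction z generalizing v with
  | nil => simp [opw_nil]
  | cons b z ih =>
    rw [opw_cons, opw_cons, Module.End.mul_apply, Module.End.mul_apply, ih]
    set u := opw A z v
    have h1 : W'.projectionOnto W hc.symm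
        (A b (u - ((W'.projectionOnto W hc.symm u : W') : V))) = 0 := by
      rw [Submodule.projectionOnto_apply_eq_zero_iff]
      apply hinv
      exact Submodule.sub_projection_mem hc.symm u
    rw [map_sub, map_sub, sub_eq_zero] at h1
    rw [h1]
    rfl

include hinv in
theorem TrSemi_mem (z : List Bool) (v : V) (hv : v ∈ W) : opw A z v ∈ W := by
  have := TrSemi_Bz A W hinv z ⟨v, hv⟩
  rw [← this]
  exact Subtype.coe_prop _

theorem TrSemi_trace [FiniteDimensional ℚ V] (z : List Bool) :
    LinearMap.trace ℚ V (opw A z) = LinearMap.trace ℚ W (opw (TrSemi_B A W hinv) z) +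
      LinearMap.trace ℚ W' (opw (TrSemi_B' A W W' hc) z) := by
  have h1 : opw A z = ((opw A z) ∘ₗ W.subtype) ∘ₗ (W.projectionOnto W' hc) +
      ((opw A z) ∘ₗ W'.subtype) ∘ₗ (W'.projectionOnto W hc.symm) := by
    ext v
    simp only [LinearMap.add_apply, LinearMap.comp_apply, Submodule.subtype_apply]
    rw [← map_add]
    congr 1
    exact (Submodule.projection_add_projection_eq_self hc v).symm
  have h2 : (W.projectionOnto W' hc) ∘ₗ ((opw A z) ∘ₗ W.subtype) =
      opw (TrSemi_B A W hinv) z := by
    ext v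
    simp only [LinearMap.comp_apply, Submodule.subtype_apply]
    rw [← TrSemi_Bz A W hinv z v, Submodule.projectionOnto_apply_left]
  have h3 : (W'.projectionOnto W hc.symm) ∘ₗ ((opw A z) ∘ₗ W'.subtype) =
      opw (TrSemi_B' A W W' hc) z := by
    ext v
    simp only [LinearMap.comp_apply, Submodule.subtype_apply]
    rw [← TrSemi_B'z A W W' hinv hc z (v : V), Submodule.projectionOnto_apply_left]
  conv_lhs => rw [h1]
  rw [map_add, LinearMap.trace_comp_comm' (W.projectionOnto W' hc) ((opw A z) ∘ₗ W.subtype),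
    LinearMap.trace_comp_comm' (W'.projectionOnto W hc.symm) ((opw A z) ∘ₗ W'.subtype), h2, h3]

theorem TrSemi_nil
    (h1 : ∃ k, ∀ z : List Bool, k ≤ z.length → opw (TrSemi_B A W hinv) z = 0)
    (h2 : ∃ k, ∀ z : List Bool, k ≤ z.length → opw (TrSemi_B' A W W' hc) z = 0) :
    ∃ k, ∀ z : List Bool, k ≤ z.length → opw A z = 0 := by
  obtain ⟨K1, h1⟩ := h1
  obtain ⟨K2, h2⟩ := h2
  refine ⟨K1 + K2, fun z hz => ?_⟩
  ext v
  rw [← List.take_append_drop K1 z, opw_append, Module.End.mul_apply]
  have h3 : opw A (z.drop K1) v ∈ W := by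
    rw [← Submodule.projectionOnto_apply_eq_zero_iff hc.symm,
      ← TrSemi_B'z A W W' hinv hc, h2 _ (by simp; omega)]
    rfl
  have h4 := TrSemi_Bz A W hinv (z.take K1) ⟨_, h3⟩
  rw [h1 _ (by simp; omega)] at h4
  simpa using h4.symm

end TrSemi

theorem TrSemi_prod {V W : Type} [AddCommGroup V] [Module ℚ V] [AddCommGroup W] [Module ℚ W]
    (A : Bool → Module.End ℚ V) (B : Bool → Module.End ℚ W) (z : List Bool) :
    opw (fun b => LinearMap.prodMap (A b) (B b)) z = LinearMap.prodMap (opw A z) (opw B z) := by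
  induction z with
  | nil => rfl
  | cons b z ih =>
    rw [opw_cons, opw_cons, opw_cons, ih]
    rfl

theorem TrSemi_ss {V W : Type} [AddCommGroup V] [Module ℚ V] [AddCommGroup W] [Module ℚ W]
    (A : Bool → Module.End ℚ V) (B : Bool → Module.End ℚ W) (hA : SS A) (hB : SS B) :
    SS (fun b => LinearMap.prodMap (A b) (B b)) := by
  intro x hx
  rw [TrSemi_prod] at hx
  by_cases h1 : opw A x = 0
  · have h2 : opw B x ≠ 0 := by
      intro h2
      apply hx
      rw [h1, h2]
      rfl
    obtain ⟨w, hw⟩ := hB x h2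
    refine ⟨w, fun h => hw ?_⟩
    rw [TrSemi_prod, TrSemi_prod] at h
    ext v
    have := congrArg (fun f : Module.End ℚ (V × W) => (f (0, v)).2) h
    simpa using this
  · obtain ⟨w, hw⟩ := hA x h1
    refine ⟨w, fun h => hw ?_⟩
    rw [TrSemi_prod, TrSemi_prod] at h
    ext v
    have := congrArg (fun f : Module.End ℚ (V × W) => (f (v, 0)).1) h
    simpa using this

theorem semis (d : ℕ) : ∀ (V : Type) [AddCommGroup V] [Module ℚ V] [FiniteDimensional ℚ V]
    (A : Bool → Module.End ℚ V), Module.finrank ℚ V = d →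
    ∃ (V' : Type) (_ : AddCommGroup V') (_ : Module ℚ V') (_ : FiniteDimensional ℚ V')
      (A' : Bool → Module.End ℚ V'), Module.finrank ℚ V' = d ∧ SS A' ∧
      (∀ z, LinearMap.trace ℚ V' (opw A' z) = LinearMap.trace ℚ V (opw A z)) ∧
      ((∃ k, ∀ z : List Bool, k ≤ z.length → opw A' z = 0) →
        ∃ k, ∀ z : List Bool, k ≤ z.length → opw A z = 0) := by
  induction d using Nat.strong_induction_on with
  | _ d ih =>
    intro V _ _ _ A hd
    by_cases h : ∀ W : Submodule ℚ V, (∀ b, ∀ v ∈ W, A b v ∈ W) → W = ⊥ ∨ W = ⊤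
    · exact ⟨V, inferInstance, inferInstance, inferInstance, A, hd, TrSemi_case1 A h,
        fun _ => rfl, id⟩
    · push Not at h
      obtain ⟨W, hinv, hb, ht⟩ := h
      obtain ⟨W', hc⟩ := Submodule.exists_isCompl W
      have hsum := Submodule.finrank_add_eq_of_isCompl hc
      have hW1 : 0 < Module.finrank ℚ W := by
        rw [Module.finrank_pos_iff, Submodule.nontrivial_iff_ne_bot]
        exact hb
      have hW2 : Module.finrank ℚ W < Module.finrank ℚ V :=
        Submodule.finrank_lt ht
      obtain ⟨V1, i1, i2, i3, B1, e1, s1, t1, n1⟩ :=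
        ih (Module.finrank ℚ W) (by omega) W (TrSemi_B A W hinv) rfl
      obtain ⟨V2, j1, j2, j3, B2, e2, s2, t2, n2⟩ :=
        ih (Module.finrank ℚ W') (by omega) W' (TrSemi_B' A W W' hc) rfl
      refine ⟨V1 × V2, inferInstance, inferInstance, inferInstance,
        fun b => LinearMap.prodMap (B1 b) (B2 b), ?_, TrSemi_ss B1 B2 s1 s2, fun z => ?_, ?_⟩
      · rw [Module.finrank_prod, e1, e2]
        omega
      · rw [TrSemi_prod, LinearMap.trace_prodMap', t1, t2, TrSemi_trace A W W' hinv hc]
      · rintro ⟨k, hk⟩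
        refine TrSemi_nil A W W' hinv hc (n1 ⟨k, fun z hz => ?_⟩) (n2 ⟨k, fun z hz => ?_⟩)
        · have h1 := hk z hz
          rw [TrSemi_prod] at h1
          ext v
          have := congrArg (fun f : Module.End ℚ (V1 × V2) => (f (v, 0)).1) h1
          simpa using this
        · have h1 := hk z hz
          rw [TrSemi_prod] at h1
          ext v
          have := congrArg (fun f : Module.End ℚ (V1 × V2) => (f (0, v)).2) h1
          simpa using this

end Pool.Agent.Ppr2
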