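import Pool.Agent.Ppr2.TrNil
import Pool.Agent.Ppr2.TrPow
import Pool.Agent.Ppr2.TrCon

/-!
# Halving the rank

`tr A_z = 0` for all words `z` with `1 ≤ |z| < c`. Write `rk z = finrank (range (opw A z))`.
(a) `1 ≤ |z|`, `|z| rk z < c` gives `A_z` nilpotent: `nil_of_trace`, as `A_z^i = A_(rep z i)`
has length `i |z| ≤ rk z |z| < c`.
STEP. `A_x ≠ 0`, `|x| ≥ 1`, `|x| rk x + 2 d ≤ c`, `d = finrank V`. Let `w` be a word of minimal
length `l` with `A_x A_w A_x ≠ 0` (exists by (SS); `Nat.find` on the length). `y = x ++ w ++ x`: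
`A_y ≠ 0`, `rk y ≤ rk x`, `l rk y ≤ d` by `con_rank`.
CASE 1: `2 rk y ≤ rk x`: `x' = y`: `|y| rk y = (2 |x| + l) rk y ≤ |x| rk x + d`.
CASE 2: `rk x < 2 rk y`: then `l rk x ≤ 2 l rk y ≤ 2 d`, with `<` if `l ≥ 1`; `z = x ++ w`:
`rk z ≤ rk x`, `|z| rk z ≤ (|x| + l) rk x < |x| rk x + 2 d ≤ c` (for `l = 0` as `d ≥ rk x > 0`), so
`A_z` is nilpotent by (a). Let `i` be maximal with `A_z^i A_x ≠ 0` (`i ≥ 1` as
`A_z A_x = A_y ≠ 0`; `Nat.find` for `A_z^j A_x = 0`), `x' = rep z i ++ x`. By `rank_last` with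
`f = A_z = A_x A_w`, `g = A_x`: `(i + 1) rk x' ≤ rk x`, so `2 rk x' ≤ rk x`, and
`|x'| rk x' = (i (|x| + l) + |x|) rk x' ≤ |x| (i+1) rk x' + l (i + 1) rk x' ≤ |x| rk x + l rk x
≤ |x| rk x + 2 d`.
-/

namespace Pool.Agent.Ppr2

private theorem mul_left_TrStep {V : Type} [AddCommGroup V] [Module ℚ V]
    [FiniteDimensional ℚ V] (f g : Module.End ℚ V) :
    Module.finrank ℚ (LinearMap.range (f * g)) ≤ Module.finrank ℚ (LinearMap.range f) :=
  Submodule.finrank_mono (LinearMap.range_comp_le_range g f)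

private theorem pos_TrStep {V : Type} [AddCommGroup V] [Module ℚ V]
    [FiniteDimensional ℚ V] {f : Module.End ℚ V} (hf : f ≠ 0) :
    0 < Module.finrank ℚ (LinearMap.range f) := by
  rw [Module.finrank_pos_iff, Submodule.nontrivial_iff_ne_bot]
  exact fun h => hf (LinearMap.range_eq_bot.1 h)

private theorem nil_TrStep {V : Type} [AddCommGroup V] [Module ℚ V] [FiniteDimensional ℚ V]
    (A : Bool → Module.End ℚ V) (c : ℕ)
    (htr : ∀ z : List Bool, 1 ≤ z.length → z.length < c → LinearMap.trace ℚ V (opw A z) = 0)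
    (z : List Bool) (hz : 1 ≤ z.length)
    (hc : z.length * Module.finrank ℚ (LinearMap.range (opw A z)) < c) :
    IsNilpotent (opw A z) := by
  refine nil_of_trace _ fun i hi1 hi2 => ?_
  rw [← opw_rep]
  refine htr _ ?_ ?_
  · rw [rep_length]
    exact Nat.mul_pos hi1 hz
  · rw [rep_length]
    refine lt_of_le_of_lt ?_ hc
    rw [Nat.mul_comm]
    exact Nat.mul_le_mul_left _ hi2

theorem step {V : Type} [AddCommGroup V] [Module ℚ V] [FiniteDimensional ℚ V]
    (A : Bool → Module.End ℚ V) (hSS : SS A) (c : ℕ)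
    (htr : ∀ z : List Bool, 1 ≤ z.length → z.length < c → LinearMap.trace ℚ V (opw A z) = 0)
    (x : List Bool) (hx : opw A x ≠ 0) (hx1 : 1 ≤ x.length)
    (hc : x.length * Module.finrank ℚ (LinearMap.range (opw A x)) + 2 * Module.finrank ℚ V ≤ c) :
    ∃ x' : List Bool, opw A x' ≠ 0 ∧ 1 ≤ x'.length ∧
      2 * Module.finrank ℚ (LinearMap.range (opw A x')) ≤
        Module.finrank ℚ (LinearMap.range (opw A x)) ∧
      x'.length * Module.finrank ℚ (LinearMap.range (opw A x')) ≤
        x.length * Module.finrank ℚ (LinearMap.range (opw A x)) + 2 * Module.finrank ℚ V := by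
  classical
  obtain ⟨w, hw, hmin⟩ : ∃ w : List Bool, opw A x * opw A w * opw A x ≠ 0 ∧
      ∀ w' : List Bool, w'.length < w.length → opw A x * opw A w' * opw A x = 0 := by
    have hex : ∃ l : ℕ, ∃ w : List Bool, w.length = l ∧ opw A x * opw A w * opw A x ≠ 0 := by
      obtain ⟨w, hw⟩ := hSS x hx
      exact ⟨_, w, rfl, hw⟩
    obtain ⟨w, hwl, hw⟩ := Nat.find_spec hex
    refine ⟨w, hw, fun w' hw' => ?_⟩
    by_contra hne
    rw [hwl] at hw'
    exact Nat.find_min hex hw' ⟨w', rfl, hne⟩
  have hcon := con_rank A x w hmin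
  have hd : Module.finrank ℚ (LinearMap.range (opw A x)) ≤ Module.finrank ℚ V :=
    Submodule.finrank_le _
  have hx0 := pos_TrStep hx
  have hy : opw A (x ++ w ++ x) = opw A x * opw A w * opw A x := by
    rw [opw_append, opw_append]
  obtain ⟨r, hr⟩ : ∃ r, r = Module.finrank ℚ (LinearMap.range (opw A x)) := ⟨_, rfl⟩
  obtain ⟨q, hq⟩ : ∃ q, q = Module.finrank ℚ
    (LinearMap.range (opw A x * opw A w * opw A x)) := ⟨_, rfl⟩
  obtain ⟨d, hdd⟩ : ∃ d, d = Module.finrank ℚ V := ⟨_, rfl⟩
  rw [← hq, ← hdd] at hcon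
  rw [← hr, ← hdd] at hd hc
  rw [← hr] at hx0
  by_cases hcase : 2 * q ≤ r
  · refine ⟨x ++ w ++ x, ?_, ?_, ?_, ?_⟩
    · rw [hy]
      exact hw
    · rw [List.length_append]
      omega
    · rw [hy, ← hq, ← hr]
      exact hcase
    · rw [hy, ← hq, ← hr, ← hdd]
      have h1 : x.length * (2 * q) ≤ x.length * r := Nat.mul_le_mul_left _ hcase
      have h2 : (x ++ w ++ x).length * q = x.length * (2 * q) + w.length * q := by
        rw [List.length_append, List.length_append]
        ring
      omega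
  · have hlt : r < 2 * q := by omega
    have h2d : w.length * r ≤ 2 * d := by
      have h1 : w.length * r ≤ w.length * (2 * q) := Nat.mul_le_mul_left _ hlt.le
      have h2 : w.length * (2 * q) = 2 * (w.length * q) := by ring
      omega
    have h2d' : w.length * r < 2 * d := by
      rcases Nat.eq_zero_or_pos w.length with h0 | h0
      · rw [h0, zero_mul]
        omega
      · have h1 : w.length * r < w.length * (2 * q) := Nat.mul_lt_mul_of_pos_left hlt h0
        have h2 : w.length * (2 * q) = 2 * (w.length * q) := by ring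
        omega
    have hzrk : Module.finrank ℚ (LinearMap.range (opw A (x ++ w))) ≤ r := by
      rw [hr, opw_append]
      exact mul_left_TrStep _ _
    have hnil : IsNilpotent (opw A (x ++ w)) := by
      refine nil_TrStep A c htr _ (by rw [List.length_append]; omega) ?_
      have h1 := Nat.mul_le_mul_left (x ++ w).length hzrk
      have h2 : (x ++ w).length * r = x.length * r + w.length * r := by
        rw [List.length_append]
        ring
      omega
    have hex : ∃ j : ℕ, opw A (x ++ w) ^ j * opw A x = 0 := by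
      obtain ⟨j, hj⟩ := hnil
      exact ⟨j, by rw [hj, zero_mul]⟩
    have hf0 := Nat.find_spec hex
    have hfm := fun j hj => Nat.find_min (H := hex) (m := j) hj
    obtain ⟨j, hj⟩ : ∃ j, j = Nat.find hex := ⟨_, rfl⟩
    rw [← hj] at hf0 hfm
    have hj0 : j ≠ 0 := by
      rintro rfl
      rw [pow_zero, one_mul] at hf0
      exact hx hf0
    have hj1 : j ≠ 1 := by
      rintro rfl
      rw [pow_one, opw_append] at hf0
      exact hw hf0
    obtain ⟨i, rfl⟩ : ∃ i, j = i + 1 := ⟨j - 1, by omega⟩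
    have hne : opw A (x ++ w) ^ i * opw A x ≠ 0 := hfm i (Nat.lt_succ_self i)
    have hlast := rank_last (opw A (x ++ w)) (opw A x) (by
      rw [opw_append]
      exact LinearMap.range_comp_le_range _ _) i hf0
    have hx' : opw A (rep (x ++ w) i ++ x) = opw A (x ++ w) ^ i * opw A x := by
      rw [opw_append, opw_rep]
    obtain ⟨s, hs⟩ : ∃ s, s = Module.finrank ℚ
      (LinearMap.range (opw A (x ++ w) ^ i * opw A x)) := ⟨_, rfl⟩
    rw [← hs, ← hr] at hlast
    refine ⟨rep (x ++ w) i ++ x, ?_, ?_, ?_, ?_⟩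
    · rw [hx']
      exact hne
    · rw [List.length_append]
      omega
    · rw [hx', ← hs, ← hr]
      refine le_trans (Nat.mul_le_mul_right _ ?_) hlast
      omega
    · rw [hx', ← hs, ← hr, ← hdd]
      have h1 : x.length * ((i + 1) * s) ≤ x.length * r := Nat.mul_le_mul_left _ hlast
      have h2 : w.length * ((i + 1) * s) ≤ w.length * r := Nat.mul_le_mul_left _ hlast
      have h3 : (rep (x ++ w) i ++ x).length * s + w.length * s =
          x.length * ((i + 1) * s) + w.length * ((i + 1) * s) := by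
        rw [List.length_append, rep_length, List.length_append]
        ring
      omega

end Pool.Agent.Ppr2
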